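import Pool.Agent.ANO.Cone.LinA

/-!
# Splitting of a hyperbolic integer matrix (package DIM-SPLIT)

`LinSplit B κ κ'`: in the coordinates `e : ℝ^k ≃ ℝ^κ × ℝ^κ'` the automorphism `B` is `U × W`, where
`U⁻¹` and `W` are contractions (in the sense `‖U⁻ⁿ‖, ‖Wⁿ‖ ≤ a θⁿ`).

`exists_split`.  PROOF.  `Pool/Agent/ANO/Cone/LinA.lean` (proof of `exists_linGeo`; copy the private
lemmas which you need) shows: with `T`, `K` the complex linear maps of `A` and `A⁻¹` and a suitable
`lam > 1`, every vector of `ℂ^k` is a sum of a vector `x` for which `lam ^ n * ‖(T ^ n) x‖` is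
bounded and a vector `y` for which `lam ^ n * ‖(K ^ n) y‖` is bounded, and `0` is the only vector
with
both properties.  Let `Es`, `Eu` be the real subspaces of `ℝ^k` of all `v` such that
`lam ^ n * ‖A ^ n v‖`, resp. `lam ^ n * ‖A ^ (-n) v‖`, is bounded.  `Es ⊓ Eu = ⊥` (complexify).
`Es ⊔ Eu = ⊤`: for `v : ℝ^k` let `x + y` be the decomposition of the complexification of `v`; the
real parts of `x`, `y` (coordinate by coordinate) are in `Es`, `Eu` since
`A ^ n (re x) = re (T ^ n x)`, and `v = re x + re y`.  `A` and `A⁻¹` map `Es` and `Eu` to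
themselves.  Let `κ = finrank Eu`, `κ' = finrank Es`; `κ + κ' = k`
(`Submodule.finrank_add_eq_of_isCompl`).  `e` is the composition of
`(Submodule.prodEquivOfIsCompl Eu Es _).symm` and of coordinates
(`Module.finBasisOfFinrankEq`, `Basis.equivFun`), made continuous
(`LinearEquiv.toContinuousLinearEquiv`).  `U`, `W` are the maps `A` in these coordinates.
For every `x : ℝ^κ` there is `C` with `‖(U⁻¹) ^ n x‖ ≤ C lam⁻ⁿ` for all `n` (`e` and its inverse are
bounded); apply this to the basis vectors: `‖(U⁻¹) ^ n x‖ ≤ ∑ |x i| C_i lam⁻ⁿ ≤ (∑ C_i) ‖x‖ lam⁻ⁿ`.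
The same for `W`.  `θ = lam⁻¹`.

`LinSplit.inverse`: `B⁻¹` with `κ`, `κ'` exchanged: `e' = e.trans prodComm`, `U' = W⁻¹`,
`W' = U⁻¹`.  `LinSplit.pow`: `B ^ M`, `0 < M`: `U ^ M`, `W ^ M`, `θ ^ M` (`θ ^ M < 1`).
-/

set_option autoImplicit false

open Pool.Agent.ANO

namespace Pool.Agent.ANO2.Dim

variable {k κ κ' : ℕ}

/-- `A` as an automorphism of `ℝ^k`. -/
noncomputable def matCLE (A : Matrix (Fin k) (Fin k) ℤ) (hA : IsUnit A.det) :
    (Fin k → ℝ) ≃L[ℝ] (Fin k → ℝ) :=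
  LinearEquiv.toContinuousLinearEquiv
    { toFun := fun v => (A.map (Int.cast : ℤ → ℝ)).mulVec v
      map_add' := fun v w => Matrix.mulVec_add _ v w
      map_smul' := fun c v => Matrix.mulVec_smul _ c v
      invFun := fun v => (A⁻¹.map (Int.cast : ℤ → ℝ)).mulVec v
      left_inv := fun v => by
        have h : (A⁻¹.map (Int.cast : ℤ → ℝ)) * (A.map (Int.cast : ℤ → ℝ)) = 1 := by
          have := congrArg (fun M : Matrix (Fin k) (Fin k) ℤ => (Int.castRingHom ℝ).mapMatrix M)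
            (Matrix.nonsing_inv_mul A hA)
          simpa [map_mul] using this
        simp only [Matrix.mulVec_mulVec, h, Matrix.one_mulVec]
      right_inv := fun v => by
        have h : (A.map (Int.cast : ℤ → ℝ)) * (A⁻¹.map (Int.cast : ℤ → ℝ)) = 1 := by
          have := congrArg (fun M : Matrix (Fin k) (Fin k) ℤ => (Int.castRingHom ℝ).mapMatrix M)
            (Matrix.mul_nonsing_inv A hA)
          simpa [map_mul] using this
        simp only [Matrix.mulVec_mulVec, h, Matrix.one_mulVec] }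

theorem matCLE_apply (A : Matrix (Fin k) (Fin k) ℤ) (hA : IsUnit A.det) (v : Fin k → ℝ) :
    matCLE A hA v = (A.map (Int.cast : ℤ → ℝ)).mulVec v := rfl

/-- A splitting of `B` into an expanding part, of dimension `κ`, and a contracting part. -/
structure LinSplit (B : (Fin k → ℝ) ≃L[ℝ] (Fin k → ℝ)) (κ κ' : ℕ) where
  e : (Fin k → ℝ) ≃L[ℝ] ((Fin κ → ℝ) × (Fin κ' → ℝ))
  U : (Fin κ → ℝ) ≃L[ℝ] (Fin κ → ℝ)
  W : (Fin κ' → ℝ) ≃L[ℝ] (Fin κ' → ℝ)
  conj : ∀ v, e (B v) = (U (e v).1, W (e v).2)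
  a : ℝ
  θ : ℝ
  θ_nonneg : 0 ≤ θ
  θ_lt : θ < 1
  U_pow : ∀ n : ℕ, ‖(U.symm : (Fin κ → ℝ) →L[ℝ] (Fin κ → ℝ)) ^ n‖ ≤ a * θ ^ n
  W_pow : ∀ n : ℕ, ‖(W : (Fin κ' → ℝ) →L[ℝ] (Fin κ' → ℝ)) ^ n‖ ≤ a * θ ^ n

theorem LinSplit.inverse {B : (Fin k → ℝ) ≃L[ℝ] (Fin k → ℝ)} (h : LinSplit B κ κ') :
    Nonempty (LinSplit B.symm κ' κ) := by
  refine ⟨{
    e := h.e.trans (ContinuousLinearEquiv.prodComm ℝ (Fin κ → ℝ) (Fin κ' → ℝ))
    U := h.W.symm
    W := h.U.symm
    conj := fun v => ?_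
    a := h.a
    θ := h.θ
    θ_nonneg := h.θ_nonneg
    θ_lt := h.θ_lt
    U_pow := fun n => ?_
    W_pow := h.U_pow }⟩
  · have h1 := h.conj (B.symm v)
    rw [ContinuousLinearEquiv.apply_symm_apply] at h1
    rw [ContinuousLinearEquiv.trans_apply, ContinuousLinearEquiv.trans_apply, h1]
    change ((h.e (B.symm v)).2, (h.e (B.symm v)).1) =
      (h.W.symm (h.W (h.e (B.symm v)).2), h.U.symm (h.U (h.e (B.symm v)).1))
    rw [ContinuousLinearEquiv.symm_apply_apply, ContinuousLinearEquiv.symm_apply_apply]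
  · rw [ContinuousLinearEquiv.symm_symm]
    exact h.W_pow n

private theorem symm_pow_Split {V : Type} [NormedAddCommGroup V] [NormedSpace ℝ V] (U : V ≃L[ℝ] V)
    (M : ℕ) : ((U ^ M).symm : V →L[ℝ] V) = (U.symm : V →L[ℝ] V) ^ M := by
  induction M with
  | zero => rfl
  | succ M ih =>
    rw [pow_succ' (U.symm : V →L[ℝ] V) M, ← ih, pow_succ U M]
    rfl

private theorem coe_pow_Split {V : Type} [NormedAddCommGroup V] [NormedSpace ℝ V] (U : V ≃L[ℝ] V)
    (M : ℕ) : ((U ^ M : V ≃L[ℝ] V) : V →L[ℝ] V) = (U : V →L[ℝ] V) ^ M := by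
  induction M with
  | zero => rfl
  | succ M ih =>
    rw [pow_succ (U : V →L[ℝ] V) M, ← ih, pow_succ U M]
    rfl

theorem LinSplit.pow {B : (Fin k → ℝ) ≃L[ℝ] (Fin k → ℝ)} (h : LinSplit B κ κ') {M : ℕ}
    (hM : 0 < M) : Nonempty (LinSplit (B ^ M) κ κ') := by
  refine ⟨{
    e := h.e
    U := h.U ^ M
    W := h.W ^ M
    conj := fun v => ?_
    a := h.a
    θ := h.θ ^ M
    θ_nonneg := pow_nonneg h.θ_nonneg M
    θ_lt := pow_lt_one₀ h.θ_nonneg h.θ_lt hM.ne'
    U_pow := fun n => ?_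
    W_pow := fun n => ?_ }⟩
  · clear hM
    induction M generalizing v with
    | zero => rfl
    | succ M ih =>
      rw [pow_succ B M, pow_succ h.U M, pow_succ h.W M]
      change h.e ((B ^ M) (B v)) = ((h.U ^ M) (h.U (h.e v).1), (h.W ^ M) (h.W (h.e v).2))
      rw [ih (B v), h.conj v]
  · rw [symm_pow_Split, ← pow_mul, ← pow_mul]
    exact h.U_pow (M * n)
  · rw [coe_pow_Split, ← pow_mul, ← pow_mul]
    exact h.W_pow (M * n)

section Bdd

variable {𝕜 V : Type} [NormedField 𝕜] [NormedAddCommGroup V] [NormedSpace 𝕜 V]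

/-- the vectors `v` for which `lam ^ n * ‖L ^ n v‖` is bounded -/
private def bsub_Split (L : Module.End 𝕜 V) (lam : ℝ) (hl : 0 < lam) : Submodule 𝕜 V where
  carrier := {v | ∃ C : ℝ, ∀ n : ℕ, lam ^ n * ‖(L ^ n) v‖ ≤ C}
  zero_mem' := ⟨0, fun n => by rw [map_zero, norm_zero, mul_zero]⟩
  add_mem' := by
    rintro a b ⟨C, hC⟩ ⟨D, hD⟩
    refine ⟨C + D, fun n => ?_⟩
    rw [map_add]
    calc lam ^ n * ‖(L ^ n) a + (L ^ n) b‖ ≤ lam ^ n * (‖(L ^ n) a‖ + ‖(L ^ n) b‖) :=
          mul_le_mul_of_nonneg_left (norm_add_le _ _) (pow_pos hl n).le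
      _ = lam ^ n * ‖(L ^ n) a‖ + lam ^ n * ‖(L ^ n) b‖ := by ring
      _ ≤ C + D := add_le_add (hC n) (hD n)
  smul_mem' := by
    rintro c a ⟨C, hC⟩
    refine ⟨‖c‖ * C, fun n => ?_⟩
    rw [map_smul, norm_smul]
    calc lam ^ n * (‖c‖ * ‖(L ^ n) a‖) = ‖c‖ * (lam ^ n * ‖(L ^ n) a‖) := by ring
      _ ≤ ‖c‖ * C := mul_le_mul_of_nonneg_left (hC n) (norm_nonneg c)

/-- `L` maps the subspace to itself -/
private theorem bsub_map_Split {L : Module.End 𝕜 V} {lam : ℝ} {hl : 0 < lam} {v : V}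
    (h : v ∈ bsub_Split L lam hl) : L v ∈ bsub_Split L lam hl := by
  obtain ⟨C, hC⟩ := h
  refine ⟨C / lam, fun n => ?_⟩
  rw [le_div_iff₀ hl]
  have h1 := hC (n + 1)
  rw [pow_succ L n, Module.End.mul_apply] at h1
  calc lam ^ n * ‖(L ^ n) (L v)‖ * lam = lam ^ (n + 1) * ‖(L ^ n) (L v)‖ := by ring
    _ ≤ C := h1

/-- the inverse of `L` maps the subspace to itself -/
private theorem bsub_inv_Split {L K : Module.End 𝕜 V} (hLK : ∀ v, L (K v) = v) {lam : ℝ}
    {hl : 0 < lam} {v : V} (h : v ∈ bsub_Split L lam hl) : K v ∈ bsub_Split L lam hl := by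
  obtain ⟨C, hC⟩ := h
  refine ⟨max ‖K v‖ (lam * C), fun n => ?_⟩
  cases n with
  | zero =>
    rw [pow_zero, pow_zero, one_mul, Module.End.one_apply]
    exact le_max_left _ _
  | succ n =>
    rw [pow_succ L n, Module.End.mul_apply, hLK]
    refine le_trans ?_ (le_max_right _ _)
    calc lam ^ (n + 1) * ‖(L ^ n) v‖ = lam * (lam ^ n * ‖(L ^ n) v‖) := by ring
      _ ≤ lam * C := mul_le_mul_of_nonneg_left (hC n) hl.le

end Bdd

section BddC

variable {V : Type} [NormedAddCommGroup V] [NormedSpace ℂ V]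

private theorem bsub_step_Split {L : Module.End ℂ V} {lam : ℝ} {hl : 0 < lam} {v u : V} {μ : ℂ}
    (hu : u ∈ bsub_Split L lam hl) (h : L v = μ • v + u) (hμ : lam * ‖μ‖ < 1) :
    v ∈ bsub_Split L lam hl := by
  obtain ⟨C, hC⟩ := hu
  refine ⟨max ‖v‖ (lam * C / (1 - lam * ‖μ‖)), fun n => ?_⟩
  have hq : 0 < 1 - lam * ‖μ‖ := by linarith
  induction n with
  | zero =>
    rw [pow_zero, pow_zero, one_mul, Module.End.one_apply]
    exact le_max_left _ _
  | succ n ih =>
    rw [pow_succ L n, Module.End.mul_apply, h, map_add, map_smul]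
    have h1 : ‖μ • (L ^ n) v + (L ^ n) u‖ ≤ ‖μ‖ * ‖(L ^ n) v‖ + ‖(L ^ n) u‖ := by
      rw [← norm_smul]
      exact norm_add_le _ _
    have h2 : lam * C ≤ (1 - lam * ‖μ‖) * max ‖v‖ (lam * C / (1 - lam * ‖μ‖)) := by
      have h3 := le_max_right ‖v‖ (lam * C / (1 - lam * ‖μ‖))
      rw [div_le_iff₀ hq] at h3
      linarith
    calc lam ^ (n + 1) * ‖μ • (L ^ n) v + (L ^ n) u‖
        ≤ lam ^ (n + 1) * (‖μ‖ * ‖(L ^ n) v‖ + ‖(L ^ n) u‖) :=
          mul_le_mul_of_nonneg_left h1 (pow_pos hl _).le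
      _ = lam * ‖μ‖ * (lam ^ n * ‖(L ^ n) v‖) + lam * (lam ^ n * ‖(L ^ n) u‖) := by ring
      _ ≤ lam * ‖μ‖ * max ‖v‖ (lam * C / (1 - lam * ‖μ‖)) + lam * C :=
          add_le_add (mul_le_mul_of_nonneg_left ih (mul_nonneg hl.le (norm_nonneg _)))
            (mul_le_mul_of_nonneg_left (hC n) hl.le)
      _ ≤ max ‖v‖ (lam * C / (1 - lam * ‖μ‖)) := by linarith

private theorem gen_le_Split {L : Module.End ℂ V} {lam : ℝ} {hl : 0 < lam} {μ : ℂ}
    (hμ : lam * ‖μ‖ < 1) : L.maxGenEigenspace μ ≤ bsub_Split L lam hl := by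
  intro v hv
  rw [Module.End.mem_maxGenEigenspace] at hv
  obtain ⟨j, hj⟩ := hv
  induction j generalizing v with
  | zero =>
    rw [pow_zero, Module.End.one_apply] at hj
    rw [hj]
    exact Submodule.zero_mem _
  | succ j ih =>
    rw [pow_succ, Module.End.mul_apply] at hj
    have h1 := ih hj
    refine bsub_step_Split h1 (μ := μ) ?_ hμ
    rw [LinearMap.sub_apply, LinearMap.smul_apply, Module.End.one_apply]
    abel

private theorem gen_le'_Split {L K : Module.End ℂ V} (hKL : ∀ v, K (L v) = v) {lam : ℝ}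
    {hl : 0 < lam} {μ : ℂ} (hμ : lam < ‖μ‖) :
    L.maxGenEigenspace μ ≤ bsub_Split K lam hl := by
  have hμ0 : 0 < ‖μ‖ := hl.trans hμ
  have hμ1 : μ ≠ 0 := norm_pos_iff.1 hμ0
  intro v hv
  rw [Module.End.mem_maxGenEigenspace] at hv
  obtain ⟨j, hj⟩ := hv
  induction j generalizing v with
  | zero =>
    rw [pow_zero, Module.End.one_apply] at hj
    rw [hj]
    exact Submodule.zero_mem _
  | succ j ih =>
    rw [pow_succ, Module.End.mul_apply] at hj
    have h1 := ih hj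
    have h2 : -(μ⁻¹ • K ((L - μ • (1 : Module.End ℂ V)) v)) ∈ bsub_Split K lam hl :=
      Submodule.neg_mem _ (Submodule.smul_mem _ _ (bsub_map_Split h1))
    refine bsub_step_Split h2 (μ := μ⁻¹) ?_ ?_
    · rw [LinearMap.sub_apply, LinearMap.smul_apply, Module.End.one_apply, map_sub, hKL, map_smul,
        smul_sub, smul_smul, inv_mul_cancel₀ hμ1, one_smul]
      abel
    · rw [norm_inv, ← div_eq_mul_inv, div_lt_one hμ0]
      exact hμ

private theorem le_one_of_bdd_Split {q c C : ℝ} (hc : 0 < c) (h : ∀ n : ℕ, q ^ n * c ≤ C) :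
    q ≤ 1 := by
  by_contra hq
  push Not at hq
  obtain ⟨n, hn⟩ := pow_unbounded_of_one_lt (C / c) hq
  have h1 := h n
  rw [div_lt_iff₀ hc] at hn
  linarith

private theorem pow_eig_Split {L : Module.End ℂ V} {μ : ℂ} {v : V} (h : L v = μ • v) (n : ℕ) :
    (L ^ n) v = μ ^ n • v := by
  induction n with
  | zero => rw [pow_zero, pow_zero, one_smul, Module.End.one_apply]
  | succ n ih => rw [pow_succ, Module.End.mul_apply, h, map_smul, ih, smul_smul, pow_succ']

private theorem eig_bdd_Split {L : Module.End ℂ V} {lam : ℝ} {hl : 0 < lam} {μ : ℂ} {v : V}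
    (hv : v ≠ 0) (h : L v = μ • v) (hm : v ∈ bsub_Split L lam hl) : lam * ‖μ‖ ≤ 1 := by
  obtain ⟨C, hC⟩ := hm
  refine le_one_of_bdd_Split (norm_pos_iff.2 hv) (C := C) fun n => ?_
  have h1 := hC n
  rw [pow_eig_Split h, norm_smul, norm_pow] at h1
  rw [mul_pow]
  linarith

private theorem inf_bot_Split [FiniteDimensional ℂ V] {L K : Module.End ℂ V}
    (hKL : ∀ v, K (L v) = v) {lam : ℝ} (hl : 0 < lam) (h1 : 1 < lam) :
    bsub_Split L lam hl ⊓ bsub_Split K lam hl = ⊥ := by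
  by_contra hne
  have hmap : ∀ x ∈ bsub_Split L lam hl ⊓ bsub_Split K lam hl,
      L x ∈ bsub_Split L lam hl ⊓ bsub_Split K lam hl :=
    fun x hx => ⟨bsub_map_Split hx.1, bsub_inv_Split hKL hx.2⟩
  have hnt : Nontrivial (bsub_Split L lam hl ⊓ bsub_Split K lam hl : Submodule ℂ V) :=
    Submodule.nontrivial_iff_ne_bot.2 hne
  obtain ⟨μ, hμ⟩ := Module.End.exists_eigenvalue (L.restrict hmap)
  obtain ⟨v, hv⟩ := hμ.exists_hasEigenvector
  have hv0 : (v : V) ≠ 0 := fun h => hv.2 (Subtype.ext h)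
  have hL : L (v : V) = μ • (v : V) := by
    have := congrArg Subtype.val hv.apply_eq_smul
    exact this
  have hμ0 : μ ≠ 0 := by
    rintro rfl
    rw [zero_smul] at hL
    apply hv0
    rw [← hKL v, hL, map_zero]
  have hK : K (v : V) = μ⁻¹ • (v : V) := by
    have h2 := congrArg K hL
    rw [hKL, map_smul] at h2
    nth_rewrite 2 [h2]
    rw [smul_smul, inv_mul_cancel₀ hμ0, one_smul]
  have h3 := eig_bdd_Split hv0 hL v.2.1
  have h4 := eig_bdd_Split hv0 hK v.2.2
  have h5 : 0 < ‖μ‖ := norm_pos_iff.2 hμ0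
  rw [norm_inv, ← div_eq_mul_inv, div_le_one h5] at h4
  nlinarith

end BddC

/-- a number `lam > 1` which separates the eigenvalues -/
private theorem exists_lam_Split (S : Finset ℂ) (hS : ∀ μ ∈ S, ‖μ‖ ≠ 1) :
    ∃ lam : ℝ, 1 < lam ∧ ∀ μ ∈ S, lam * ‖μ‖ < 1 ∨ lam < ‖μ‖ := by
  have h1 : ∀ᶠ lam : ℝ in nhdsWithin 1 (Set.Ioi 1), ∀ μ ∈ S, lam * ‖μ‖ < 1 ∨ lam < ‖μ‖ := by
    rw [Filter.eventually_all_finset]
    intro μ hμ
    rcases lt_or_gt_of_ne (hS μ hμ) with h | h
    · have h2 : Filter.Tendsto (fun lam : ℝ => lam * ‖μ‖) (nhds 1) (nhds (1 * ‖μ‖)) :=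
        Filter.Tendsto.mul_const _ Filter.tendsto_id
      rw [one_mul] at h2
      have h3 := h2.eventually (Iio_mem_nhds h)
      exact (h3.filter_mono nhdsWithin_le_nhds).mono fun _ hx => Or.inl hx
    · have h3 : ∀ᶠ lam : ℝ in nhds 1, lam < ‖μ‖ := Iio_mem_nhds h
      exact (h3.filter_mono nhdsWithin_le_nhds).mono fun _ hx => Or.inr hx
  obtain ⟨lam, h2, h3⟩ := (h1.and self_mem_nhdsWithin).exists
  exact ⟨lam, h3, h2⟩

/-- eigenvalues are roots of the characteristic polynomial -/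
private theorem isRoot_of_eig_Split (B : Matrix (Fin k) (Fin k) ℂ) {μ : ℂ}
    (h : Module.End.maxGenEigenspace (Matrix.toLin' B) μ ≠ ⊥) : B.charpoly.IsRoot μ := by
  have h1 : Module.End.HasEigenvalue (Matrix.toLin' B) μ := by
    by_contra hn
    apply h
    rw [eq_bot_iff]
    intro v hv
    rw [Module.End.mem_maxGenEigenspace] at hv
    obtain ⟨j, hj⟩ := hv
    have h2 : Function.Injective (Matrix.toLin' B - μ • (1 : Module.End ℂ (Fin k → ℂ))) := by
      rw [← LinearMap.ker_eq_bot, ← Module.End.eigenspace_def]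
      by_contra h3
      exact hn (Module.End.hasEigenvalue_iff.2 h3)
    rw [Submodule.mem_bot]
    have h3 : Function.Injective
        ((Matrix.toLin' B - μ • (1 : Module.End ℂ (Fin k → ℂ))) ^ j) := by
      rw [Module.End.coe_pow]
      exact h2.iterate j
    exact h3 (by rw [hj, map_zero])
  obtain ⟨v, hv⟩ := h1.exists_hasEigenvector
  have h2 : B.mulVec v = μ • v := by
    have := hv.apply_eq_smul
    rwa [Matrix.toLin'_apply] at this
  rw [Polynomial.IsRoot, Matrix.eval_charpoly]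
  refine Matrix.exists_mulVec_eq_zero_iff.1 ⟨v, hv.2, ?_⟩
  rw [Matrix.sub_mulVec, h2, Matrix.scalar_apply, Matrix.diagonal_const_mulVec, sub_self]

/-- the vector with complex entries -/
private def cvec_Split (v : Fin k → ℝ) : Fin k → ℂ := fun i => (v i : ℂ)

/-- the vector of the real parts -/
private def rvec_Split (x : Fin k → ℂ) : Fin k → ℝ := fun i => (x i).re

private theorem cvec_norm_Split (v : Fin k → ℝ) : ‖cvec_Split v‖ = ‖v‖ := by
  have h : ∀ i, ‖cvec_Split v i‖ = ‖v i‖ := fun i => Complex.norm_real _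
  apply le_antisymm
  · rw [pi_norm_le_iff_of_nonneg (norm_nonneg v)]
    intro i
    rw [h]
    exact norm_le_pi_norm v i
  · rw [pi_norm_le_iff_of_nonneg (norm_nonneg _)]
    intro i
    rw [← h]
    exact norm_le_pi_norm (cvec_Split v) i

private theorem rvec_norm_Split (x : Fin k → ℂ) : ‖rvec_Split x‖ ≤ ‖x‖ := by
  rw [pi_norm_le_iff_of_nonneg (norm_nonneg x)]
  intro i
  exact (Complex.abs_re_le_norm (x i)).trans (norm_le_pi_norm x i)

private theorem cvec_mul_Split (A : Matrix (Fin k) (Fin k) ℤ) (v : Fin k → ℝ) :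
    cvec_Split ((A.map (Int.cast : ℤ → ℝ)).mulVec v) =
      (A.map (Int.cast : ℤ → ℂ)).mulVec (cvec_Split v) := by
  funext i
  unfold cvec_Split Matrix.mulVec dotProduct
  push_cast
  rfl

private theorem rvec_mul_Split (A : Matrix (Fin k) (Fin k) ℤ) (x : Fin k → ℂ) :
    rvec_Split ((A.map (Int.cast : ℤ → ℂ)).mulVec x) =
      (A.map (Int.cast : ℤ → ℝ)).mulVec (rvec_Split x) := by
  funext i
  unfold rvec_Split Matrix.mulVec dotProduct
  rw [Complex.re_sum]
  refine Finset.sum_congr rfl fun j _ => ?_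
  simp

/-- pointwise bounds for the powers of a linear map give bounds for the norms -/
private theorem opNorm_Split {m : ℕ} (L : (Fin m → ℝ) →L[ℝ] (Fin m → ℝ)) {θ : ℝ} (hθ : 0 ≤ θ)
    (h : ∀ x, ∃ C : ℝ, ∀ n : ℕ, ‖(L ^ n) x‖ ≤ C * θ ^ n) :
    ∃ a : ℝ, 0 ≤ a ∧ ∀ n : ℕ, ‖L ^ n‖ ≤ a * θ ^ n := by
  choose C hC using fun i : Fin m => h (Pi.single i 1)
  have hs : 0 ≤ ∑ i, |C i| := Finset.sum_nonneg fun i _ => abs_nonneg _
  refine ⟨∑ i, |C i|, hs, fun n => ?_⟩
  refine ContinuousLinearMap.opNorm_le_bound _ (mul_nonneg hs (pow_nonneg hθ n)) fun x => ?_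
  have hx : x = ∑ i, x i • (Pi.single i 1 : Fin m → ℝ) := by
    funext j
    rw [Finset.sum_apply, Finset.sum_eq_single j]
    · rw [Pi.smul_apply, Pi.single_eq_same, smul_eq_mul, mul_one]
    · intro i _ hij
      rw [Pi.smul_apply, Pi.single_eq_of_ne hij.symm, smul_zero]
    · intro h
      exact absurd (Finset.mem_univ j) h
  nth_rewrite 1 [hx]
  rw [map_sum]
  refine (norm_sum_le _ _).trans ?_
  rw [Finset.sum_mul, Finset.sum_mul]
  refine Finset.sum_le_sum fun i _ => ?_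
  rw [map_smul, norm_smul]
  have h1 : ‖(L ^ n) (Pi.single i 1)‖ ≤ |C i| * θ ^ n :=
    (hC i n).trans (mul_le_mul_of_nonneg_right (le_abs_self _) (pow_nonneg hθ n))
  calc ‖x i‖ * ‖(L ^ n) (Pi.single i 1)‖ ≤ ‖x‖ * (|C i| * θ ^ n) :=
        mul_le_mul (norm_le_pi_norm x i) h1 (norm_nonneg _) (norm_nonneg _)
    _ = |C i| * θ ^ n * ‖x‖ := by ring

/-- coordinates of an invariant subspace on which the powers of `K` are small -/
private theorem coords_Split {V : Type} [NormedAddCommGroup V] [NormedSpace ℝ V]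
    [FiniteDimensional ℝ V] (L K : Module.End ℝ V) (hKL : ∀ v, K (L v) = v)
    (hLK : ∀ v, L (K v) = v) {lam : ℝ} (hl : 0 < lam) :
    ∃ (b : bsub_Split K lam hl ≃ₗ[ℝ] (Fin (Module.finrank ℝ (bsub_Split K lam hl)) → ℝ))
      (U : (Fin (Module.finrank ℝ (bsub_Split K lam hl)) → ℝ) ≃L[ℝ]
        (Fin (Module.finrank ℝ (bsub_Split K lam hl)) → ℝ)),
      (∀ (x : V) (hx : x ∈ bsub_Split K lam hl) (hx' : L x ∈ bsub_Split K lam hl),
        U (b ⟨x, hx⟩) = b ⟨L x, hx'⟩) ∧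
      ∃ a : ℝ, 0 ≤ a ∧ ∀ n : ℕ, ‖(U.symm : (Fin (Module.finrank ℝ (bsub_Split K lam hl)) → ℝ) →L[ℝ]
        (Fin (Module.finrank ℝ (bsub_Split K lam hl)) → ℝ)) ^ n‖ ≤ a * lam⁻¹ ^ n := by
  classical
  set m := Module.finrank ℝ (bsub_Split K lam hl) with hm
  have b : bsub_Split K lam hl ≃ₗ[ℝ] (Fin m → ℝ) :=
    (Module.finBasis ℝ (bsub_Split K lam hl)).equivFun
  have h1 : ∀ x ∈ bsub_Split K lam hl, L x ∈ bsub_Split K lam hl := fun x hx =>
    bsub_inv_Split hKL hx
  have h2 : ∀ x ∈ bsub_Split K lam hl, K x ∈ bsub_Split K lam hl := fun x hx =>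
    bsub_map_Split hx
  set R : bsub_Split K lam hl ≃ₗ[ℝ] bsub_Split K lam hl :=
    LinearEquiv.ofLinearMap (L.restrict h1) (K.restrict h2)
      (by ext x; exact hLK x) (by ext x; exact hKL x) with hR
  set U0 : (Fin m → ℝ) ≃ₗ[ℝ] (Fin m → ℝ) := (b.symm.trans R).trans b with hU0
  refine ⟨b, U0.toContinuousLinearEquiv, fun x hx hx' => ?_, ?_⟩
  · change b (R (b.symm (b ⟨x, hx⟩))) = _
    rw [LinearEquiv.symm_apply_apply]
    rfl
  · refine opNorm_Split _ (inv_nonneg.2 hl.le) fun x => ?_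
    set y : bsub_Split K lam hl := b.symm x with hy
    have hpow : ∀ n : ℕ, ∃ hn : (K ^ n) (y : V) ∈ bsub_Split K lam hl,
        ((U0.toContinuousLinearEquiv.symm : (Fin m → ℝ) →L[ℝ] (Fin m → ℝ)) ^ n) x =
          b ⟨(K ^ n) (y : V), hn⟩ := by
      intro n
      induction n with
      | zero =>
        refine ⟨y.2, ?_⟩
        rw [pow_zero]
        change x = b y
        rw [hy, LinearEquiv.apply_symm_apply]
      | succ n ih =>
        obtain ⟨hn, e⟩ := ih
        have e1 : (K ^ (n + 1)) (y : V) = K ((K ^ n) (y : V)) := by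
          rw [pow_succ', Module.End.mul_apply]
        refine ⟨by rw [e1]; exact h2 _ hn, ?_⟩
        rw [pow_succ']
        change (U0.toContinuousLinearEquiv.symm : (Fin m → ℝ) →L[ℝ] (Fin m → ℝ))
          (((U0.toContinuousLinearEquiv.symm : (Fin m → ℝ) →L[ℝ] (Fin m → ℝ)) ^ n) x) = _
        rw [e]
        change b (R.symm (b.symm (b ⟨(K ^ n) (y : V), hn⟩))) = _
        rw [LinearEquiv.symm_apply_apply]
        refine congrArg b (Subtype.ext ?_)
        exact e1.symm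
    obtain ⟨C, hC⟩ := y.2
    set bc : bsub_Split K lam hl →L[ℝ] (Fin m → ℝ) := LinearMap.toContinuousLinearMap
      (b : bsub_Split K lam hl →ₗ[ℝ] (Fin m → ℝ)) with hbc
    refine ⟨‖bc‖ * C, fun n => ?_⟩
    obtain ⟨hn, e⟩ := hpow n
    rw [e]
    have h3 : ‖b ⟨(K ^ n) (y : V), hn⟩‖ ≤ ‖bc‖ * ‖(K ^ n) (y : V)‖ :=
      bc.le_opNorm ⟨(K ^ n) (y : V), hn⟩
    refine h3.trans ?_
    rw [mul_assoc]
    refine mul_le_mul_of_nonneg_left ?_ bc.opNorm_nonneg
    rw [inv_pow, ← div_eq_mul_inv, le_div_iff₀ (pow_pos hl n), mul_comm]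
    exact hC n

theorem exists_split (A : Matrix (Fin k) (Fin k) ℤ) (hA : IsHyperbolicMatrix A) :
    ∃ κ κ' : ℕ, κ + κ' = k ∧ Nonempty (LinSplit (matCLE A hA.1) κ κ') := by
  classical
  have hdet := hA.1
  set B : Matrix (Fin k) (Fin k) ℂ := A.map (Int.cast : ℤ → ℂ) with hB
  set B' : Matrix (Fin k) (Fin k) ℂ := A⁻¹.map (Int.cast : ℤ → ℂ) with hB'
  have hB'B : B' * B = 1 := by
    have h1 : (Int.castRingHom ℂ).mapMatrix A⁻¹ * (Int.castRingHom ℂ).mapMatrix A = 1 := by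
      rw [← map_mul, Matrix.nonsing_inv_mul A hdet, map_one]
    exact h1
  set T : Module.End ℂ (Fin k → ℂ) := Matrix.toLin' B with hT
  set K : Module.End ℂ (Fin k → ℂ) := Matrix.toLin' B' with hK
  have hKT : ∀ v, K (T v) = v := by
    intro v
    rw [hT, hK, Matrix.toLin'_apply, Matrix.toLin'_apply, Matrix.mulVec_mulVec, hB'B,
      Matrix.one_mulVec]
  obtain ⟨lam, hlam, hsep⟩ := exists_lam_Split B.charpoly.roots.toFinset (by
    intro μ hμ
    rw [Multiset.mem_toFinset] at hμ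
    exact hA.2 μ (Polynomial.isRoot_of_mem_roots hμ))
  have hl : 0 < lam := zero_lt_one.trans hlam
  have hsup : bsub_Split T lam hl ⊔ bsub_Split K lam hl = ⊤ := by
    rw [eq_top_iff, ← Module.End.iSup_maxGenEigenspace_eq_top T]
    refine iSup_le fun μ => ?_
    by_cases hμ : T.maxGenEigenspace μ = ⊥
    · rw [hμ]
      exact bot_le
    · have h1 : μ ∈ B.charpoly.roots.toFinset := by
        rw [Multiset.mem_toFinset, Polynomial.mem_roots (Matrix.charpoly_monic B).ne_zero]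
        exact isRoot_of_eig_Split B hμ
      rcases hsep μ h1 with h | h
      · exact (gen_le_Split h).trans le_sup_left
      · exact (gen_le'_Split hKT h).trans le_sup_right
  have hinf := inf_bot_Split hKT hl hlam
  set G := matCLE A hdet with hG
  set LR : Module.End ℝ (Fin k → ℝ) := (G.toLinearEquiv : (Fin k → ℝ) →ₗ[ℝ] (Fin k → ℝ)) with hLR
  set KR : Module.End ℝ (Fin k → ℝ) :=
    (G.symm.toLinearEquiv : (Fin k → ℝ) →ₗ[ℝ] (Fin k → ℝ)) with hKR
  have hLK : ∀ v, LR (KR v) = v := fun v => G.apply_symm_apply v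
  have hKL : ∀ v, KR (LR v) = v := fun v => G.symm_apply_apply v
  have cL : ∀ (n : ℕ) (v : Fin k → ℝ), cvec_Split ((LR ^ n) v) = (T ^ n) (cvec_Split v) := by
    intro n
    induction n with
    | zero => exact fun v => rfl
    | succ n ih =>
      intro v
      rw [pow_succ LR n, pow_succ T n, Module.End.mul_apply, Module.End.mul_apply, ih]
      refine congrArg (T ^ n) ?_
      rw [hT, Matrix.toLin'_apply]
      exact cvec_mul_Split A v
  have cK : ∀ (n : ℕ) (v : Fin k → ℝ), cvec_Split ((KR ^ n) v) = (K ^ n) (cvec_Split v) := by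
    intro n
    induction n with
    | zero => exact fun v => rfl
    | succ n ih =>
      intro v
      rw [pow_succ KR n, pow_succ K n, Module.End.mul_apply, Module.End.mul_apply, ih]
      refine congrArg (K ^ n) ?_
      rw [hK, Matrix.toLin'_apply]
      exact cvec_mul_Split A⁻¹ v
  have rL : ∀ (n : ℕ) (x : Fin k → ℂ), rvec_Split ((T ^ n) x) = (LR ^ n) (rvec_Split x) := by
    intro n
    induction n with
    | zero => exact fun v => rfl
    | succ n ih =>
      intro x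
      rw [pow_succ LR n, pow_succ T n, Module.End.mul_apply, Module.End.mul_apply, ih]
      refine congrArg (LR ^ n) ?_
      rw [hT, Matrix.toLin'_apply]
      exact rvec_mul_Split A x
  have rK : ∀ (n : ℕ) (x : Fin k → ℂ), rvec_Split ((K ^ n) x) = (KR ^ n) (rvec_Split x) := by
    intro n
    induction n with
    | zero => exact fun v => rfl
    | succ n ih =>
      intro x
      rw [pow_succ KR n, pow_succ K n, Module.End.mul_apply, Module.End.mul_apply, ih]
      refine congrArg (KR ^ n) ?_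
      rw [hK, Matrix.toLin'_apply]
      exact rvec_mul_Split A⁻¹ x
  have hln : ∀ n : ℕ, 0 ≤ lam ^ n := fun n => (pow_pos hl n).le
  have hdis : Disjoint (bsub_Split KR lam hl) (bsub_Split LR lam hl) := by
    rw [disjoint_iff, eq_bot_iff]
    rintro v ⟨⟨C, hC⟩, ⟨D, hD⟩⟩
    have h1 : cvec_Split v ∈ bsub_Split T lam hl ⊓ bsub_Split K lam hl := by
      refine ⟨⟨D, fun n => ?_⟩, ⟨C, fun n => ?_⟩⟩
      · rw [← cL, cvec_norm_Split]
        exact hD n
      · rw [← cK, cvec_norm_Split]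
        exact hC n
    rw [hinf, Submodule.mem_bot] at h1
    have h2 := cvec_norm_Split v
    rw [h1, norm_zero] at h2
    exact norm_eq_zero.1 h2.symm
  have hcod : Codisjoint (bsub_Split KR lam hl) (bsub_Split LR lam hl) := by
    rw [codisjoint_iff, eq_top_iff]
    intro v _
    have h1 : cvec_Split v ∈ bsub_Split T lam hl ⊔ bsub_Split K lam hl := by
      rw [hsup]
      exact Submodule.mem_top
    obtain ⟨x, ⟨C, hC⟩, y, ⟨D, hD⟩, hxy⟩ := Submodule.mem_sup.1 h1
    refine Submodule.mem_sup.2 ⟨rvec_Split y, ⟨D, fun n => ?_⟩, rvec_Split x, ⟨C, fun n => ?_⟩, ?_⟩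
    · rw [← rK]
      exact (mul_le_mul_of_nonneg_left (rvec_norm_Split _) (hln n)).trans (hD n)
    · rw [← rL]
      exact (mul_le_mul_of_nonneg_left (rvec_norm_Split _) (hln n)).trans (hC n)
    · funext i
      have h2 := congrArg Complex.re (congrFun hxy i)
      change (y i).re + (x i).re = v i
      rw [Pi.add_apply, Complex.add_re] at h2
      rw [add_comm, h2]
      exact Complex.ofReal_re (v i)
  have hc : IsCompl (bsub_Split KR lam hl) (bsub_Split LR lam hl) := ⟨hdis, hcod⟩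
  obtain ⟨bu, U, hU, au, hau, hUn⟩ := coords_Split LR KR hKL hLK hl
  obtain ⟨bs, W, hW, as, has, hWn⟩ := coords_Split KR LR hLK hKL hl
  refine ⟨_, _, ?_, ⟨{
    e := ((Submodule.prodEquivOfIsCompl _ _ hc).symm.trans
      (LinearEquiv.prodCongr bu bs)).toContinuousLinearEquiv
    U := U
    W := W.symm
    conj := fun v => ?_
    a := max au as
    θ := lam⁻¹
    θ_nonneg := inv_nonneg.2 hl.le
    θ_lt := inv_lt_one_of_one_lt₀ hlam
    U_pow := fun n => (hUn n).trans (mul_le_mul_of_nonneg_right (le_max_left _ _)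
      (pow_nonneg (inv_nonneg.2 hl.le) n))
    W_pow := fun n => (hWn n).trans (mul_le_mul_of_nonneg_right (le_max_right _ _)
      (pow_nonneg (inv_nonneg.2 hl.le) n)) }⟩⟩
  · have h1 := Submodule.finrank_add_eq_of_isCompl hc
    rw [h1, Module.finrank_fintype_fun_eq_card, Fintype.card_fin]
  · obtain ⟨⟨x, y⟩, rfl⟩ := (Submodule.prodEquivOfIsCompl _ _ hc).surjective v
    have hx' : LR (x : Fin k → ℝ) ∈ bsub_Split KR lam hl := bsub_inv_Split hKL x.2
    have hy' : LR (y : Fin k → ℝ) ∈ bsub_Split LR lam hl := bsub_map_Split y.2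
    have h1 : G (Submodule.prodEquivOfIsCompl _ _ hc (x, y)) =
        Submodule.prodEquivOfIsCompl _ _ hc (⟨LR x, hx'⟩, ⟨LR y, hy'⟩) := by
      rw [Submodule.coe_prodEquivOfIsCompl', Submodule.coe_prodEquivOfIsCompl']
      exact map_add G _ _
    rw [h1]
    change (LinearEquiv.prodCongr bu bs) ((Submodule.prodEquivOfIsCompl _ _ hc).symm
      (Submodule.prodEquivOfIsCompl _ _ hc (⟨LR x, hx'⟩, ⟨LR y, hy'⟩))) =
      (U ((LinearEquiv.prodCongr bu bs) ((Submodule.prodEquivOfIsCompl _ _ hc).symm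
        (Submodule.prodEquivOfIsCompl _ _ hc (x, y)))).1,
      W.symm ((LinearEquiv.prodCongr bu bs) ((Submodule.prodEquivOfIsCompl _ _ hc).symm
        (Submodule.prodEquivOfIsCompl _ _ hc (x, y)))).2)
    rw [LinearEquiv.symm_apply_apply, LinearEquiv.symm_apply_apply]
    refine Prod.ext ?_ ?_
    · exact (hU (x : Fin k → ℝ) x.2 hx').symm
    · change bs ⟨LR y, hy'⟩ = W.symm (bs y)
      rw [ContinuousLinearEquiv.eq_symm_apply]
      have h2 : KR (LR (y : Fin k → ℝ)) ∈ bsub_Split LR lam hl := by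
        rw [hKL]
        exact y.2
      rw [hW (LR y) hy' h2]
      exact congrArg bs (Subtype.ext (hKL y))

end Pool.Agent.ANO2.Dim
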