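import Pool.Agent.ANO2.Dim.Defs
import Pool.Agent.ANO2.Dim.Split
import Pool.Agent.ANO2.EqIdx.Inst

/-!
# Configurations: the concrete data behind `Func`

`Side H w`: the side function `s` of a homeomorphism `H` of `ℍ` with the fixed point `w`, and the
pseudo-distances `du`, `ds` which are expanded, resp. contracted by `H`.

`Cfg Z T I₀ κ κ'`: `T` is at bounded distance, in the factors `i ∉ I₀`, of the map `H i`; in the
twisted torus coordinate `t - t₀ z`, `T` is the linear map `B` up to an error which is bounded if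
the coordinates `i ∉ I₀` are bounded; `B` has an expanding part of dimension `κ`.
-/

set_option autoImplicit false

open Set Filter Topology
open Pool.Agent.ANO
open scoped UpperHalfPlane

namespace Pool.Agent.ANO2.Dim

open Pool.Agent.ANO2.EqIdx

/-- Side functions. -/
structure Side (H : ℍ → ℍ) (w : ℍ) where
  du : ℍ → ℍ → ℝ
  ds : ℍ → ℍ → ℝ
  s : ℍ → ℝ
  L : ℝ
  one_lt : 1 < L
  cont : Continuous s
  s_H : ∀ z, s (H z) = L * s z
  s_le : ∀ a b, |s a - s b| ≤ du a b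
  s_eq : ∀ z, |s z| = du z w
  pos : ∃ z, 0 < s z
  neg : ∃ z, s z < 0
  ds_nonneg : ∀ a b, 0 ≤ ds a b
  ds_triangle : ∀ a b c, ds a c ≤ ds a b + ds b c
  ds_H : ∀ a b, L * ds (H a) (H b) = ds a b
  fixed : H w = w
  upper : ∀ R : ℝ, ∃ C : ℝ, ∀ a b, dist a b ≤ R → du a b ≤ C ∧ ds a b ≤ C
  proper : ∀ R : ℝ, ∃ C : ℝ, ∀ a b, du a b ≤ R → ds a b ≤ R → dist a b ≤ C

variable {r k : ℕ}

/-- A configuration. -/
structure Cfg (Z : Type) [Group Z] [MulAction Z (ANO.X r k)] (T : ANO.X r k ≃ₜ ANO.X r k)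
    (I₀ : Set (Fin r)) (κ κ' : ℕ) where
  H : Fin r → ℍ → ℍ
  w : Fin r → ℍ
  side : ∀ i : {i : Fin r // i ∉ I₀}, Side (H i) (w i)
  B : (Fin k → ℝ) ≃L[ℝ] (Fin k → ℝ)
  split : LinSplit B κ κ'
  t₀ : (Fin r → ℍ) → (Fin k → ℝ)
  cont : Continuous t₀
  dep : ∀ z z', (∀ i ∈ I₀, z i = z' i) → t₀ z = t₀ z'
  near : ∃ C : ℝ, ∀ p, ∀ i ∉ I₀, dist ((T p).1 i) (H i (p.1 i)) ≤ C
  tw : ∀ R : ℝ, ∃ C : ℝ, ∀ p : ANO.X r k, (∀ i ∉ I₀, dist (p.1 i) (w i) ≤ R) →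
    ‖((T p).2 - t₀ (T p).1) - B (p.2 - t₀ p.1)‖ ≤ C
  cpt : ∀ R : ℝ, ∃ K : Set (ANO.X r k), IsCompact K ∧ ∀ p : ANO.X r k,
    (∀ i ∉ I₀, dist (p.1 i) (w i) ≤ R) → ‖p.2 - t₀ p.1‖ ≤ R → p ∈ sat Z K

namespace Cfg

variable {Z : Type} [Group Z] [MulAction Z (ANO.X r k)] {T : ANO.X r k ≃ₜ ANO.X r k}
  {I₀ : Set (Fin r)} {κ κ' : ℕ}

/-- The side functions on `X r k`. -/
def f (D : Cfg Z T I₀ κ κ') (i : {i : Fin r // i ∉ I₀}) (p : ANO.X r k) : ℝ :=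
  (D.side i).s (p.1 i)

/-- The twisted torus coordinate. -/
def tt (D : Cfg Z T I₀ κ κ') (p : ANO.X r k) : Fin k → ℝ := p.2 - D.t₀ p.1

/-- The unstable part of the twisted torus coordinate. -/
def g (D : Cfg Z T I₀ κ κ') (p : ANO.X r k) : Fin κ → ℝ := (D.split.e (D.tt p)).1

/-- The stable part of the twisted torus coordinate. -/
def h (D : Cfg Z T I₀ κ κ') (p : ANO.X r k) : Fin κ' → ℝ := (D.split.e (D.tt p)).2

end Cfg

end Pool.Agent.ANO2.Dim
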