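import Pool.Agent.ANO2.Dim.PALoc

/-!
# Two-sided configurations (package DIM-CFG2)

`Cfg2` gives a configuration for `T` (`toCfg`) and one for `T.symm` (`inverse`), with the same `t₀`
and the same compact sets, `B.symm`, and `κ`, `κ'` exchanged (`LinSplit.inverse`).
`inverse`:
* `near`: let `q = T.symm p`.  `dist (p.1 i) (H i (q.1 i)) ≤ C` (`near` at `q`), so
  `dist ((H i).symm (p.1 i)) (q.1 i) ≤ C'` by `PALoc.coarse_symm` (take the maximum over the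
  finitely many `i`).
* `tw`: let `dist (p.1 i) (w i) ≤ R` for `i ∉ I₀`, `q = T.symm p`.  Then
  `dist (q.1 i) (w i) ≤ dist (q.1 i) ((H i).symm (p.1 i)) + dist ((H i).symm (p.1 i)) (w i) ≤ R'`
  (`near`, `coarse_symm`, `(H i).symm (w i) = w i`), so by `tw R'` at `q`,
  `‖(p.2 - t₀ p.1) - B (q.2 - t₀ q.1)‖ ≤ C`, and
  `‖(q.2 - t₀ q.1) - B.symm (p.2 - t₀ p.1)‖ ≤ ‖B.symm‖ C`.
-/

set_option autoImplicit false

open Set Filter Topology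
open Pool.Agent.ANO
open scoped UpperHalfPlane

namespace Pool.Agent.ANO2.Dim

open Pool.Agent.ANO2.EqIdx

variable {r k : ℕ}

/-- A two-sided configuration. -/
structure Cfg2 (Z : Type) [Group Z] [MulAction Z (ANO.X r k)] (T : ANO.X r k ≃ₜ ANO.X r k)
    (I₀ : Set (Fin r)) (κ κ' : ℕ) where
  H : Fin r → ℍ ≃ₜ ℍ
  w : Fin r → ℍ
  pa : ∀ i : {i : Fin r // i ∉ I₀}, PALoc (H i) (w i)
  B : (Fin k → ℝ) ≃L[ℝ] (Fin k → ℝ)
  split : LinSplit B κ κ'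
  t₀ : (Fin r → ℍ) → (Fin k → ℝ)
  cont : Continuous t₀
  dep : ∀ z z', (∀ i ∈ I₀, z i = z' i) → t₀ z = t₀ z'
  near : ∃ C : ℝ, ∀ p, ∀ i ∉ I₀, dist ((T p).1 i) (H i (p.1 i)) ≤ C
  tw : ∀ R : ℝ, ∃ C : ℝ, ∀ p : ANO.X r k, (∀ i ∉ I₀, dist (p.1 i) (w i) ≤ R) →
    ‖((T p).2 - t₀ (T p).1) - B (p.2 - t₀ p.1)‖ ≤ C
  cpt : ∀ R : ℝ, ∃ K : Set (ANO.X r k), IsCompact K ∧ ∀ p : ANO.X r k,
    (∀ i ∉ I₀, dist (p.1 i) (w i) ≤ R) → ‖p.2 - t₀ p.1‖ ≤ R → p ∈ sat Z K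

variable {Z : Type} [Group Z] [MulAction Z (ANO.X r k)] {T : ANO.X r k ≃ₜ ANO.X r k}
  {I₀ : Set (Fin r)} {κ κ' : ℕ}

/-- The configuration for `T`. -/
noncomputable def Cfg2.toCfg (D : Cfg2 Z T I₀ κ κ') : Cfg Z T I₀ κ κ' where
  H := fun i => D.H i
  w := D.w
  side := fun i => (D.pa i).toSide
  B := D.B
  split := D.split
  t₀ := D.t₀
  cont := D.cont
  dep := D.dep
  near := D.near
  tw := D.tw
  cpt := D.cpt

private theorem coarse_Cfg2 (D : Cfg2 Z T I₀ κ κ') (R : ℝ) : ∃ C : ℝ, ∀ i ∉ I₀, ∀ a b : ℍ,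
    dist a b ≤ R → dist ((D.H i).symm a) ((D.H i).symm b) ≤ C := by
  classical
  choose f hf using fun i : {i : Fin r // i ∉ I₀} => (D.pa i).coarse_symm R
  refine ⟨∑ i : {i : Fin r // i ∉ I₀}, |f i|, fun i hi a b hab => ?_⟩
  refine (hf ⟨i, hi⟩ a b hab).trans ((le_abs_self _).trans ?_)
  exact Finset.single_le_sum (f := fun j : {i : Fin r // i ∉ I₀} => |f j|)
    (fun j _ => abs_nonneg _) (Finset.mem_univ (⟨i, hi⟩ : {i : Fin r // i ∉ I₀}))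

private theorem near_Cfg2 (D : Cfg2 Z T I₀ κ κ') : ∃ C : ℝ, ∀ p, ∀ i ∉ I₀,
    dist ((T.symm p).1 i) ((D.H i).symm (p.1 i)) ≤ C := by
  obtain ⟨C, hC⟩ := D.near
  obtain ⟨C', hC'⟩ := coarse_Cfg2 D C
  refine ⟨C', fun p i hi => ?_⟩
  have h1 := hC (T.symm p) i hi
  rw [T.apply_symm_apply] at h1
  have h2 := hC' i hi _ _ h1
  rw [(D.H i).symm_apply_apply] at h2
  rw [dist_comm]
  exact h2

private theorem tw_Cfg2 (D : Cfg2 Z T I₀ κ κ') (R : ℝ) : ∃ C : ℝ, ∀ p : ANO.X r k,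
    (∀ i ∉ I₀, dist (p.1 i) (D.w i) ≤ R) →
    ‖((T.symm p).2 - D.t₀ (T.symm p).1) - D.B.symm (p.2 - D.t₀ p.1)‖ ≤ C := by
  obtain ⟨C₁, h₁⟩ := near_Cfg2 D
  obtain ⟨C₂, h₂⟩ := coarse_Cfg2 D R
  obtain ⟨C, hC⟩ := D.tw (C₁ + C₂)
  refine ⟨‖(D.B.symm : (Fin k → ℝ) →L[ℝ] (Fin k → ℝ))‖ * C, fun p hp => ?_⟩
  have h3 := hC (T.symm p) (fun i hi => by
    have h5 := h₂ i hi _ _ (hp i hi)
    have h6 : (D.H i).symm (D.w i) = D.w i := by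
      rw [(D.H i).symm_apply_eq]
      exact ((D.pa ⟨i, hi⟩).fixed).symm
    rw [h6] at h5
    exact (dist_triangle _ ((D.H i).symm (p.1 i)) _).trans (add_le_add (h₁ p i hi) h5))
  rw [T.apply_symm_apply] at h3
  have h4 : ((T.symm p).2 - D.t₀ (T.symm p).1) - D.B.symm (p.2 - D.t₀ p.1) =
      -D.B.symm ((p.2 - D.t₀ p.1) - D.B ((T.symm p).2 - D.t₀ (T.symm p).1)) := by
    rw [map_sub D.B.symm (p.2 - D.t₀ p.1) (D.B _), D.B.symm_apply_apply, neg_sub]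
  rw [h4, norm_neg]
  exact ((D.B.symm : (Fin k → ℝ) →L[ℝ] (Fin k → ℝ)).le_opNorm _).trans
    (mul_le_mul_of_nonneg_left h3 (norm_nonneg _))

theorem Cfg2.inverse (D : Cfg2 Z T I₀ κ κ') : Nonempty (Cfg Z T.symm I₀ κ' κ) := by
  obtain ⟨S⟩ := D.split.inverse
  exact ⟨{
    H := fun i => (D.H i).symm
    w := D.w
    side := fun i => (D.pa i).toSideSymm
    B := D.B.symm
    split := S
    t₀ := D.t₀
    cont := D.cont
    dep := D.dep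
    near := near_Cfg2 D
    tw := tw_Cfg2 D
    cpt := D.cpt }⟩

end Pool.Agent.ANO2.Dim
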