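import Mathlib

/-!
# The dimension argument: functionals which are multiplied by `L` (package DIM-SIG)

`exists_sigma`.  Put `e x = f (T x) - L * f x`, so `|e x| ≤ c` and `e` is continuous, and
`σ x = f x + ∑' n, (L⁻¹) ^ (n + 1) * e (T^[n] x)`.
* The terms are bounded by `(L⁻¹) ^ (n + 1) * c`, a summable geometric series with sum
  `c * L⁻¹ / (1 - L⁻¹) = c / (L - 1)`.  So `σ` is continuous (`continuous_tsum`) and
  `|σ x - f x| ≤ c / (L - 1)` (`tsum_of_norm_bounded`).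
* `σ (T x) = f (T x) + ∑' n, (L⁻¹) ^ (n + 1) * e (T^[n + 1] x)` and by `Summable.tsum_eq_zero_add`
  `L * σ x = L * f x + L * (L⁻¹ * e x + ∑' n, (L⁻¹) ^ (n + 2) * e (T^[n + 1] x))
  = L * f x + e x + ∑' n, (L⁻¹) ^ (n + 1) * e (T^[n + 1] x) = σ (T x)`.

`bounded_of_sigma`: if `σ x = 0` then `σ (T^[n] x) = 0` for all `n`, so
`|f (T^[n] x)| ≤ c / (L - 1)`.
-/

set_option autoImplicit false

open Set Filter Topology

namespace Pool.Agent.ANO2.Dim

variable {X : Type} [TopologicalSpace X]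

theorem exists_sigma {T : X → X} (hT : Continuous T) {f : X → ℝ} (hf : Continuous f) {L c : ℝ}
    (hL : 1 < L) (h : ∀ x, |f (T x) - L * f x| ≤ c) :
    ∃ σ : X → ℝ, Continuous σ ∧ (∀ x, |σ x - f x| ≤ c / (L - 1)) ∧
      ∀ x, σ (T x) = L * σ x := by
  have hL0 : (0 : ℝ) < L := by linarith
  have hL1 : (0 : ℝ) < L - 1 := by linarith
  have hr0 : 0 ≤ L⁻¹ := by positivity
  have hr1 : L⁻¹ < 1 := inv_lt_one_of_one_lt₀ hL
  have hu : HasSum (fun n : ℕ => L⁻¹ ^ (n + 1) * c) (c / (L - 1)) := by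
    have h1 := (hasSum_geometric_of_lt_one hr0 hr1).mul_right (L⁻¹ * c)
    have h2 : (1 - L⁻¹)⁻¹ * (L⁻¹ * c) = c / (L - 1) := by
      have h3 : (1 - L⁻¹) = (L - 1) / L := by
        field_simp
      rw [h3]
      field_simp
    rw [h2] at h1
    have h4 : (fun n : ℕ => L⁻¹ ^ (n + 1) * c) = fun n : ℕ => L⁻¹ ^ n * (L⁻¹ * c) := by
      funext n
      rw [pow_succ]
      ring
    rw [h4]
    exact h1
  have hb : ∀ (n : ℕ) (x : X),
      ‖L⁻¹ ^ (n + 1) * (f (T (T^[n] x)) - L * f (T^[n] x))‖ ≤ L⁻¹ ^ (n + 1) * c := by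
    intro n x
    rw [Real.norm_eq_abs, abs_mul, abs_of_nonneg (pow_nonneg hr0 _)]
    exact mul_le_mul_of_nonneg_left (h _) (pow_nonneg hr0 _)
  have hcont : Continuous fun x : X =>
      ∑' n : ℕ, L⁻¹ ^ (n + 1) * (f (T (T^[n] x)) - L * f (T^[n] x)) := by
    refine continuous_tsum (fun n => ?_) hu.summable hb
    have h1 : Continuous (T^[n]) := hT.iterate n
    exact continuous_const.mul ((hf.comp (hT.comp h1)).sub (continuous_const.mul (hf.comp h1)))
  have hsum : ∀ x : X, Summable fun n : ℕ =>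
      L⁻¹ ^ (n + 1) * (f (T (T^[n] x)) - L * f (T^[n] x)) :=
    fun x => Summable.of_norm_bounded hu.summable (fun n => hb n x)
  refine ⟨fun x => f x + ∑' n : ℕ, L⁻¹ ^ (n + 1) * (f (T (T^[n] x)) - L * f (T^[n] x)),
    hf.add hcont, fun x => ?_, fun x => ?_⟩
  · have h1 := tsum_of_norm_bounded hu (fun n => hb n x)
    rw [Real.norm_eq_abs] at h1
    have h2 : f x + ∑' n : ℕ, L⁻¹ ^ (n + 1) * (f (T (T^[n] x)) - L * f (T^[n] x)) - f x =
        ∑' n : ℕ, L⁻¹ ^ (n + 1) * (f (T (T^[n] x)) - L * f (T^[n] x)) := by ring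
    rw [h2]
    exact h1
  · have h1 := (hsum x).tsum_eq_zero_add
    have h2 : ∑' n : ℕ, L⁻¹ ^ (n + 1) * (f (T (T^[n] (T x))) - L * f (T^[n] (T x))) =
        L * ∑' n : ℕ, L⁻¹ ^ (n + 1 + 1) * (f (T (T^[n + 1] x)) - L * f (T^[n + 1] x)) := by
      rw [← tsum_mul_left]
      refine tsum_congr fun n => ?_
      rw [Function.iterate_succ_apply, pow_succ L⁻¹ (n + 1)]
      field_simp
    simp only [Function.iterate_zero, id_eq, zero_add, pow_one] at h1
    beta_reduce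
    rw [h2]
    have h3 : L * (L⁻¹ * (f (T x) - L * f x)) = f (T x) - L * f x := by
      rw [← mul_assoc, mul_inv_cancel₀ hL0.ne', one_mul]
    rw [h1]
    linear_combination (-1 : ℝ) * h3

theorem bounded_of_sigma {T : X → X} {f σ : X → ℝ} {L b : ℝ} (h1 : ∀ x, |σ x - f x| ≤ b)
    (h2 : ∀ x, σ (T x) = L * σ x) {x : X} (hx : σ x = 0) (n : ℕ) : |f (T^[n] x)| ≤ b := by
  have h3 : ∀ m : ℕ, σ (T^[m] x) = 0 := by
    intro m
    induction m with
    | zero => simpa using hx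
    | succ m ih => rw [Function.iterate_succ_apply', h2, ih, mul_zero]
  have h4 := h1 (T^[n] x)
  rw [h3 n, zero_sub, abs_neg] at h4
  exact h4

end Pool.Agent.ANO2.Dim
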