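import Pool.Agent.ANO2.Dim.Cfg
import Pool.Agent.ANO2.Dim.Sig

/-!
# Configurations: estimates (package DIM-CFGA)

* `f_cont`, `g_cont`, `h_cont`: continuity.
* `f_est`: `|s ((T x)_i) - L s (x_i)| = |s ((T x)_i) - s (H x_i)| ≤ du ((T x)_i) (H x_i) ≤ C_i` with
  `C` from `near` and `C_i` from `upper`; take the sum of the `|C_i|`, or the maximum.
* `g_est`: let `C` be from `tw R`.  `e (tt (T p)) - e (B (tt p)) = e (tt (T p) - B (tt p))` and
  `(e (B v)).1 = U (e v).1`, so `‖g (T p) - U (g p)‖ ≤ ‖e‖ C`, and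
  `U⁻¹ (g (T p)) - g p = U⁻¹ (g (T p) - U (g p))`.
* `h_est`: `‖h (T p) - W (h p)‖ ≤ ‖e‖ C` in the same way.
-/

set_option autoImplicit false

open Set Filter Topology
open Pool.Agent.ANO
open scoped UpperHalfPlane

namespace Pool.Agent.ANO2.Dim.Cfg

open Pool.Agent.ANO2.EqIdx

variable {r k : ℕ} {Z : Type} [Group Z] [MulAction Z (ANO.X r k)] {T : ANO.X r k ≃ₜ ANO.X r k}
  {I₀ : Set (Fin r)} {κ κ' : ℕ} (D : Cfg Z T I₀ κ κ')

theorem f_cont (i : {i : Fin r // i ∉ I₀}) : Continuous (D.f i) :=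
  (D.side i).cont.comp ((continuous_apply i.1).comp continuous_fst)

theorem g_cont : Continuous D.g :=
  continuous_fst.comp (D.split.e.continuous.comp
    (continuous_snd.sub (D.cont.comp continuous_fst)))

theorem f_est : ∃ c : ℝ, ∀ (i : {i : Fin r // i ∉ I₀}) (p : ANO.X r k),
    |D.f i (T p) - (D.side i).L * D.f i p| ≤ c := by
  classical
  obtain ⟨C, hC⟩ := D.near
  choose c hc using fun i : {i : Fin r // i ∉ I₀} => (D.side i).upper C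
  refine ⟨∑ i, |c i|, fun i p => ?_⟩
  have h1 := (hc i ((T p).1 i) (D.H i (p.1 i)) (hC p i i.2)).1
  have h2 := (D.side i).s_le ((T p).1 i) (D.H i (p.1 i))
  rw [(D.side i).s_H] at h2
  have h3 : |c i| ≤ ∑ j, |c j| :=
    Finset.single_le_sum (f := fun j => |c j|) (fun j _ => abs_nonneg _) (Finset.mem_univ i)
  exact h2.trans (h1.trans ((le_abs_self _).trans h3))

private theorem cfga_e_sub (p : ANO.X r k) :
    D.split.e (D.tt (T p) - D.B (D.tt p)) =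
      (D.g (T p) - D.split.U (D.g p), D.h (T p) - D.split.W (D.h p)) := by
  rw [map_sub, D.split.conj]
  rfl

private theorem cfga_est (R : ℝ) : ∃ c : ℝ, 0 ≤ c ∧ ∀ p : ANO.X r k,
    (∀ i ∉ I₀, dist (p.1 i) (D.w i) ≤ R) →
      ‖D.split.e (D.tt (T p) - D.B (D.tt p))‖ ≤ c := by
  obtain ⟨C, hC⟩ := D.tw R
  refine ⟨‖(D.split.e : (Fin k → ℝ) →L[ℝ] ((Fin κ → ℝ) × (Fin κ' → ℝ)))‖ * |C|,
    mul_nonneg (norm_nonneg _) (abs_nonneg _), fun p hp => ?_⟩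
  have h1 := (D.split.e : (Fin k → ℝ) →L[ℝ] ((Fin κ → ℝ) × (Fin κ' → ℝ))).le_opNorm
    (D.tt (T p) - D.B (D.tt p))
  refine h1.trans (mul_le_mul_of_nonneg_left ?_ (norm_nonneg _))
  exact (hC p hp).trans (le_abs_self _)

theorem g_est (R : ℝ) : ∃ c : ℝ, ∀ p : ANO.X r k, (∀ i ∉ I₀, dist (p.1 i) (D.w i) ≤ R) →
    ‖D.split.U.symm (D.g (T p)) - D.g p‖ ≤ c := by
  obtain ⟨C, hC0, hC⟩ := D.cfga_est R
  refine ⟨‖(D.split.U.symm : (Fin κ → ℝ) →L[ℝ] (Fin κ → ℝ))‖ * C, fun p hp => ?_⟩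
  have h1 := hC p hp
  rw [cfga_e_sub, Prod.norm_mk] at h1
  have h2 := (le_max_left _ _).trans h1
  have h3 : D.split.U.symm (D.g (T p)) - D.g p =
      (D.split.U.symm : (Fin κ → ℝ) →L[ℝ] (Fin κ → ℝ)) (D.g (T p) - D.split.U (D.g p)) := by
    rw [map_sub]
    simp
  rw [h3]
  exact ((D.split.U.symm : (Fin κ → ℝ) →L[ℝ] (Fin κ → ℝ)).le_opNorm _).trans
    (mul_le_mul_of_nonneg_left h2 (norm_nonneg _))

theorem h_est (R : ℝ) : ∃ c : ℝ, ∀ p : ANO.X r k, (∀ i ∉ I₀, dist (p.1 i) (D.w i) ≤ R) →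
    ‖D.h (T p) - D.split.W (D.h p)‖ ≤ c := by
  obtain ⟨C, hC0, hC⟩ := D.cfga_est R
  refine ⟨C, fun p hp => ?_⟩
  have h1 := hC p hp
  rw [cfga_e_sub, Prod.norm_mk] at h1
  exact (le_max_right _ _).trans h1

end Pool.Agent.ANO2.Dim.Cfg
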