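import Pool.Agent.ANO2.Dim.CfgO

/-!
# Configurations: the discs, and `Func` (package DIM-CFGB)

`exists_large`: the side function takes values `> R` and `< -R`: `s (H^[n] z) = L ^ n s z`.

`disc`.  Let `R₁` be given.  For `i ∉ I₀` let `a_i`, `b_i : ℍ` with `s a_i < -R₁`, `R₁ < s b_i`.
Base point: `z_i = (a_i + b_i) / 2` (in `ℂ`) for `i ∉ I₀`, `z_i = I` for `i ∈ I₀`, and
`t = t₀ (fun _ => I)`, which is `t₀ z` for all `z` with `z_i = I`, `i ∈ I₀` (`dep`).  For
`y ∈ cube` put `M y = ((y_i (b_i - a_i) / 2 for i ∉ I₀, 0 for i ∈ I₀), e⁻¹ ((|R₂| + 1) y_κ, 0))`; so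
`b + M y` has the coordinates `z_i = (1 - y_i) / 2 a_i + (1 + y_i) / 2 b_i` (in the convex set
`Im > 0`) for `i ∉ I₀`, and the twisted torus coordinate has the unstable part `(|R₂| + 1) y_κ`.
* `b + v + M y ∈ dom` for all small `v`: the set `b + M (cube)` is compact and `dom r k` is open
  (tube lemma, or `IsCompact.exists_thickening_subset_open`, `Metric.thickening`).
* `y_i = -1`: the coordinate `i` is `a_i + v_i`, and `s (a_i + v_i) < -R₁` for small `v`; the same
  for `b_i` (`s ∘ ofComplex` is continuous at `a_i`).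
* `y_j = -1`, `j : Fin κ`: `g` of the point has the coordinate `j` equal to
  `-(|R₂| + 1) + (e (t + v_t - t₀ (z of the point))).1 j`, and `t₀ (z of the point)` depends only on
  `v_i`, `i ∈ I₀` (`dep`); it tends to `t` as `v → 0`.  So it is `< - R₂` for small `v`, uniformly
  in `y`.
* The constant `c`: for small `v` and `y ∈ cube` the coordinates `i ∉ I₀` of the point are in a
  compact subset of `ℍ` which depends only on `a_i`, `b_i` (not on `R₂`), for instance all of them
  have `dist ≤ 1` from a point of the segment (compact), so their distance from `w_i` is at most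
  some `R₀`.  By `orbit_bound R₁ R₀` the orbit stays within `R'` of `w`, and `c` is the constant of
  `g_est R'` (use `T ^ (n+1) = T ∘ T ^ n`).
IMPORTANT: the order of the quantifiers: `c` is chosen before `R₂`.

`toFunc`: `Func (chartX r k) Z T {i // i ∉ I₀} (Fin κ)` with `f`, `g`, `B = U⁻¹`.
-/

set_option autoImplicit false

open Set Filter Topology
open Pool.Agent.ANO
open scoped UpperHalfPlane

namespace Pool.Agent.ANO2.Dim.Cfg

open Pool.Agent.ANO2.EqIdx

variable {r k : ℕ} {Z : Type} [Group Z] [MulAction Z (ANO.X r k)] {T : ANO.X r k ≃ₜ ANO.X r k}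
  {I₀ : Set (Fin r)} {κ κ' : ℕ} (D : Cfg Z T I₀ κ κ')

theorem exists_large (i : {i : Fin r // i ∉ I₀}) (R : ℝ) :
    (∃ z, (D.side i).s z < -R) ∧ ∃ z, R < (D.side i).s z := by
  have hit : ∀ (z : ℍ) (n : ℕ),
      (D.side i).s ((D.H i)^[n] z) = (D.side i).L ^ n * (D.side i).s z := by
    intro z n
    induction n with
    | zero => simp
    | succ n ih =>
      rw [Function.iterate_succ_apply', (D.side i).s_H, ih, pow_succ]
      ring
  constructor
  · obtain ⟨z, hz⟩ := (D.side i).neg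
    obtain ⟨n, hn⟩ := pow_unbounded_of_one_lt (R / (-(D.side i).s z)) (D.side i).one_lt
    refine ⟨_, (hit z n).trans_lt ?_⟩
    rw [div_lt_iff₀ (by linarith)] at hn
    linarith
  · obtain ⟨z, hz⟩ := (D.side i).pos
    obtain ⟨n, hn⟩ := pow_unbounded_of_one_lt (R / (D.side i).s z) (D.side i).one_lt
    refine ⟨_, lt_of_lt_of_eq ?_ (hit z n).symm⟩
    rwa [div_lt_iff₀ hz] at hn

private theorem ofComplex_continuousAt {z : ℂ} (hz : 0 < z.im) :
    ContinuousAt (UpperHalfPlane.ofComplex : ℂ → ℍ) z :=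
  (UpperHalfPlane.contMDiffAt_ofComplex (n := 0) hz).continuousAt

private theorem seg_bound (a b w : ℍ) : ∃ R₀ δ : ℝ, 0 < δ ∧
    ∀ (s : ℝ) (v : ℂ), |s| ≤ 1 → ‖v‖ ≤ δ →
      0 < (((a : ℂ) + b) / 2 + v + s * (((b : ℂ) - a) / 2)).im ∧
      dist (UpperHalfPlane.ofComplex (((a : ℂ) + b) / 2 + v + s * (((b : ℂ) - a) / 2))) w ≤
        R₀ := by
  have hm0 : 0 < min a.im b.im := lt_min a.im_pos b.im_pos
  have him : ∀ (s : ℝ) (v : ℂ), |s| ≤ 1 → ‖v‖ ≤ min a.im b.im / 2 →
      0 < (((a : ℂ) + b) / 2 + v + s * (((b : ℂ) - a) / 2)).im := by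
    intro s v hs hv
    have h1 : (((a : ℂ) + b) / 2 + v + s * (((b : ℂ) - a) / 2)).im =
        (1 - s) / 2 * a.im + (1 + s) / 2 * b.im + v.im := by
      simp
      ring
    have h2 := Complex.abs_im_le_norm v
    have h3 := abs_le.1 (h2.trans hv)
    have h4 := abs_le.1 hs
    have ha : min a.im b.im ≤ a.im := min_le_left _ _
    have hb : min a.im b.im ≤ b.im := min_le_right _ _
    rw [h1]
    nlinarith
  have hφ : Continuous (fun p : ℝ × ℂ =>
      ((a : ℂ) + b) / 2 + p.2 + (p.1 : ℂ) * (((b : ℂ) - a) / 2)) := by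
    fun_prop
  have hK : IsCompact (Icc (-1 : ℝ) 1 ×ˢ Metric.closedBall (0 : ℂ) (min a.im b.im / 2)) :=
    isCompact_Icc.prod (isCompact_closedBall _ _)
  have hc : ContinuousOn (fun p : ℝ × ℂ => dist (UpperHalfPlane.ofComplex
      (((a : ℂ) + b) / 2 + p.2 + (p.1 : ℂ) * (((b : ℂ) - a) / 2))) w)
      (Icc (-1 : ℝ) 1 ×ˢ Metric.closedBall (0 : ℂ) (min a.im b.im / 2)) := by
    rintro ⟨s, v⟩ ⟨hs, hv⟩
    have hpos := him s v (abs_le.2 hs) (by simpa using hv)
    have h1 : ContinuousAt (fun p : ℝ × ℂ => UpperHalfPlane.ofComplex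
        (((a : ℂ) + b) / 2 + p.2 + (p.1 : ℂ) * (((b : ℂ) - a) / 2))) (s, v) :=
      ContinuousAt.comp (f := fun p : ℝ × ℂ =>
        ((a : ℂ) + b) / 2 + p.2 + (p.1 : ℂ) * (((b : ℂ) - a) / 2))
        (ofComplex_continuousAt hpos) hφ.continuousAt
    have h2 : ContinuousAt (fun p : ℝ × ℂ => dist (UpperHalfPlane.ofComplex
        (((a : ℂ) + b) / 2 + p.2 + (p.1 : ℂ) * (((b : ℂ) - a) / 2))) w) (s, v) :=
      Filter.Tendsto.dist h1 tendsto_const_nhds
    exact h2.continuousWithinAt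
  obtain ⟨R₀, hR₀⟩ := hK.exists_bound_of_continuousOn hc
  refine ⟨R₀, min a.im b.im / 2, by linarith, fun s v hs hv => ⟨him s v hs hv, ?_⟩⟩
  have h := hR₀ (s, v) ⟨abs_le.1 hs, by simpa using hv⟩
  exact (Real.le_norm_self _).trans h

theorem disc (R₁ : ℝ) : ∃ c : ℝ, ∀ R₂ : ℝ,
    ∃ (M : ({i : Fin r // i ∉ I₀} ⊕ Fin κ → ℝ) →L[ℝ] ANO.E r k) (b : ANO.E r k),
      ∀ᶠ v in 𝓝 (0 : ANO.E r k), ∀ y ∈ cube ({i : Fin r // i ∉ I₀} ⊕ Fin κ),
        b + v + M y ∈ dom r k ∧
        (∀ i, (y (Sum.inl i) = -1 → D.f i (ofE (b + v + M y)) < -R₁) ∧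
          (y (Sum.inl i) = 1 → R₁ < D.f i (ofE (b + v + M y)))) ∧
        (∀ j, (y (Sum.inr j) = -1 → D.g (ofE (b + v + M y)) j < -R₂) ∧
          (y (Sum.inr j) = 1 → R₂ < D.g (ofE (b + v + M y)) j)) ∧
        ((∀ (i : {i : Fin r // i ∉ I₀}) (n : ℕ),
            |D.f i ((T ^ n) (ofE (b + v + M y)))| ≤ R₁) → ∀ n : ℕ,
          ‖D.split.U.symm (D.g ((T ^ (n + 1)) (ofE (b + v + M y)))) -
            D.g ((T ^ n) (ofE (b + v + M y)))‖ ≤ c) := by
  classical
  choose a ha using fun i => (D.exists_large i R₁).1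
  choose b hb using fun i => (D.exists_large i R₁).2
  choose R₀ δ hδ hseg using fun i : {i : Fin r // i ∉ I₀} => seg_bound (a i) (b i) (D.w i)
  obtain ⟨R', hR'⟩ : ∃ R', ∀ i, R₀ i ≤ R' := ⟨∑ i, |R₀ i|, fun i => (le_abs_self _).trans
    (Finset.single_le_sum (f := fun i => |R₀ i|) (fun _ _ => abs_nonneg _) (Finset.mem_univ i))⟩
  obtain ⟨Q, hQ⟩ := D.orbit_bound R₁ R'
  obtain ⟨c, hc⟩ := D.g_est Q
  refine ⟨c, fun R₂ => ?_⟩
  let M₀ : ({i : Fin r // i ∉ I₀} ⊕ Fin κ → ℝ) →ₗ[ℝ] ANO.E r k :=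
    { toFun := fun y => (fun i => if h : i ∉ I₀ then
          (y (Sum.inl ⟨i, h⟩) : ℂ) * (((b ⟨i, h⟩ : ℂ) - a ⟨i, h⟩) / 2) else 0,
          D.split.e.symm (fun j => (|R₂| + 1) * y (Sum.inr j), 0))
      map_add' := by
        intro y y'
        refine Prod.ext ?_ ?_
        · funext i
          by_cases h : i ∉ I₀
          · simp [h, add_mul]
          · simp [not_not.1 h]
        · simp only [Prod.snd_add]
          rw [← map_add]
          congr 1
          refine Prod.ext ?_ ?_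
          · funext j
            simp [mul_add]
          · simp
      map_smul' := by
        intro t y
        refine Prod.ext ?_ ?_
        · funext i
          by_cases h : i ∉ I₀
          · simp [h, mul_assoc]
          · simp [not_not.1 h]
        · simp only [Prod.smul_snd, RingHom.id_apply]
          rw [← map_smul]
          congr 1
          refine Prod.ext ?_ ?_
          · funext j
            simp [mul_left_comm]
          · simp }
  let b₀ : ANO.E r k := (fun i => if h : i ∉ I₀ then ((a ⟨i, h⟩ : ℂ) + b ⟨i, h⟩) / 2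
    else Complex.I, D.t₀ (fun _ => UpperHalfPlane.I))
  refine ⟨LinearMap.toContinuousLinearMap M₀, b₀, ?_⟩
  have hcoord : ∀ i : Fin r, ContinuousAt (fun v : ANO.E r k => v.1 i) 0 := fun i =>
    ((continuous_apply i).comp continuous_fst).continuousAt
  have e1 : ∀ᶠ v in 𝓝 (0 : ANO.E r k), ∀ i : {i : Fin r // i ∉ I₀}, ‖v.1 i‖ < δ i := by
    rw [eventually_all]
    intro i
    have h := (hcoord i).norm
    refine h.eventually_lt_const ?_
    simpa using hδ i
  have e2 : ∀ᶠ v in 𝓝 (0 : ANO.E r k), ∀ i : Fin r, ‖v.1 i‖ < 1 := by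
    rw [eventually_all]
    intro i
    have h := (hcoord i).norm
    refine h.eventually_lt_const ?_
    simp
  have hshift : ∀ (i : Fin r) (z : ℍ), ContinuousAt (fun v : ANO.E r k =>
      (UpperHalfPlane.ofComplex ((z : ℂ) + v.1 i) : ℍ)) 0 := by
    intro i z
    refine ContinuousAt.comp (f := fun v : ANO.E r k => (z : ℂ) + v.1 i)
      (ofComplex_continuousAt ?_) ?_
    · simpa using z.im_pos
    · exact continuousAt_const.add (hcoord i)
  have e3 : ∀ᶠ v in 𝓝 (0 : ANO.E r k), ∀ i : {i : Fin r // i ∉ I₀},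
      (D.side i).s (UpperHalfPlane.ofComplex ((a i : ℂ) + v.1 i)) < -R₁ := by
    rw [eventually_all]
    intro i
    have h : ContinuousAt (fun v : ANO.E r k =>
        (D.side i).s (UpperHalfPlane.ofComplex ((a i : ℂ) + v.1 i))) 0 :=
      (D.side i).cont.continuousAt.comp (hshift i (a i))
    refine h.eventually_lt_const ?_
    simpa using ha i
  have e4 : ∀ᶠ v in 𝓝 (0 : ANO.E r k), ∀ i : {i : Fin r // i ∉ I₀},
      R₁ < (D.side i).s (UpperHalfPlane.ofComplex ((b i : ℂ) + v.1 i)) := by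
    rw [eventually_all]
    intro i
    have h : ContinuousAt (fun v : ANO.E r k =>
        (D.side i).s (UpperHalfPlane.ofComplex ((b i : ℂ) + v.1 i))) 0 :=
      (D.side i).cont.continuousAt.comp (hshift i (b i))
    refine h.eventually_const_lt ?_
    simpa using hb i
  have e5 : ∀ᶠ v in 𝓝 (0 : ANO.E r k), ∀ j : Fin κ,
      |(D.split.e (D.t₀ (fun _ => UpperHalfPlane.I) + v.2 -
        D.t₀ (fun i => UpperHalfPlane.ofComplex ((UpperHalfPlane.I : ℂ) + v.1 i)))).1 j| < 1 := by
    rw [eventually_all]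
    intro j
    have h1 : ContinuousAt (fun v : ANO.E r k =>
        D.t₀ (fun i => UpperHalfPlane.ofComplex ((UpperHalfPlane.I : ℂ) + v.1 i))) 0 :=
      D.cont.continuousAt.comp (continuousAt_pi.2 fun i => hshift i UpperHalfPlane.I)
    have h2 : ContinuousAt (fun v : ANO.E r k => D.t₀ (fun _ => UpperHalfPlane.I) + v.2 -
        D.t₀ (fun i => UpperHalfPlane.ofComplex ((UpperHalfPlane.I : ℂ) + v.1 i))) 0 :=
      (continuousAt_const.add continuous_snd.continuousAt).sub h1
    have h3 : ContinuousAt (fun v : ANO.E r k => |(D.split.e (D.t₀ (fun _ => UpperHalfPlane.I) +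
        v.2 - D.t₀ (fun i => UpperHalfPlane.ofComplex
          ((UpperHalfPlane.I : ℂ) + v.1 i)))).1 j|) 0 :=
      ((continuous_abs.comp ((continuous_apply j).comp
        (continuous_fst.comp D.split.e.continuous))).continuousAt).comp h2
    refine h3.eventually_lt_const ?_
    have h4 : D.t₀ (fun i => UpperHalfPlane.ofComplex ((UpperHalfPlane.I : ℂ) +
        (0 : ANO.E r k).1 i)) = D.t₀ (fun _ => UpperHalfPlane.I) := by
      congr 1
      funext i
      rw [Prod.fst_zero, Pi.zero_apply, add_zero, UpperHalfPlane.ofComplex_apply]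
    beta_reduce
    rw [h4]
    simp
  filter_upwards [e1, e2, e3, e4, e5] with v h1 h2 h3 h4 h5 y hy
  have hy' : ∀ i, |y i| ≤ 1 := hy
  have hP1 : ∀ (i : Fin r) (h : i ∉ I₀), (b₀ + v + LinearMap.toContinuousLinearMap M₀ y).1 i =
      ((a ⟨i, h⟩ : ℂ) + b ⟨i, h⟩) / 2 + v.1 i +
        (y (Sum.inl ⟨i, h⟩) : ℂ) * (((b ⟨i, h⟩ : ℂ) - a ⟨i, h⟩) / 2) := by
    intro i h
    simp [b₀, M₀, h]
  have hP2 : ∀ (i : Fin r) (_ : i ∈ I₀), (b₀ + v + LinearMap.toContinuousLinearMap M₀ y).1 i =
      (UpperHalfPlane.I : ℂ) + v.1 i := by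
    intro i h
    simp [b₀, M₀, h]
  have hP3 : (b₀ + v + LinearMap.toContinuousLinearMap M₀ y).2 =
      D.t₀ (fun _ => UpperHalfPlane.I) + v.2 +
        D.split.e.symm (fun j => (|R₂| + 1) * y (Sum.inr j), 0) := by
    simp [b₀, M₀]
  generalize hP : b₀ + v + LinearMap.toContinuousLinearMap M₀ y = P at hP1 hP2 hP3 ⊢
  have hg : ∀ j, D.g (ofE P) j = (D.split.e (D.t₀ (fun _ => UpperHalfPlane.I) + v.2 -
      D.t₀ (fun i => UpperHalfPlane.ofComplex ((UpperHalfPlane.I : ℂ) + v.1 i)))).1 j +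
        (|R₂| + 1) * y (Sum.inr j) := by
    intro j
    have ht : D.t₀ (ofE P).1 =
        D.t₀ (fun i => UpperHalfPlane.ofComplex ((UpperHalfPlane.I : ℂ) + v.1 i)) := by
      refine D.dep _ _ fun i hi => ?_
      change UpperHalfPlane.ofComplex (P.1 i) = _
      rw [hP2 i hi]
    have : D.tt (ofE P) = (D.t₀ (fun _ => UpperHalfPlane.I) + v.2 -
        D.t₀ (fun i => UpperHalfPlane.ofComplex ((UpperHalfPlane.I : ℂ) + v.1 i))) +
        D.split.e.symm (fun j => (|R₂| + 1) * y (Sum.inr j), 0) := by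
      change P.2 - D.t₀ (ofE P).1 = _
      rw [ht, hP3]
      abel
    change (D.split.e (D.tt (ofE P))).1 j = _
    rw [this, map_add, ContinuousLinearEquiv.apply_symm_apply]
    simp
  refine ⟨?_, ?_, ?_, ?_⟩
  · intro i
    by_cases h : i ∈ I₀
    · rw [hP2 i h]
      have h6 := abs_le.1 ((Complex.abs_im_le_norm (v.1 i)).trans (h2 i).le)
      have h7 := h2 i
      have h8 : (-1 : ℝ) < (v.1 i).im := by
        have := (Complex.abs_im_le_norm (v.1 i)).trans_lt (h2 i)
        exact (abs_lt.1 this).1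
      simp
      linarith
    · rw [hP1 i h]
      exact (hseg ⟨i, h⟩ _ _ (hy' _) (h1 ⟨i, h⟩).le).1
  · intro i
    have hfi : D.f i (ofE P) = (D.side i).s (UpperHalfPlane.ofComplex (P.1 i)) := rfl
    constructor
    · intro hyi
      have : P.1 i = (a i : ℂ) + v.1 i := by
        rw [hP1 i i.2]
        simp only [Subtype.coe_eta, hyi]
        push_cast
        ring
      rw [hfi, this]
      exact h3 i
    · intro hyi
      have : P.1 i = (b i : ℂ) + v.1 i := by
        rw [hP1 i i.2]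
        simp only [Subtype.coe_eta, hyi]
        push_cast
        ring
      rw [hfi, this]
      exact h4 i
  · intro j
    have h6 := abs_lt.1 (h5 j)
    have h7 := le_abs_self R₂
    constructor
    · intro hyj
      rw [hg j, hyj]
      linarith
    · intro hyj
      rw [hg j, hyj]
      linarith
  · intro H n
    have hd : ∀ i ∉ I₀, dist ((ofE P).1 i) (D.w i) ≤ R' := by
      intro i hi
      change dist (UpperHalfPlane.ofComplex (P.1 i)) (D.w i) ≤ R'
      rw [hP1 i hi]
      exact ((hseg ⟨i, hi⟩ _ _ (hy' _) (h1 ⟨i, hi⟩).le).2).trans (hR' _)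
    have h6 := hQ (ofE P) hd H
    have h7 := hc ((T ^ n) (ofE P)) fun i hi => h6 i hi n
    have h8 : (T ^ (n + 1)) (ofE P) = T ((T ^ n) (ofE P)) := by
      rw [pow_succ']
      rfl
    rw [h8]
    exact h7

include D in
open Classical in
/-- The data for the dimension argument. -/
theorem toFunc : Nonempty (Func (chartX r k) Z T {i : Fin r // i ∉ I₀} (Fin κ)) := by
  obtain ⟨c, hc⟩ := D.f_est
  exact ⟨{
    f := D.f
    cont_f := D.f_cont
    L := fun i => (D.side i).L
    one_lt := fun i => (D.side i).one_lt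
    c := c
    est := hc
    g := D.g
    cont_g := D.g_cont
    B := D.split.U.symm
    inj := D.split.U.symm.injective
    a := D.split.a
    θ := D.split.θ
    θ_nonneg := D.split.θ_nonneg
    θ_lt := D.split.θ_lt
    pow_le := D.split.U_pow
    pre := D.mem_Wb
    disc := by
      simp only [chartX_ofE, chartX_dom]
      exact D.disc }⟩

end Pool.Agent.ANO2.Dim.Cfg
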