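import Pool.Agent.ANO2.Dim.CfgA

/-!
# Configurations: bounded orbits (package DIM-CFGO)

* `orbit_bound`: let `x_n = ((T ^ n) x).1 i`, `i ∉ I₀`.  If `|s x_n| ≤ R` for all `n` then
  `du x_n w ≤ R` (`s_eq`).  With `C` from `near`, `C'` from `upper C`:
  `ds x_(n+1) w ≤ ds x_(n+1) (H x_n) + ds (H x_n) (H w) ≤ C' + L⁻¹ ds x_n w`, so
  `ds x_n w ≤ ds x_0 w + |C'| L / (L - 1)` for all `n` (induction: if `a ≤ a₀ + q` with
  `q = |C'| L / (L - 1)` then `C' + L⁻¹ (a₀ + q) ≤ a₀ + q`, as `a₀ ≥ 0`).  If `dist x_0 w ≤ R₀` then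
  `ds x_0 w ≤ C''` (`upper R₀`).  So `proper` (with the maximum of the two bounds) bounds
  `dist x_n w`; take the maximum over the finitely many `i`.
* `contract`: if `‖y (n+1) - W (y n)‖ ≤ c` for all `n` and `‖W ^ n‖ ≤ a θ ^ n`, `θ < 1`, then
  `y` is bounded: `y n = (W ^ n) (y 0) + ∑ j ∈ range n, (W ^ (n - 1 - j)) (y (j+1) - W (y j))`.
* `mem_Wb`: let `|f i ((T ^ n) x)| ≤ R` and `‖g ((T ^ n) x)‖ ≤ R` for all `n`.  By `orbit_bound`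
  (`R₀` the maximum of the `dist (x.1 i) (w i)`) all the `dist (((T ^ n) x).1 i) (w i)` are bounded
  by some `R'`; by `h_est`, `contract`, `h ((T ^ n) x)` is bounded; so
  `tt ((T ^ n) x) = e⁻¹ (g .., h ..)` is bounded, and `cpt` gives `x ∈ Wb Z T`.
-/

set_option autoImplicit false

open Set Filter Topology
open Pool.Agent.ANO
open scoped UpperHalfPlane

namespace Pool.Agent.ANO2.Dim.Cfg

open Pool.Agent.ANO2.EqIdx

variable {r k : ℕ} {Z : Type} [Group Z] [MulAction Z (ANO.X r k)] {T : ANO.X r k ≃ₜ ANO.X r k}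
  {I₀ : Set (Fin r)} {κ κ' : ℕ} (D : Cfg Z T I₀ κ κ')

private theorem cfgo_succ (n : ℕ) (x : ANO.X r k) : (T ^ (n + 1)) x = T ((T ^ n) x) := by
  rw [pow_succ']
  rfl

private theorem cfgo_one (R R₀ : ℝ) (i : {i : Fin r // i ∉ I₀}) : ∃ R' : ℝ, ∀ x : ANO.X r k,
    dist (x.1 i) (D.w i) ≤ R₀ → (∀ n : ℕ, |D.f i ((T ^ n) x)| ≤ R) →
      ∀ n : ℕ, dist (((T ^ n) x).1 i) (D.w i) ≤ R' := by
  obtain ⟨S, hS⟩ : ∃ S : Side (D.H i) (D.w i), S = D.side i := ⟨_, rfl⟩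
  obtain ⟨C, hC⟩ := D.near
  obtain ⟨C', hC'⟩ := S.upper C
  obtain ⟨C'', hC''⟩ := S.upper R₀
  have hL := S.one_lt
  have hL0 : 0 < S.L := one_pos.trans hL
  have hL1 : 0 < S.L - 1 := sub_pos.2 hL
  obtain ⟨q, hq⟩ : ∃ q : ℝ, q = |C'| * S.L / (S.L - 1) := ⟨_, rfl⟩
  have hq0 : 0 ≤ q := by
    rw [hq]
    exact div_nonneg (mul_nonneg (abs_nonneg _) hL0.le) hL1.le
  have hqe : |C'| + S.L⁻¹ * q = q := by
    rw [hq]
    field_simp
    ring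
  obtain ⟨C₃, hC₃⟩ := S.proper (max R (|C''| + q))
  refine ⟨C₃, fun x hx hf n => hC₃ _ _ ?_ ?_⟩
  · refine le_trans ?_ (le_max_left _ _)
    rw [← S.s_eq]
    have h1 := hf n
    rw [Cfg.f, ← hS] at h1
    exact h1
  · refine le_trans ?_ (le_max_right _ _)
    induction n with
    | zero =>
      have h1 := (hC'' _ _ hx).2
      have h2 := le_abs_self C''
      change S.ds (x.1 i) (D.w i) ≤ _
      linarith
    | succ n ih =>
      rw [cfgo_succ]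
      have h1 := S.ds_triangle ((T ((T ^ n) x)).1 i) (D.H i (((T ^ n) x).1 i)) (D.w i)
      have h2 := (hC' _ _ (hC ((T ^ n) x) i i.2)).2
      have h3 := S.ds_H (((T ^ n) x).1 i) (D.w i)
      rw [S.fixed] at h3
      have h4 : S.ds (D.H i (((T ^ n) x).1 i)) (D.w i) =
          S.L⁻¹ * S.ds (((T ^ n) x).1 i) (D.w i) := by
        rw [← h3]
        field_simp
      have h5 : S.L⁻¹ * S.ds (((T ^ n) x).1 i) (D.w i) ≤ S.L⁻¹ * (|C''| + q) :=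
        mul_le_mul_of_nonneg_left ih (inv_nonneg.2 hL0.le)
      have h6 : S.L⁻¹ * |C''| ≤ |C''| :=
        mul_le_of_le_one_left (abs_nonneg _) (inv_le_one_of_one_le₀ hL.le)
      have h7 := le_abs_self C'
      rw [mul_add] at h5
      linarith

theorem orbit_bound (R R₀ : ℝ) : ∃ R' : ℝ, ∀ x : ANO.X r k,
    (∀ i ∉ I₀, dist (x.1 i) (D.w i) ≤ R₀) →
      (∀ (i : {i : Fin r // i ∉ I₀}) (n : ℕ), |D.f i ((T ^ n) x)| ≤ R) →
        ∀ i ∉ I₀, ∀ n : ℕ, dist (((T ^ n) x).1 i) (D.w i) ≤ R' := by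
  choose R' hR' using fun i => cfgo_one D R R₀ i
  obtain ⟨M, hM⟩ := (Set.finite_range R').bddAbove
  refine ⟨M, fun x hx hf i hi n => ?_⟩
  exact (hR' ⟨i, hi⟩ x (hx i hi) (hf ⟨i, hi⟩) n).trans (hM ⟨_, rfl⟩)

private theorem cfgo_contract {V : Type} [NormedAddCommGroup V] [NormedSpace ℝ V]
    (W : V →L[ℝ] V) {a θ c : ℝ} (hW : ∀ n : ℕ, ‖W ^ n‖ ≤ a * θ ^ n) {y : ℕ → V}
    (hc : ∀ n, ‖y (n + 1) - W (y n)‖ ≤ c) (n : ℕ) : ∀ m : ℕ,
      ‖(W ^ m) (y n)‖ ≤ a * θ ^ (m + n) * ‖y 0‖ + ∑ j ∈ Finset.range n, a * θ ^ (m + j) * c := by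
  induction n with
  | zero =>
    intro m
    rw [Finset.range_zero, Finset.sum_empty, add_zero, add_zero]
    exact ((W ^ m).le_opNorm _).trans (mul_le_mul_of_nonneg_right (hW m) (norm_nonneg _))
  | succ n ih =>
    intro m
    have h1 : (W ^ m) (y (n + 1)) = (W ^ (m + 1)) (y n) + (W ^ m) (y (n + 1) - W (y n)) := by
      rw [map_sub, pow_succ, mul_apply_eq_comp]
      abel
    rw [h1]
    refine (norm_add_le _ _).trans ?_
    have h2 := ih (m + 1)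
    have h3 : ‖(W ^ m) (y (n + 1) - W (y n))‖ ≤ a * θ ^ m * c :=
      ((W ^ m).le_opNorm _).trans (mul_le_mul (hW m) (hc n) (norm_nonneg _)
        ((norm_nonneg _).trans (hW m)))
    rw [Finset.sum_range_succ']
    have h4 : ∀ j, m + 1 + j = m + (j + 1) := fun j => by ring
    simp only [h4] at h2
    rw [add_zero]
    linarith

theorem contract {V : Type} [NormedAddCommGroup V] [NormedSpace ℝ V] (W : V →L[ℝ] V)
    {a θ c : ℝ} (hθ : 0 ≤ θ) (hθ1 : θ < 1) (hW : ∀ n : ℕ, ‖W ^ n‖ ≤ a * θ ^ n) {y : ℕ → V}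
    (hy : ∀ n, ‖y (n + 1) - W (y n)‖ ≤ c) : ∃ R : ℝ, ∀ n, ‖y n‖ ≤ R := by
  have ha : 0 ≤ a := by
    have h1 := (norm_nonneg _).trans (hW 0)
    rwa [pow_zero, mul_one] at h1
  have hc : 0 ≤ c := (norm_nonneg _).trans (hy 0)
  refine ⟨a * ‖y 0‖ + a * (1 - θ)⁻¹ * c, fun n => ?_⟩
  have h1 := cfgo_contract W hW hy n 0
  rw [pow_zero] at h1
  simp only [zero_add] at h1
  refine h1.trans (add_le_add ?_ ?_)
  · refine mul_le_mul_of_nonneg_right ?_ (norm_nonneg _)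
    exact mul_le_of_le_one_right ha (pow_le_one₀ hθ hθ1.le)
  · rw [← Finset.sum_mul, ← Finset.mul_sum]
    refine mul_le_mul_of_nonneg_right (mul_le_mul_of_nonneg_left ?_ ha) hc
    rw [← tsum_geometric_of_lt_one hθ hθ1]
    exact (summable_geometric_of_lt_one hθ hθ1).sum_le_tsum _ fun j _ => pow_nonneg hθ j

theorem mem_Wb (x : ANO.X r k) (R : ℝ)
    (hf : ∀ (i : {i : Fin r // i ∉ I₀}) (n : ℕ), |D.f i ((T ^ n) x)| ≤ R)
    (hg : ∀ n : ℕ, ‖D.g ((T ^ n) x)‖ ≤ R) : x ∈ Wb Z T := by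
  obtain ⟨R₀, hR₀⟩ := (Set.finite_range fun i => dist (x.1 i) (D.w i)).bddAbove
  obtain ⟨R', hR'⟩ := D.orbit_bound R R₀
  have h1 := hR' x (fun i _ => hR₀ ⟨i, rfl⟩) hf
  obtain ⟨c, hc⟩ := D.h_est R'
  obtain ⟨R₂, hR₂⟩ := contract (D.split.W : (Fin κ' → ℝ) →L[ℝ] (Fin κ' → ℝ))
    D.split.θ_nonneg D.split.θ_lt D.split.W_pow (y := fun n => D.h ((T ^ n) x)) (c := c)
    (fun n => by
      have h2 := hc ((T ^ n) x) fun i hi => h1 i hi n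
      rw [← cfgo_succ] at h2
      exact h2)
  obtain ⟨R₃, hR₃⟩ : ∃ R₃ : ℝ, ∀ n : ℕ, ‖D.tt ((T ^ n) x)‖ ≤ R₃ := by
    refine ⟨‖(D.split.e.symm : ((Fin κ → ℝ) × (Fin κ' → ℝ)) →L[ℝ] (Fin k → ℝ))‖ * max R R₂,
      fun n => ?_⟩
    have h2 : D.tt ((T ^ n) x) = D.split.e.symm (D.g ((T ^ n) x), D.h ((T ^ n) x)) := by
      rw [Cfg.g, Cfg.h, Prod.mk.eta, ContinuousLinearEquiv.symm_apply_apply]
    rw [h2]
    refine ((D.split.e.symm : ((Fin κ → ℝ) × (Fin κ' → ℝ)) →L[ℝ] (Fin k → ℝ)).le_opNorm _).trans ?_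
    refine mul_le_mul_of_nonneg_left ?_ (norm_nonneg _)
    exact max_le_max (hg n) (hR₂ n)
  obtain ⟨K, hK, hK'⟩ := D.cpt (max R' R₃)
  exact ⟨K, hK, fun n => hK' _ (fun i hi => (h1 i hi n).trans (le_max_left _ _))
    ((hR₃ n).trans (le_max_right _ _))⟩

end Pool.Agent.ANO2.Dim.Cfg
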