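import Pool.Agent.ANO2.Dim.Defs

/-!
# The dimension argument: the closing lemma (package DIM-CLOSE)

`closing`.  Let `T` be expansive with the shadowing property, and let `Z` act by isometries which
commute with `T`.  For every `ε > 0` there is `δ > 0` such that: if `n > 0` and
`dist (z • (T ^ n) x) x ≤ δ` then there is `c` with `z • (T ^ n) c = c` and `dist c x ≤ ε`.

PROOF.  Let `e > 0` be the constant of `Expansive T`, `ε' = min ε (e / 2)` and `δ` the constant of
`Shadowing T` for `ε'`.  Given `z`, `n > 0`, `x` put, for `i : ℤ`,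
`x_i = z ^ (-(i / n)) • (T ^ (i % n)) x` (zpow in `Z` and in `X ≃ₜ X`; `Int.emod`, `Int.ediv`).
* `dist (T x_i) x_(i+1) ≤ δ`: let `i = n q + r`, `0 ≤ r < n`.  If `r + 1 < n` then
  `(i + 1) / n = q`, `(i + 1) % n = r + 1` and `T x_i = x_(i+1)`.  If `r = n - 1` then
  `(i + 1) / n = q + 1`, `(i + 1) % n = 0`, `T x_i = z ^ (-q) • (T ^ n) x`,
  `x_(i+1) = z ^ (-q-1) • x`, and the distance is `dist (z • (T ^ n) x) x` (apply the isometry
  `z ^ (q + 1)`).
* `x_(i+n) = z⁻¹ • x_i`.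
Let `c` with `dist ((T ^ i) c) x_i ≤ ε'` for all `i : ℤ`, and `c' = z • (T ^ n) c`.  Then
`(T ^ i) c' = z • (T ^ (i + n)) c`, `dist ((T ^ i) c') x_i = dist ((T ^ (i+n)) c) (z⁻¹ • x_i) =
dist ((T ^ (i+n)) c) x_(i+n) ≤ ε'`.  So `dist ((T ^ i) c') ((T ^ i) c) ≤ 2 ε' ≤ e` for all `i`, and
`c' = c`.  `x_0 = x`.

`smul_zpow`: `(T ^ i) (z • x) = z • (T ^ i) x` for `i : ℤ` (induction, `Int.induction_on`; for
negative `i` use `T.symm (z • x) = z • T.symm x`).
-/

set_option autoImplicit false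

open Set Filter Topology
open Pool.Agent.ANO2.EqIdx Pool.Agent.ANO.Dyn

namespace Pool.Agent.ANO2.Dim

variable {X : Type} [MetricSpace X] {Z : Type} [Group Z] [MulAction Z X] {T : X ≃ₜ X}

private theorem close_npow (hc : ∀ (z : Z) (x : X), T (z • x) = z • T x) (z : Z) (n : ℕ)
    (x : X) : (T ^ n) (z • x) = z • (T ^ n) x := by
  induction n generalizing x with
  | zero => rfl
  | succ n ih =>
    rw [pow_succ]
    show (T ^ n) (T (z • x)) = z • (T ^ n) (T x)
    rw [hc, ih]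

theorem smul_zpow (hc : ∀ (z : Z) (x : X), T (z • x) = z • T x) (z : Z) (i : ℤ) (x : X) :
    (T ^ i) (z • x) = z • (T ^ i) x := by
  cases i with
  | ofNat n =>
    have h1 : T ^ (Int.ofNat n) = T ^ n := zpow_natCast T n
    rw [h1]
    exact close_npow hc z n x
  | negSucc n =>
    rw [zpow_negSucc]
    apply (T ^ (n + 1)).injective
    rw [close_npow hc]
    have h1 : ∀ y : X, (T ^ (n + 1)) ((T ^ (n + 1))⁻¹ y) = y := fun y =>
      (T ^ (n + 1)).apply_symm_apply y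
    rw [h1, h1]

theorem smul_npow (hc : ∀ (z : Z) (x : X), T (z • x) = z • T x) (z : Z) (n : ℕ) (x : X) :
    (T ^ n) (z • x) = z • (T ^ n) x :=
  close_npow hc z n x

theorem closing (hi : ∀ (z : Z) (x y : X), dist (z • x) (z • y) = dist x y)
    (hc : ∀ (z : Z) (x : X), T (z • x) = z • T x) (he : Expansive T) (hs : Shadowing T) {ε : ℝ}
    (hε : 0 < ε) : ∃ δ > 0, ∀ (z : Z) (n : ℕ) (x : X), 0 < n → dist (z • (T ^ n) x) x ≤ δ →
      ∃ c, z • (T ^ n) c = c ∧ dist c x ≤ ε := by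
  obtain ⟨e, he0, he⟩ := he
  obtain ⟨δ, hδ, hs⟩ := hs (min ε (e / 2)) (lt_min hε (by linarith))
  refine ⟨δ, hδ, fun z n x hn hx => ?_⟩
  have hn' : (0 : ℤ) < n := by exact_mod_cast hn
  obtain ⟨xs, hxs⟩ : ∃ xs : ℤ → X, ∀ i, xs i = z ^ (-(i / (n : ℤ))) • (T ^ (i % (n : ℤ))) x :=
    ⟨_, fun _ => rfl⟩
  have key : ∀ q r : ℤ, 0 ≤ r → r < n → xs (r + n * q) = z ^ (-q) • (T ^ r) x := by
    intro q r h0 h1
    obtain ⟨h2, h3⟩ := (Int.ediv_emod_unique (a := r + n * q) (q := q) (r := r) hn').mpr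
      ⟨rfl, h0, h1⟩
    rw [hxs, h2, h3]
  have hrep : ∀ i : ℤ, ∃ q r : ℤ, 0 ≤ r ∧ r < n ∧ i = r + n * q := fun i =>
    ⟨i / n, i % n, Int.emod_nonneg _ hn'.ne', Int.emod_lt_of_pos _ hn',
      (Int.emod_add_mul_ediv i n).symm⟩
  have step : ∀ i, dist (T (xs i)) (xs (i + 1)) ≤ δ := by
    intro i
    obtain ⟨q, r, h0, h1, rfl⟩ := hrep i
    rw [key q r h0 h1, hc]
    have h2 : T ((T ^ r) x) = (T ^ (r + 1)) x := by
      rw [add_comm, zpow_one_add]
      rfl
    rw [h2]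
    rcases lt_or_ge (r + 1) (n : ℤ) with h3 | h3
    · have h4 : r + n * q + 1 = (r + 1) + n * q := by ring
      rw [h4, key q (r + 1) (by linarith) h3, dist_self]
      exact hδ.le
    · have h4 : r + 1 = n := le_antisymm (by omega) h3
      have h5 : r + n * q + 1 = 0 + n * (q + 1) := by
        rw [← h4]
        ring
      rw [h5, key (q + 1) 0 le_rfl hn', h4, zpow_natCast, zpow_zero]
      have h6 : z ^ (-q) • (T ^ n) x = z ^ (-(q + 1)) • (z • (T ^ n) x) := by
        rw [smul_smul, ← zpow_add_one]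
        congr 2
        ring
      rw [h6, hi]
      exact hx
  have per : ∀ i, xs (i + n) = z⁻¹ • xs i := by
    intro i
    obtain ⟨q, r, h0, h1, rfl⟩ := hrep i
    have h2 : r + n * q + n = r + n * (q + 1) := by ring
    rw [h2, key (q + 1) r h0 h1, key q r h0 h1, smul_smul, ← zpow_neg_one, ← zpow_add]
    congr 2
    ring
  obtain ⟨c, hc'⟩ := hs xs step
  have h7 : ∀ j : ℤ, (T ^ j) (z • (T ^ n) c) = z • (T ^ (j + n)) c := by
    intro j
    rw [smul_zpow hc, zpow_add, zpow_natCast]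
    rfl
  refine ⟨c, he _ _ fun j => ?_, ?_⟩
  · rw [h7]
    have h8 : dist (z • (T ^ (j + n)) c) (xs j) ≤ e / 2 := by
      have h9 : xs j = z • (z⁻¹ • xs j) := (smul_inv_smul z (xs j)).symm
      rw [h9, hi, ← per]
      exact (hc' (j + n)).trans (min_le_right _ _)
    have h10 := (hc' j).trans (min_le_right _ _)
    calc dist (z • (T ^ (j + n)) c) ((T ^ j) c)
        ≤ dist (z • (T ^ (j + n)) c) (xs j) + dist ((T ^ j) c) (xs j) :=
          dist_triangle_right _ _ _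
      _ ≤ e / 2 + e / 2 := add_le_add h8 h10
      _ = e := by ring
  · have h8 := (hc' 0).trans (min_le_left _ _)
    have h9 : xs 0 = x := by
      have h10 := key 0 0 le_rfl hn'
      rw [mul_zero, add_zero, neg_zero, zpow_zero, zpow_zero, one_smul] at h10
      exact h10
    rw [h9] at h8
    exact h8

end Pool.Agent.ANO2.Dim
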