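import Pool.Agent.ANO2.Dim.Twist

/-!
# Cocompactness of `Z` (package DIM-COCPT)

Proofs: see the head of `Twist.lean` (`cocpt`, `exists_compact`).
-/

set_option autoImplicit false

open Set Filter Topology
open Pool.Agent.ANO
open scoped UpperHalfPlane MatrixGroups

namespace Pool.Agent.ANO2.Dim

open Pool.Agent.ANO2.EqIdx

variable {r k : ℕ} {S : Fin r → ClosedSurface} {I₀ : Set (Fin r)} {T₀ : ANO.X r k → ANO.X r k}

theorem NF.cocpt (N : NF S I₀ T₀) : ∃ K : Set ℍ, IsCompact K ∧ ∀ p : ANO.X r k,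
    ∃ g : Zgrp S I₀ T₀, ∀ i ∈ I₀, (g • p).1 i ∈ K := by
  classical
  choose! c hc using N.twist
  choose K' hK' hcov using fun i => (S i).cocompact
  obtain ⟨d, hd⟩ : ∃ d : ℤ, d = (1 - N.A').det := ⟨_, rfl⟩
  have hd0 : d ≠ 0 := by
    intro h0
    have h1 : ((1 - N.A').map (Int.cast : ℤ → ℝ)).det = 0 := by
      have h2 := Int.cast_det (R := ℝ) (1 - N.A')
      rw [← h2, ← hd, h0, Int.cast_zero]
    obtain ⟨v, hv, hv0⟩ := Matrix.exists_mulVec_eq_zero_iff.2 h1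
    apply hv
    apply N.hyp
    rw [N.B_eq]
    have h3 : (1 - N.A').map (Int.cast : ℤ → ℝ) = 1 - N.A'.map (Int.cast : ℤ → ℝ) := by
      ext i j
      by_cases hij : i = j
      · subst hij
        simp
      · simp [hij]
    rw [h3, Matrix.sub_mulVec, Matrix.one_mulVec, sub_eq_zero] at hv0
    exact hv0.symm
  have : NeZero d.natAbs := ⟨Int.natAbs_ne_zero.2 hd0⟩
  have hch : ∀ x : Fin k → ZMod d.natAbs,
      (∃ φ : Fin r → SL(2, ℝ), (∀ i, φ i ∈ (S i).Γ) ∧ (∀ i ∉ I₀, φ i = 1) ∧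
        (fun j => ((c φ j : ℤ) : ZMod d.natAbs)) = x) →
      ∃ φ : Fin r → SL(2, ℝ), (∀ i, φ i ∈ (S i).Γ) ∧ (∀ i ∉ I₀, φ i = 1) ∧
        (fun j => ((c φ j : ℤ) : ZMod d.natAbs)) = x := fun x hx => hx
  choose! φ hφ using hch
  refine ⟨⋃ x : Fin k → ZMod d.natAbs, ⋃ i : Fin r, (fun z : ℍ => (φ x i)⁻¹ • z) '' (K' i),
    isCompact_iUnion fun x => isCompact_iUnion fun i =>
      (hK' i).image (continuous_const_smul _), fun p => ?_⟩
  choose γ0 hγ0 hγ0K using fun i => hcov i (p.1 i)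
  obtain ⟨γ, hγ⟩ : ∃ γ : Fin r → SL(2, ℝ), γ = fun i => if i ∈ I₀ then γ0 i else 1 := ⟨_, rfl⟩
  have hγΓ : ∀ i, γ i ∈ (S i).Γ := by
    intro i
    rw [hγ]
    by_cases hi : i ∈ I₀
    · simpa [hi] using hγ0 i
    · simp [hi]
  have hγ1 : ∀ i ∉ I₀, γ i = 1 := by
    intro i hi
    rw [hγ]
    simp [hi]
  obtain ⟨x, hx⟩ : ∃ x : Fin k → ZMod d.natAbs,
    x = fun j => ((c γ j : ℤ) : ZMod d.natAbs) := ⟨_, rfl⟩
  obtain ⟨h1, h2, h3⟩ := hφ x ⟨γ, hγΓ, hγ1, hx.symm⟩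
  have h4 : ∀ j, d ∣ c γ j - c (φ x) j := by
    intro j
    have h5 : ((c γ j : ℤ) : ZMod d.natAbs) = ((c (φ x) j : ℤ) : ZMod d.natAbs) := by
      have h6 := congrFun (h3.trans hx) j
      exact h6.symm
    have h7 : ((c γ j - c (φ x) j : ℤ) : ZMod d.natAbs) = 0 := by
      rw [Int.cast_sub, h5, sub_self]
    rw [ZMod.intCast_zmod_eq_zero_iff_dvd] at h7
    exact Int.natAbs_dvd.1 h7
  choose u hu using h4
  obtain ⟨v, hv⟩ : ∃ v : Fin k → ℤ, v = (1 - N.A').adjugate.mulVec u := ⟨_, rfl⟩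
  have hv1 : v - N.A'.mulVec v = fun j => c γ j - c (φ x) j := by
    have h8 : (1 - N.A').mulVec v = d • u := by
      rw [hv, Matrix.mulVec_mulVec, Matrix.mul_adjugate, ← hd, Matrix.smul_mulVec,
        Matrix.one_mulVec]
    rw [Matrix.sub_mulVec, Matrix.one_mulVec] at h8
    rw [h8]
    funext j
    rw [hu j]
    rfl
  obtain ⟨γ', hγ'⟩ : ∃ γ' : Fin r → SL(2, ℝ), γ' = fun i => (φ x i)⁻¹ * γ i := ⟨_, rfl⟩
  have hγ'Γ : ∀ i, γ' i ∈ (S i).Γ := by
    intro i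
    rw [hγ']
    exact (S i).Γ.mul_mem ((S i).Γ.inv_mem (h1 i)) (hγΓ i)
  have hγ'1 : ∀ i ∉ I₀, γ' i = 1 := by
    intro i hi
    rw [hγ']
    simp only [h2 i hi, hγ1 i hi, inv_one, mul_one]
  have hβ : ∀ z : Fin r → ℍ, ∀ j, N.β (fun i => γ' i • z i) j =
      N.β z j + ((c γ j : ℝ) - (c (φ x) j : ℝ)) := by
    intro z j
    have h9 : (fun i => φ x i • (γ' i • z i)) = fun i => γ i • z i := by
      funext i
      rw [hγ', ← mul_smul, mul_inv_cancel_left]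
    have h10 := congrFun (hc (φ x) h1 h2 (fun i => γ' i • z i)) j
    rw [h9] at h10
    have h11 := congrFun (hc γ hγΓ hγ1 z) j
    rw [h11] at h10
    linarith
  have hcomm : ∀ q, T₀ (deckIso γ' v q) = deckIso γ' v (T₀ q) := by
    intro q
    rw [N.form, N.form, deckIso_apply, deckIso_apply]
    refine Prod.ext (funext fun i => ?_) (funext fun j => ?_)
    · by_cases hi : i ∈ I₀
      · show N.H i (γ' i • q.1 i) = γ' i • N.H i (q.1 i)
        rw [N.idH i hi, N.idH i hi]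
      · show N.H i (γ' i • q.1 i) = γ' i • N.H i (q.1 i)
        rw [hγ'1 i hi, one_smul, one_smul]
    · show N.B (fun j => q.2 j + (v j : ℝ)) j + N.β (fun i => γ' i • q.1 i) j =
        N.B q.2 j + N.β q.1 j + (v j : ℝ)
      have h12 : N.B (fun j => q.2 j + (v j : ℝ)) j = N.B q.2 j + ((N.A'.mulVec v) j : ℝ) := by
        have h13 : (fun j => q.2 j + (v j : ℝ)) = q.2 + fun j => (v j : ℝ) := rfl
        rw [h13, map_add, Pi.add_apply, N.B_eq (fun j => (v j : ℝ))]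
        congr 1
        simp only [Matrix.mulVec, dotProduct, Matrix.map_apply]
        push_cast
        rfl
      rw [h12, hβ]
      have h14 := congrFun hv1 j
      simp only [Pi.sub_apply] at h14
      have h15 : (v j : ℝ) - ((N.A'.mulVec v) j : ℝ) = (c γ j : ℝ) - (c (φ x) j : ℝ) := by
        exact_mod_cast h14
      linarith
  refine ⟨⟨deckIso γ' v, isDeck_deckIso S v hγ'Γ, fun q i hi => ?_, hcomm⟩, fun i hi => ?_⟩
  · rw [deckIso_apply]
    show γ' i • q.1 i = q.1 i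
    rw [hγ'1 i hi, one_smul]
  · refine mem_iUnion.2 ⟨x, mem_iUnion.2 ⟨i, γ i • p.1 i, ?_, ?_⟩⟩
    · rw [hγ]
      simpa [hi] using hγ0K i
    · show (φ x i)⁻¹ • (γ i • p.1 i) = γ' i • p.1 i
      rw [hγ', mul_smul]

theorem NF.exists_compact (N : NF S I₀ T₀) {t₀ : (Fin r → ℍ) → (Fin k → ℝ)} (h : N.IsT₀ t₀)
    (R : ℝ) : ∃ K : Set (ANO.X r k), IsCompact K ∧ ∀ p : ANO.X r k,
      (∀ i ∉ I₀, dist (p.1 i) (N.w i) ≤ R) → ‖p.2 - t₀ p.1‖ ≤ R →
        p ∈ sat (Zgrp S I₀ T₀) K := by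
  classical
  obtain ⟨K₀, hK₀, hg⟩ := N.cocpt
  obtain ⟨Kz, hKz⟩ : ∃ Kz : Set (Fin r → ℍ),
    Kz = Set.pi univ fun i => if i ∈ I₀ then K₀ else Metric.closedBall (N.w i) R := ⟨_, rfl⟩
  have hKzc : IsCompact Kz := by
    rw [hKz]
    refine isCompact_univ_pi fun i => ?_
    by_cases hi : i ∈ I₀
    · simpa [hi] using hK₀
    · simpa [hi] using isCompact_closedBall (N.w i) R
  refine ⟨(fun q : (Fin r → ℍ) × (Fin k → ℝ) => ((q.1, t₀ q.1 + q.2) : ANO.X r k)) ''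
    (Kz ×ˢ Metric.closedBall (0 : Fin k → ℝ) R), ?_, fun p hp1 hp2 => ?_⟩
  · refine (hKzc.prod (isCompact_closedBall _ _)).image ?_
    exact continuous_fst.prodMk ((h.cont.comp continuous_fst).add continuous_snd)
  · obtain ⟨g, hgp⟩ := hg p
    refine ⟨g, ((g • p).1, (g • p).2 - t₀ (g • p).1), ⟨?_, ?_⟩, ?_⟩
    · show (g • p).1 ∈ Kz
      rw [hKz]
      intro i _
      by_cases hi : i ∈ I₀
      · simpa [hi] using hgp i hi
      · have h1 : (g • p).1 i = p.1 i := g.2.2.1 p i hi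
        simpa [hi, h1] using hp1 i hi
    · show (g • p).2 - t₀ (g • p).1 ∈ Metric.closedBall (0 : Fin k → ℝ) R
      rw [N.t₀_smul h, mem_closedBall_zero_iff]
      exact hp2
    · show ((g • p).1, t₀ (g • p).1 + ((g • p).2 - t₀ (g • p).1)) = g • p
      rw [add_sub_cancel]

end Pool.Agent.ANO2.Dim
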