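import Mathlib

/-!
# The dimension argument: a set which meets all small translates of a disc (package DIM-PROJ)

`le_of_meets`.  Let `M : (n → ℝ) → E` be linear, `b : E` and `W ⊆ E` a set such that for all small
`v` there is `y` with `b + v + M y ∈ W`.  Then `finrank E ≤ s + card n` if `dimH W ≤ s`.

PROOF.  Let `R = range M`, `R'` a complement of `R` (`Submodule.exists_isCompl`) and
`ψ : E → R'` the projection along `R` (`Submodule.linearProjOfIsCompl R' R`, kernel `R`,
surjective), as a continuous linear map (finite dimension).  `ψ (b + v + M y) = ψ (b + v)`, so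
`ψ '' W` contains `ψ (b + v)` for all `v` in a neighbourhood of `0`; `ψ` is an open map
(`ContinuousLinearMap.isOpenMap`, `LinearMap.isOpenMap_of_finiteDimensional`), so `ψ '' W` is in
`𝓝 (ψ b)` and `dimH (ψ '' W) = finrank R'` (`Real.dimH_of_mem_nhds`).  By
`ContinuousLinearMap.lipschitz` and `LipschitzWith.dimH_image_le`, `finrank R' ≤ dimH W ≤ s` (cast
to `ℕ`).  `finrank R + finrank R' = finrank E` and `finrank R ≤ card n`
(`LinearMap.finrank_range_le`, `Module.finrank_fintype_fun_eq_card`).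
-/

set_option autoImplicit false

open Set Filter Topology Metric

namespace Pool.Agent.ANO2.Dim

theorem le_of_meets {E : Type} [NormedAddCommGroup E] [NormedSpace ℝ E] [FiniteDimensional ℝ E]
    {n : Type} [Fintype n] (M : (n → ℝ) →L[ℝ] E) (b : E) {W : Set E} {s : ℕ}
    (hW : dimH W ≤ s) (h : ∀ᶠ v in 𝓝 (0 : E), ∃ y, b + v + M y ∈ W) :
    Module.finrank ℝ E ≤ s + Fintype.card n := by
  obtain ⟨R', hR'⟩ := Submodule.exists_isCompl (LinearMap.range (M : (n → ℝ) →ₗ[ℝ] E))
  have hc : IsCompl R' (LinearMap.range (M : (n → ℝ) →ₗ[ℝ] E)) := hR'.symm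
  let ψ : E →L[ℝ] R' := LinearMap.toContinuousLinearMap (Submodule.projectionOnto R' _ hc)
  have hker : ∀ y, ψ (M y) = 0 := fun y => by
    change Submodule.projectionOnto R' _ hc (M y) = 0
    rw [Submodule.projectionOnto_apply_eq_zero_iff]
    exact ⟨y, rfl⟩
  have hopen : IsOpenMap ψ :=
    LinearMap.isOpenMap_of_finiteDimensional (Submodule.projectionOnto R' _ hc)
      (Submodule.projectionOnto_surjective hc)
  have hmem : ψ '' W ∈ 𝓝 (ψ b) := by
    have h1 : {v : E | ∃ y, b + v + M y ∈ W} ∈ 𝓝 (0 : E) := h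
    have h2 : ψ '' {v : E | ∃ y, b + v + M y ∈ W} ∈ 𝓝 (ψ 0) := hopen.image_mem_nhds h1
    have h3 : Filter.Tendsto (fun w : R' => w - ψ b) (𝓝 (ψ b)) (𝓝 (ψ 0)) := by
      have h30 : ψ 0 = ψ b - ψ b := by rw [map_zero, sub_self]
      rw [h30]
      exact (continuous_id.sub continuous_const).tendsto (ψ b)
    filter_upwards [h3 h2] with w hw
    obtain ⟨v, ⟨y, hy⟩, hv⟩ := hw
    refine ⟨b + v + M y, hy, ?_⟩
    rw [map_add, map_add, hker, add_zero, hv]
    exact add_sub_cancel (ψ b) w
  have hd : dimH (ψ '' W) = Module.finrank ℝ R' := Real.dimH_of_mem_nhds hmem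
  have hle : dimH (ψ '' W) ≤ dimH W := ψ.lipschitz.dimH_image_le W
  have hs : Module.finrank ℝ R' ≤ s := by
    have h6 : ((Module.finrank ℝ R' : ℕ) : ENNReal) ≤ (s : ENNReal) := by
      rw [← hd]
      exact hle.trans hW
    exact_mod_cast h6
  have h4 := Submodule.finrank_add_eq_of_isCompl hR'
  have h5 := LinearMap.finrank_range_le (M : (n → ℝ) →ₗ[ℝ] E)
  rw [Module.finrank_fintype_fun_eq_card] at h5
  omega

end Pool.Agent.ANO2.Dim
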