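import Pool.Agent.ANO2.Dim.PerA

/-!
# The dimension argument: forward bounded points are in stable sets (package DIM-LIMIT)

Let `D : Dynamic C Z T s` and `x ∈ Wb Z T`: `(T ^ n) x ∈ sat Z K` for all `n`, `K` compact.

`near_per`: for every `ε > 0` there is `N` such that for `n ≥ N` there is `q ∈ Per T` with
`dist ((T ^ n) x) q < ε`.
PROOF.  Otherwise there are infinitely many `n` such that no `q ∈ Per T` has
`dist ((T ^ n) x) q < ε`; let `φ : ℕ → ℕ` be strictly increasing with this property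
(`Nat.exists_strictMono_subsequence` or `Filter.extraction_of_frequently_atTop`).  Choose `z_i : Z`
with `z_i • (T ^ (φ i)) x ∈ K` (definition of `sat`).  By compactness a subsequence of
`z_i • (T ^ (φ i)) x` converges, so it is a Cauchy sequence: for the `δ` of `closing` for `ε / 2`
there are `i < j` with
`dist (z_j • (T ^ (φ j)) x) (z_i • (T ^ (φ i)) x) ≤ δ`.  Put `y = z_i • (T ^ (φ i)) x`,
`n = φ j - φ i > 0`.  Then `(z_j * z_i⁻¹) • (T ^ n) y = z_j • (T ^ (φ j)) x` (`smul_npow`,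
`pow_add`).  So there is `c` with `(z_j * z_i⁻¹) • (T ^ n) c = c`, `dist c y ≤ ε / 2`.  By `D.noFix`
`z_j * z_i⁻¹ = 1`, so `(T ^ n) c = c` and `c ∈ Per T`.  `q = z_i⁻¹ • c ∈ Per T` (`smul_mem`) and
`dist q ((T ^ (φ i)) x) = dist c y ≤ ε / 2 < ε`: contradiction.

`exists_mem_Ws`: there is `q ∈ Per T` with `x ∈ Ws T q`.
PROOF.  Let `ρ` be as in `separated`.  By uniform continuity of `T` there is `η ∈ (0, ρ / 3]` with
`dist a b < η → dist (T a) (T b) < ρ / 3`.  Let `N` be as in `near_per` for `η` and choose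
`q_n ∈ Per T` with `dist ((T ^ n) x) q_n < η` for `n ≥ N`.  For `n ≥ N`,
`dist (T q_n) q_(n+1) ≤ dist (T q_n) ((T ^ (n+1)) x) + dist ((T ^ (n+1)) x) q_(n+1) < ρ`, so
`q_(n+1) = T q_n` (`map_mem`).  So `q_n = (T ^ (n - N)) q_N` for `n ≥ N`; let
`q = (T ^ N).symm q_N ∈ Per T` (iterate `symm_mem`), then `q_n = (T ^ n) q` for `n ≥ N`.  Let
`0 < ε' ≤ ρ / 3`.  For large `n` there is `q' ∈ Per T` with `dist ((T ^ n) x) q' < ε'`, so
`dist q' q_n < ρ`, `q' = q_n`, and `dist ((T ^ n) x) ((T ^ n) q) < ε'`.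
-/

set_option autoImplicit false

open Set Filter Topology
open Pool.Agent.ANO2.EqIdx Pool.Agent.ANO.Dyn

namespace Pool.Agent.ANO2.Dim

variable {X E : Type} [MetricSpace X] [ProperSpace X] [NormedAddCommGroup E] [NormedSpace ℝ E]
  {C : Chart X E} {Z : Type} [Group Z] [MulAction Z X] {T : X ≃ₜ X} {s : ℕ}

theorem near_per (D : Dynamic C Z T s) {x : X} (hx : x ∈ Wb Z T) {ε : ℝ} (hε : 0 < ε) :
    ∃ N : ℕ, ∀ n ≥ N, ∃ q ∈ Per T, dist ((T ^ n) x) q < ε := by
  by_contra hcon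
  have hf : ∃ᶠ n in atTop, ∀ q ∈ Per T, ε ≤ dist ((T ^ n) x) q := by
    rw [frequently_atTop]
    intro N
    by_contra hno
    apply hcon
    refine ⟨N, fun n hn => ?_⟩
    by_contra hq
    apply hno
    refine ⟨n, hn, fun q hqP => ?_⟩
    by_contra hlt
    exact hq ⟨q, hqP, not_le.1 hlt⟩
  obtain ⟨φ, hφ, hφ'⟩ := extraction_of_frequently_atTop hf
  obtain ⟨K, hK, hKx⟩ := hx
  choose z hz using fun n => hKx (φ n)
  obtain ⟨a, ha, ψ, hψ, hlim⟩ := hK.tendsto_subseq hz
  obtain ⟨δ, hδ, hcl⟩ := closing D.act.dist_smul D.comm D.exp D.sh (half_pos hε)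
  have hC := hlim.cauchySeq
  rw [Metric.cauchySeq_iff] at hC
  obtain ⟨N, hN⟩ := hC δ hδ
  have h1 := hN (N + 1) (by omega) N le_rfl
  simp only [Function.comp_apply] at h1
  have hij : φ (ψ N) < φ (ψ (N + 1)) := hφ (hψ (Nat.lt_succ_self N))
  generalize ψ N = i at h1 hij
  generalize ψ (N + 1) = j at h1 hij
  have hy : (z j * (z i)⁻¹) • (T ^ (φ j - φ i)) (z i • (T ^ φ i) x) = z j • (T ^ φ j) x := by
    rw [smul_npow D.comm, mul_smul, inv_smul_smul]
    congr 1
    have e : (T ^ (φ j - φ i)) ((T ^ φ i) x) = (T ^ (φ j - φ i) * T ^ φ i) x := rfl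
    rw [e, ← pow_add, Nat.sub_add_cancel hij.le]
  obtain ⟨c, hc1, hc2⟩ := hcl (z j * (z i)⁻¹) (φ j - φ i) (z i • (T ^ φ i) x) (by omega)
    (by rw [hy]; exact h1.le)
  have hone := D.noFix _ _ _ (by omega) hc1
  rw [hone, one_smul] at hc1
  have hcP : c ∈ Per T := ⟨_, by omega, hc1⟩
  have hq := smul_mem D (z i)⁻¹ hcP
  have hge := hφ' i _ hq
  have e : dist ((T ^ φ i) x) ((z i)⁻¹ • c) = dist (z i • (T ^ φ i) x) c := by
    rw [← D.act.dist_smul (z i), smul_inv_smul]
  rw [e, dist_comm] at hge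
  linarith

theorem exists_mem_Ws (D : Dynamic C Z T s) {x : X} (hx : x ∈ Wb Z T) :
    ∃ q ∈ Per T, x ∈ Ws T q := by
  obtain ⟨ρ, hρ, hsep⟩ := separated D
  obtain ⟨η₀, hη₀, hu⟩ := Metric.uniformContinuous_iff.1 D.uc (ρ / 3) (by positivity)
  have hη : 0 < min η₀ (ρ / 3) := lt_min hη₀ (by positivity)
  obtain ⟨N, hN⟩ := near_per D hx hη
  choose q hq hqd using fun n : ℕ => hN (N + n) (by omega)
  have hadd : ∀ (m n : ℕ) (y : X), (T ^ m) ((T ^ n) y) = (T ^ (m + n)) y := by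
    intro m n y
    rw [pow_add]
    rfl
  have hstep : ∀ n, T (q n) = q (n + 1) := by
    intro n
    apply hsep _ (map_mem (hq n)) _ (hq (n + 1))
    have h1 : dist (T ((T ^ (N + n)) x)) (T (q n)) < ρ / 3 :=
      hu ((hqd n).trans_le (min_le_left _ _))
    have h2 : dist ((T ^ (N + (n + 1))) x) (q (n + 1)) < ρ / 3 :=
      (hqd (n + 1)).trans_le (min_le_right _ _)
    have h3 : (T ^ (N + (n + 1))) x = T ((T ^ (N + n)) x) := by
      have := hadd 1 (N + n) x
      rw [pow_one] at this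
      rw [this]
      congr 2
      omega
    rw [h3] at h2
    calc dist (T (q n)) (q (n + 1))
        ≤ dist (T (q n)) (T ((T ^ (N + n)) x)) + dist (T ((T ^ (N + n)) x)) (q (n + 1)) :=
          dist_triangle _ _ _
      _ < ρ := by
          rw [dist_comm (T (q n))]
          linarith
  have hiter : ∀ n, (T ^ n) (q 0) = q n := by
    intro n
    induction n with
    | zero => rfl
    | succ n ih =>
      rw [← hstep n, ← ih]
      have := hadd 1 n (q 0)
      rw [pow_one] at this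
      rw [this, add_comm]
  have hback : ∀ n : ℕ, ∃ p ∈ Per T, (T ^ n) p = q 0 := by
    intro n
    induction n with
    | zero => exact ⟨q 0, hq 0, rfl⟩
    | succ n ih =>
      obtain ⟨p, hp, hpq⟩ := ih
      refine ⟨T.symm p, symm_mem hp, ?_⟩
      have := hadd n 1 (T.symm p)
      rw [pow_one, T.apply_symm_apply] at this
      rw [← this, hpq]
  obtain ⟨p, hp, hpq⟩ := hback N
  have hpn : ∀ n, (T ^ (N + n)) p = q n := by
    intro n
    rw [← hiter n, ← hpq, hadd, add_comm]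
  refine ⟨p, hp, ?_⟩
  show Tendsto (fun n : ℕ => dist ((T ^ n) x) ((T ^ n) p)) atTop (𝓝 0)
  rw [Metric.tendsto_atTop]
  intro ε hε
  obtain ⟨M, hM⟩ := near_per D hx (ε := min ε (ρ / 3)) (lt_min hε (by positivity))
  refine ⟨max M N, fun n hn => ?_⟩
  have hnM : M ≤ n := (le_max_left _ _).trans hn
  have hnN : N ≤ n := (le_max_right _ _).trans hn
  obtain ⟨q', hq', hd'⟩ := hM n hnM
  have hk : N + (n - N) = n := by omega
  have hqn : (T ^ n) p = q (n - N) := by
    have := hpn (n - N)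
    rw [hk] at this
    exact this
  have hdn : dist ((T ^ n) x) (q (n - N)) < ρ / 3 := by
    have := (hqd (n - N)).trans_le (min_le_right _ _)
    rw [hk] at this
    exact this
  have hdn' : dist ((T ^ n) x) q' < ρ / 3 := hd'.trans_le (min_le_right _ _)
  have heq : q' = q (n - N) := by
    apply hsep _ hq' _ (hq (n - N))
    calc dist q' (q (n - N)) ≤ dist q' ((T ^ n) x) + dist ((T ^ n) x) (q (n - N)) :=
          dist_triangle _ _ _
      _ < ρ := by
          rw [dist_comm q']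
          linarith
  rw [Real.dist_eq, sub_zero, abs_of_nonneg dist_nonneg, hqn, ← heq]
  exact hd'.trans_le (min_le_left _ _)

end Pool.Agent.ANO2.Dim
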