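import Pool.Agent.ANO2.Dim.Cone
import Pool.Agent.ANO2.Dim.Limit

/-!
# The dimension argument: dimension of the stable sets (package DIM-STABLE)

Let `D : Dynamic C Z T s`, `q ∈ Per T`.

`contDiffOn_pow`: `C.loc (T ^ n)` and `C.loc (T ^ n).symm` are `C¹` on `C.dom` (`C.loc` of a
composition is the composition of the `C.loc` (`C.left_inv`), `C.loc` maps `C.dom` to `C.dom`).

`dimH_Ws`: `dimH (C.toE '' Ws T q) ≤ s`.
PROOF.  Let `m`, `P` be as in `D.hyp q`, `φ = C.loc ⇑(T ^ m)`, of class `C¹` on the open set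
`C.dom`, so it has a strict derivative at `C.toE q` (`ContDiffAt.hasStrictFDerivAt`).
Let `ρ` be as in `dimH_local` and `S = {y | ∀ n, φ^[n] y ∈ closedBall (C.toE q) ρ}`.  Let
`x ∈ Ws T q`.  For the multiples of `m`, `(T ^ (m j)) q = q`, so `(T ^ (m j)) x → q`,
`C.toE ((T ^ (m j)) x) → C.toE q` (`C.cont`), and there is `N` such that for all `j`
`C.toE ((T ^ (m (N + j))) x) ∈ closedBall (C.toE q) ρ`.  Since
`φ^[j] (C.toE p) = C.toE ((T ^ (m j)) p)`, `C.toE ((T ^ (m N)) x) ∈ S ∩ C.dom`, and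
`C.toE x = C.loc (T ^ (m N)).symm (C.toE ((T ^ (m N)) x))`.  So
`C.toE '' Ws T q ⊆ ⋃ N, C.loc (T ^ (m N)).symm '' (S ∩ C.dom)`.  The dimension of a countable union
is the supremum (`dimH_iUnion`), and `ContDiffOn.dimH_image_le` (`C.dom` is convex, `C.conv`) gives
`dimH (C.loc .. '' (S ∩ C.dom)) ≤ dimH (S ∩ C.dom) ≤ dimH S ≤ s`.

`dimH_Wb`: `dimH (C.toE '' Wb Z T) ≤ s`: `Wb Z T ⊆ ⋃ q ∈ Per T, Ws T q` (`exists_mem_Ws`),
`Per T` is countable (`countable_per`), `dimH_bUnion`.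
-/

set_option autoImplicit false

open Set Filter Topology Metric
open Pool.Agent.ANO2.EqIdx Pool.Agent.ANO.Dyn

namespace Pool.Agent.ANO2.Dim

variable {X E : Type} [MetricSpace X] [ProperSpace X] [NormedAddCommGroup E] [NormedSpace ℝ E]
  [FiniteDimensional ℝ E] {C : Chart X E} {Z : Type} [Group Z] [MulAction Z X] {T : X ≃ₜ X} {s : ℕ}

omit [ProperSpace X] [FiniteDimensional ℝ E] in
private theorem loc_comp_Stable (C : Chart X E) (G H : X → X) :
    C.loc (G ∘ H) = C.loc G ∘ C.loc H := by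
  funext x
  change C.toE (G (H (C.ofE x))) = C.toE (G (C.ofE (C.toE (H (C.ofE x)))))
  rw [C.left_inv]

omit [ProperSpace X] [FiniteDimensional ℝ E] in
private theorem mapsTo_loc_Stable (C : Chart X E) (G : X → X) :
    MapsTo (C.loc G) C.dom C.dom := fun x _ => mem_range_self (G (C.ofE x))

omit [ProperSpace X] [FiniteDimensional ℝ E] in
private theorem contDiffOn_one_Stable (C : Chart X E) {G : X → X} (hG : ∀ x, G x = x) :
    ContDiffOn ℝ 1 (C.loc G) C.dom := by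
  refine contDiffOn_id.congr fun x hx => ?_
  obtain ⟨p, rfl⟩ := hx
  change C.toE (G (C.ofE (C.toE p))) = C.toE p
  rw [C.left_inv, hG]

omit [ProperSpace X] [FiniteDimensional ℝ E] in
theorem contDiffOn_pow (D : Dynamic C Z T s) (n : ℕ) :
    ContDiffOn ℝ 1 (C.loc ⇑(T ^ n)) C.dom ∧ ContDiffOn ℝ 1 (C.loc ⇑(T ^ n).symm) C.dom := by
  induction n with
  | zero =>
    exact ⟨contDiffOn_one_Stable C fun _ => rfl, contDiffOn_one_Stable C fun _ => rfl⟩
  | succ n ih =>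
    have h1 : (⇑(T ^ (n + 1)) : X → X) = ⇑(T ^ n) ∘ ⇑T := by
      rw [pow_succ]
      rfl
    have h2 : (⇑(T ^ (n + 1)).symm : X → X) = ⇑T.symm ∘ ⇑(T ^ n).symm := by
      rw [pow_succ]
      rfl
    rw [h1, h2, loc_comp_Stable, loc_comp_Stable]
    exact ⟨ih.1.comp D.smooth (mapsTo_loc_Stable C _),
      D.smooth'.comp ih.2 (mapsTo_loc_Stable C _)⟩

omit [ProperSpace X] [FiniteDimensional ℝ E] in
private theorem iterate_Stable (C : Chart X E) (T : X ≃ₜ X) (m : ℕ) (j : ℕ) (p : X) :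
    (C.loc ⇑(T ^ m))^[j] (C.toE p) = C.toE ((T ^ (m * j)) p) := by
  induction j generalizing p with
  | zero => rfl
  | succ j ih =>
    have h1 : C.loc ⇑(T ^ m) (C.toE p) = C.toE ((T ^ m) p) := by
      change C.toE ((T ^ m) (C.ofE (C.toE p))) = _
      rw [C.left_inv]
    rw [Function.iterate_succ_apply, h1, ih]
    have h2 : (T ^ (m * (j + 1))) p = (T ^ (m * j)) ((T ^ m) p) := by
      rw [mul_add, mul_one, pow_add]
      rfl
    rw [h2]

omit [ProperSpace X] [FiniteDimensional ℝ E] [NormedSpace ℝ E] [NormedAddCommGroup E] in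
private theorem pow_mul_Stable {q : X} {m : ℕ} (h : (T ^ m) q = q) (j : ℕ) :
    (T ^ (m * j)) q = q := by
  induction j with
  | zero => rfl
  | succ j ih =>
    have h2 : (T ^ (m * (j + 1))) q = (T ^ (m * j)) ((T ^ m) q) := by
      rw [mul_add, mul_one, pow_add]
      rfl
    rw [h2, h, ih]

omit [ProperSpace X] in
theorem dimH_Ws (D : Dynamic C Z T s) {q : X} (hq : q ∈ Per T) :
    dimH (C.toE '' Ws T q) ≤ s := by
  obtain ⟨m, hm, hmq, P, hP⟩ := D.hyp q hq
  have hqd : C.toE q ∈ C.dom := mem_range_self q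
  have hstr : HasStrictFDerivAt (C.loc ⇑(T ^ m)) (fderiv ℝ (C.loc ⇑(T ^ m)) (C.toE q))
      (C.toE q) :=
    ((contDiffOn_pow D m).1.contDiffAt (C.isOpen.mem_nhds hqd)).hasStrictFDerivAt one_ne_zero
  obtain ⟨ρ, hρ, hdim⟩ := dimH_local hstr hP
  set S : Set E := {y : E | ∀ n : ℕ, (C.loc ⇑(T ^ m))^[n] y ∈ closedBall (C.toE q) ρ} with hS
  have hsub : C.toE '' Ws T q ⊆ ⋃ N : ℕ, C.loc ⇑(T ^ (m * N)).symm '' (S ∩ C.dom) := by
    rintro _ ⟨x, hx, rfl⟩
    have hx' : Tendsto (fun n : ℕ => dist ((T ^ n) x) ((T ^ n) q)) atTop (𝓝 0) := hx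
    have ht : Tendsto (fun j : ℕ => m * j) atTop atTop :=
      (strictMono_id.const_mul hm).tendsto_atTop
    have h1 : Tendsto (fun j : ℕ => (T ^ (m * j)) x) atTop (𝓝 q) := by
      rw [tendsto_iff_dist_tendsto_zero]
      refine (hx'.comp ht).congr fun j => ?_
      change dist ((T ^ (m * j)) x) ((T ^ (m * j)) q) = _
      rw [pow_mul_Stable hmq]
    have h2 : Tendsto (fun j : ℕ => C.toE ((T ^ (m * j)) x)) atTop (𝓝 (C.toE q)) :=
      (C.cont.tendsto q).comp h1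
    obtain ⟨N, hN⟩ := eventually_atTop.1 (h2.eventually (closedBall_mem_nhds (C.toE q) hρ))
    refine mem_iUnion.2 ⟨N, C.toE ((T ^ (m * N)) x), ⟨fun j => ?_, mem_range_self _⟩, ?_⟩
    · rw [iterate_Stable]
      have h3 : (T ^ (m * j)) ((T ^ (m * N)) x) = (T ^ (m * (j + N))) x := by
        rw [mul_add, pow_add]
        rfl
      rw [h3]
      exact hN (j + N) (by omega)
    · change C.toE ((T ^ (m * N)).symm (C.ofE (C.toE ((T ^ (m * N)) x)))) = C.toE x
      rw [C.left_inv, Homeomorph.symm_apply_apply]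
  refine (dimH_mono hsub).trans ?_
  rw [dimH_iUnion]
  refine iSup_le fun N => ?_
  refine ((contDiffOn_pow D (m * N)).2.dimH_image_le C.conv inter_subset_right).trans ?_
  exact (dimH_mono inter_subset_left).trans hdim

theorem dimH_Wb (D : Dynamic C Z T s) : dimH (C.toE '' Wb Z T) ≤ s := by
  have hsub : C.toE '' Wb Z T ⊆ ⋃ q ∈ Per T, C.toE '' Ws T q := by
    rintro _ ⟨x, hx, rfl⟩
    obtain ⟨q, hq, hxq⟩ := exists_mem_Ws D hx
    exact mem_iUnion₂.2 ⟨q, hq, x, hxq, rfl⟩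
  refine (dimH_mono hsub).trans ?_
  rw [dimH_bUnion (countable_per D)]
  exact iSup₂_le fun q hq => dimH_Ws D hq

end Pool.Agent.ANO2.Dim
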