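import Pool.Agent.ANO2.Dim.Meet
import Pool.Agent.ANO2.Dim.Stable
import Pool.Agent.ANO2.Dim.Proj

/-!
# The dimension argument: main theorem
-/

set_option autoImplicit false

open Set Filter Topology Metric
open Pool.Agent.ANO2.EqIdx Pool.Agent.ANO.Dyn

namespace Pool.Agent.ANO2.Dim

variable {X E : Type} [MetricSpace X] [ProperSpace X] [NormedAddCommGroup E] [NormedSpace ℝ E]
  [FiniteDimensional ℝ E] {C : Chart X E} {Z : Type} [Group Z] [MulAction Z X] {T : X ≃ₜ X} {s : ℕ}
  {ι κ : Type} [Fintype ι] [Fintype κ]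

/-- The dimension argument. -/
theorem finrank_le (D : Dynamic C Z T s) (D' : Func C Z T ι κ) :
    Module.finrank ℝ E ≤ s + (Fintype.card ι + Fintype.card κ) := by
  obtain ⟨M, b, h⟩ := meet D'
  rw [← Fintype.card_sum]
  exact le_of_meets M b (dimH_Wb D) h

end Pool.Agent.ANO2.Dim
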