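import Pool.Agent.ANO2.Defs

/-!
# The rank of the projections is constant (package DIM-RANKCONST)

`P p` is a continuous family of projections of `E r k = ℂ^r × ℝ^k`, `p ∈ X r k`.
PROOF.  `finrank ℝ (E r k) = 2 * r + k` (`Module.finrank_prod`, `Module.finrank_pi_fintype`,
`Complex.finrank_real_complex`).  For a projection `Q`, `trace Q = finrank (range Q)`
(`LinearMap.IsProj.trace` or `LinearMap.IsIdempotentElem` versions), `ker (1 - Q) = range Q`, and
`finrank (ker Q) + finrank (range Q) = 2 r + k` (rank-nullity).  `p ↦ trace (P p)` is continuous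
(`LinearMap.trace` is linear on the finite-dimensional space of continuous linear maps, so
continuous: `LinearMap.continuous_of_finiteDimensional`), with values in the natural numbers, and
`X r k` is connected (`ℍ` is path connected: contractible, or the image of a convex set), so it is
constant: a continuous function to `ℝ` with values in `{(n : ℝ)}` is locally constant; use
`PreconnectedSpace.constant` for the continuous map to `ℕ` (or `ℤ`), `IsLocallyConstant`.
-/

set_option autoImplicit false

open Set Filter Topology
open Pool.Agent.ANO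

namespace Pool.Agent.ANO2.Dim

variable {r k : ℕ}

theorem finrank_E (r k : ℕ) : Module.finrank ℝ (ANO.E r k) = 2 * r + k := by
  rw [Module.finrank_prod, Module.finrank_pi_fintype, Module.finrank_fintype_fun_eq_card]
  simp [Complex.finrank_real_complex, mul_comm]

theorem rank_const {P : ANO.X r k → (ANO.E r k →L[ℝ] ANO.E r k)} (hc : Continuous P)
    (hp : ∀ p, P p ∘L P p = P p) : ∃ s u : ℕ, s + u = 2 * r + k ∧ ∀ p,
      Module.finrank ℝ (LinearMap.ker (P p).toLinearMap) = s ∧
      Module.finrank ℝ (LinearMap.ker (1 - P p : ANO.E r k →L[ℝ] ANO.E r k).toLinearMap) = u := by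
  classical
  set m : ANO.X r k → ℕ := fun p => Module.finrank ℝ (LinearMap.range (P p).toLinearMap) with hm
  have hid : ∀ p, IsIdempotentElem (P p).toLinearMap := by
    intro p
    refine LinearMap.ext fun v => ?_
    exact DFunLike.congr_fun (hp p) v
  have htr : ∀ p, LinearMap.trace ℝ (ANO.E r k) (P p).toLinearMap = (m p : ℝ) := by
    intro p
    exact (LinearMap.IsIdempotentElem.isProj_range _ (hid p)).trace
  have hcm : Continuous m := by
    rw [Nat.isClosedEmbedding_coe_real.isEmbedding.isInducing.continuous_iff]
    have h1 : Continuous fun A : ANO.E r k →L[ℝ] ANO.E r k =>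
        LinearMap.trace ℝ (ANO.E r k) A.toLinearMap :=
      LinearMap.continuous_of_finiteDimensional
        ((LinearMap.trace ℝ (ANO.E r k)).comp (ContinuousLinearMap.coeLM ℝ))
    have h2 := h1.comp hc
    refine h2.congr fun p => ?_
    exact htr p
  have hker : ∀ p, Module.finrank ℝ (LinearMap.ker (P p).toLinearMap) + m p = 2 * r + k := by
    intro p
    rw [← finrank_E, ← LinearMap.finrank_range_add_finrank_ker (P p).toLinearMap, add_comm]
  have hker2 : ∀ p, LinearMap.ker (1 - P p : ANO.E r k →L[ℝ] ANO.E r k).toLinearMap =
      LinearMap.range (P p).toLinearMap := by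
    intro p
    ext v
    rw [LinearMap.mem_ker, LinearMap.mem_range]
    constructor
    · intro h
      refine ⟨v, ?_⟩
      have h' : v - P p v = 0 := h
      exact (sub_eq_zero.mp h').symm
    · rintro ⟨u, rfl⟩
      have h' : P p (P p u) = P p u := DFunLike.congr_fun (hp p) u
      show P p u - P p (P p u) = 0
      rw [h', sub_self]
  let p0 : ANO.X r k := (fun _ => UpperHalfPlane.I, 0)
  have hconst : ∀ p, m p = m p0 := fun p =>
    PreconnectedSpace.constant (inferInstance : PreconnectedSpace (ANO.X r k)) hcm
  refine ⟨Module.finrank ℝ (LinearMap.ker (P p0).toLinearMap), m p0, hker p0, fun p => ⟨?_, ?_⟩⟩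
  · have h1 := hker p
    have h2 := hker p0
    have h3 := hconst p
    omega
  · rw [hker2 p]
    exact hconst p

end Pool.Agent.ANO2.Dim
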