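import Pool.Agent.ANO2.Dim.Lift
import Pool.Agent.ANO2.Dim.RankConst

/-!
# Hyperbolicity at the periodic points of `T` and of its inverse (package DIM-RANK)

`exists_ranks`.  Let `F` be an Anosov lift, with the projections `P`, the constants `C`, `μ` of
`IsAnosovLift`, and `s`, `u` as in `rank_const`.  Let `T` be a lift of `F ^ M`, `M > 0`,
`(T ^ n) q = q`, `n > 0`.
PROOF.  Let `c₁`, `c₂` be the constants of `Dyn.le_tnorm`, `Dyn.tnorm_le` for the compact set `{q}`: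
`‖v‖ ≤ c₁ tnorm q v`, `tnorm q v ≤ c₂ ‖v‖`.  Let `j > 0` with `c₁ c₂ C μ ^ (M n j) ≤ 1 / 8`, and
`m = n j`; `(T ^ m) q = q`, `T ^ m = g ∘ F ^ (M m)` (`liftOf_pow`).  Put `D = tmap (T ^ m) q`,
`D' = tmap (T ^ m).symm q`; they are inverse to each other (`Dyn.tmap_comp`, `Dyn.tmap_id`), and
`P q ∘L D = D ∘L P q` (the invariance of `P` under `F` and under deck transformations, `tmap_comp`;
compare `hyp_comm_pow` in `Dyn/Hyp.lean`), hence also `P q ∘L D' = D' ∘L P q`.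
* If `P q v = 0`: `tnorm q (D v) = tnorm ((F ^ (M m)) q) (tmap (F ^ (M m)) q v)`, which is
  `≤ C μ ^ (M m) tnorm q v` (`Dyn.IsDeck.tnorm`), so `‖D v‖ ≤ 1 / 8 ‖v‖`.
* If `P q v = v`: with the inverse `g'` of `g`, `(T ^ m).symm = (F ^ (M m)).symm ∘ g'`,
  `v' = tmap g' q v` has `P (g' q) v' = v'`, so
  `tnorm q (D' v) ≤ C μ ^ (M m) tnorm (g' q) v' = C μ ^ (M m) tnorm q v` and `‖D' v‖ ≤ 1 / 8 ‖v‖`.
* So `HypLin D (P q) s`: unstable: `P q v = v` implies `P q (D v) = D v`, `‖v‖ = ‖D' (D v)‖ ≤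
  1 / 8 ‖D v‖`.  And `HypLin D' (1 - P q) u` in the same way; `T.symm ^ m = (T ^ m).symm`.
Compare the proof of `Dyn.hyp` in `Dyn/Hyp.lean` (you may copy from it).
-/

set_option autoImplicit false

open Set Filter Topology
open Pool.Agent.ANO

namespace Pool.Agent.ANO2.Dim

variable {r k : ℕ} {S : Fin r → ClosedSurface}

private theorem coe_succ_Rank (F : ANO.X r k ≃ₜ ANO.X r k) (n : ℕ) :
    (⇑(F ^ (n + 1) : ANO.X r k ≃ₜ ANO.X r k) : ANO.X r k → ANO.X r k) =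
      ⇑F ∘ ⇑(F ^ n : ANO.X r k ≃ₜ ANO.X r k) := by
  rw [pow_succ']
  rfl

private theorem comm_pow_Rank {F : ANO.X r k ≃ₜ ANO.X r k} (hF : IsAnosovLift S F)
    {P : ANO.X r k → (ANO.E r k →L[ℝ] ANO.E r k)}
    (hP : ∀ p, P (F p) ∘L tmap F p = tmap F p ∘L P p) (n : ℕ) (p : ANO.X r k) :
    P ((F ^ n) p) ∘L tmap (F ^ n : ANO.X r k ≃ₜ ANO.X r k) p =
      tmap (F ^ n : ANO.X r k ≃ₜ ANO.X r k) p ∘L P p := by
  induction n with
  | zero =>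
    have h0 : (⇑(F ^ 0 : ANO.X r k ≃ₜ ANO.X r k) : ANO.X r k → ANO.X r k) = id := rfl
    rw [h0, ANO.Dyn.tmap_id]
    rfl
  | succ n ih =>
    rw [coe_succ_Rank, ANO.Dyn.tmap_comp hF.1 (Dyn.contDiffOn_pow hF n).1, Function.comp_apply,
      ← ContinuousLinearMap.comp_assoc, hP, ContinuousLinearMap.comp_assoc, ih,
      ContinuousLinearMap.comp_assoc]

private theorem tmap_symm_Rank {G : ANO.X r k ≃ₜ ANO.X r k}
    (h1 : ContDiffOn ℝ 1 (loc G) (dom r k)) (h2 : ContDiffOn ℝ 1 (loc G.symm) (dom r k))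
    {q : ANO.X r k} (hq : G q = q) :
    (∀ v, tmap G q (tmap G.symm q v) = v) ∧ ∀ v, tmap G.symm q (tmap G q v) = v := by
  have hq' : G.symm q = q := by
    rw [Homeomorph.symm_apply_eq, hq]
  constructor
  · intro v
    have h3 := ANO.Dyn.tmap_comp h1 h2 q
    have hid : (⇑G ∘ ⇑G.symm : ANO.X r k → ANO.X r k) = id := by
      funext x
      simp
    rw [hid, ANO.Dyn.tmap_id, hq'] at h3
    exact (congrArg (fun L : ANO.E r k →L[ℝ] ANO.E r k => L v) h3).symm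
  · intro v
    have h3 := ANO.Dyn.tmap_comp h2 h1 q
    have hid : (⇑G.symm ∘ ⇑G : ANO.X r k → ANO.X r k) = id := by
      funext x
      simp
    rw [hid, ANO.Dyn.tmap_id, hq] at h3
    exact (congrArg (fun L : ANO.E r k →L[ℝ] ANO.E r k => L v) h3).symm

/-- The conclusion from the estimates on the two spaces. -/
private theorem hypLin_Rank {D D' P : ANO.E r k →L[ℝ] ANO.E r k} (hPP : P ∘L P = P)
    (hc : ∀ v, P (D v) = D (P v)) (h1 : ∀ v, D (D' v) = v) (h2 : ∀ v, D' (D v) = v)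
    (hs : ∀ v, P v = 0 → ‖D v‖ ≤ 1 / 8 * ‖v‖) (hu : ∀ v, P v = v → ‖D' v‖ ≤ 1 / 8 * ‖v‖)
    {s u : ℕ} (hks : Module.finrank ℝ (LinearMap.ker P.toLinearMap) = s)
    (hku : Module.finrank ℝ
      (LinearMap.ker (1 - P : ANO.E r k →L[ℝ] ANO.E r k).toLinearMap) = u) :
    HypLin D P s ∧ HypLin D' (1 - P) u := by
  have hc' : ∀ v, P (D' v) = D' (P v) := by
    intro v
    have h3 := hc (D' v)
    rw [h1] at h3
    rw [h3, h2]
  have hPP' : ∀ v, P (P v) = P v := fun v =>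
    congrArg (fun L : ANO.E r k →L[ℝ] ANO.E r k => L v) hPP
  have hsub : ∀ v, (1 - P : ANO.E r k →L[ℝ] ANO.E r k) v = v - P v := fun v => rfl
  refine ⟨⟨hPP, ?_, hs, ?_, hks⟩, ⟨?_, ?_, ?_, ?_, hku⟩⟩
  · refine ContinuousLinearMap.ext fun v => ?_
    exact hc v
  · intro v hv
    have h3 : P (D v) = D v := by rw [hc, hv]
    have h4 := hu (D v) h3
    rw [h2] at h4
    linarith
  · refine ContinuousLinearMap.ext fun v => ?_
    show (1 - P : ANO.E r k →L[ℝ] ANO.E r k) ((1 - P : ANO.E r k →L[ℝ] ANO.E r k) v) =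
      (1 - P : ANO.E r k →L[ℝ] ANO.E r k) v
    rw [hsub, hsub, map_sub, hPP', sub_self, sub_zero]
  · refine ContinuousLinearMap.ext fun v => ?_
    show (1 - P : ANO.E r k →L[ℝ] ANO.E r k) (D' v) =
      D' ((1 - P : ANO.E r k →L[ℝ] ANO.E r k) v)
    rw [hsub, hsub, map_sub, hc']
  · intro v hv
    rw [hsub, sub_eq_zero] at hv
    exact hu v hv.symm
  · intro v hv
    rw [hsub, sub_eq_self] at hv
    have h3 : P (D' v) = 0 := by rw [hc', hv, map_zero]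
    have h4 := hs (D' v) h3
    rw [h1] at h4
    linarith

theorem exists_ranks {F : ANO.X r k ≃ₜ ANO.X r k} (hF : IsAnosovLift S F) :
    ∃ s u : ℕ, s + u = 2 * r + k ∧ ∀ (M : ℕ) (T : ANO.X r k ≃ₜ ANO.X r k), 0 < M →
      LiftOf S F M T → ∀ q ∈ Per T, ∃ m : ℕ, 0 < m ∧ (T ^ m) q = q ∧
        (∃ P, HypLin (fderiv ℝ (loc ⇑(T ^ m)) (toE q)) P s) ∧
        ∃ P, HypLin (fderiv ℝ (loc ⇑(T.symm ^ m)) (toE q)) P u := by
  have hF0 := hF
  obtain ⟨-, -, -, -, P, hPc, hPP, hPd, hPF, C, μ, hC, hμ0, hμ1, hest⟩ := hF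
  obtain ⟨s, u, hsu, hrk⟩ := rank_const hPc hPP
  refine ⟨s, u, hsu, fun M T hM hT q hq => ?_⟩
  obtain ⟨n, hn, hnq⟩ := hq
  obtain ⟨c1, hc1, hc1'⟩ := Dyn.le_tnorm (isCompact_singleton (x := q))
  obtain ⟨c2, hc2, hc2'⟩ := Dyn.tnorm_le (isCompact_singleton (x := q))
  have h8 : (0 : ℝ) < 1 / 8 / (c1 * c2 * C) := by positivity
  obtain ⟨j, hj⟩ := exists_pow_lt_of_lt_one h8 hμ1
  obtain ⟨m, hm⟩ : ∃ m : ℕ, m = n * (j + 1) := ⟨_, rfl⟩
  have hm0 : 0 < m := by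
    rw [hm]
    exact Nat.mul_pos hn (Nat.succ_pos j)
  have hmq : (T ^ m) q = q := by
    rw [hm, pow_mul, pow_apply]
    have h1 : Function.IsFixedPt ⇑(T ^ n) q := hnq
    exact h1.iterate (j + 1)
  obtain ⟨N, hN⟩ : ∃ N : ℕ, N = M * m := ⟨_, rfl⟩
  have hjN : j ≤ N := by
    rw [hN, hm]
    calc j ≤ j + 1 := Nat.le_succ j
      _ ≤ n * (j + 1) := Nat.le_mul_of_pos_left _ hn
      _ ≤ M * (n * (j + 1)) := Nat.le_mul_of_pos_left _ hM
  have hsmall : c1 * (C * μ ^ N * c2) ≤ 1 / 8 := by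
    have h1 : μ ^ N ≤ μ ^ j := pow_le_pow_of_le_one hμ0.le hμ1.le hjN
    have h2 : c1 * c2 * C * μ ^ N ≤ c1 * c2 * C * μ ^ j :=
      mul_le_mul_of_nonneg_left h1 (by positivity)
    have h3 : c1 * c2 * C * μ ^ j < 1 / 8 := by
      rw [lt_div_iff₀ (by positivity)] at hj
      linarith
    calc c1 * (C * μ ^ N * c2) = c1 * c2 * C * μ ^ N := by ring
      _ ≤ 1 / 8 := by linarith
  have hL := liftOf_pow hF0 hT m
  rw [← hN] at hL
  have hsm := liftOf_smooth hF0 hL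
  obtain ⟨g, hg, hgT⟩ := hL
  obtain ⟨g', hg', e1, e2⟩ := Dyn.IsDeck.inv hg
  have hcF := Dyn.contDiffOn_pow hF0 N
  have hq1 : g ((F ^ N) q) = q := by rw [← hgT, hmq]
  have hq2 : g' q = (F ^ N) q := by
    conv_lhs => rw [← hq1]
    exact e1 _
  have hG1 : (⇑(T ^ m) : ANO.X r k → ANO.X r k) = g ∘ ⇑(F ^ N) := funext hgT
  have hG2 : (⇑(T ^ m).symm : ANO.X r k → ANO.X r k) = ⇑(F ^ N).symm ∘ g' := by
    funext p
    rw [Homeomorph.symm_apply_eq, hgT]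
    show p = g ((F ^ N) ((F ^ N).symm (g' p)))
    rw [Homeomorph.apply_symm_apply, e2]
  have hD : ∀ v, tmap ⇑(T ^ m) q v =
      tmap g ((F ^ N) q) (tmap (F ^ N : ANO.X r k ≃ₜ ANO.X r k) q v) := by
    intro v
    rw [hG1, ANO.Dyn.tmap_comp (Dyn.IsDeck.contDiffOn hg) hcF.1]
    rfl
  have hD' : ∀ v, tmap ⇑(T ^ m).symm q v =
      tmap (F ^ N : ANO.X r k ≃ₜ ANO.X r k).symm (g' q) (tmap g' q v) := by
    intro v
    rw [hG2, ANO.Dyn.tmap_comp hcF.2 (Dyn.IsDeck.contDiffOn hg')]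
    rfl
  have hcomm : ∀ v, P q (tmap ⇑(T ^ m) q v) = tmap ⇑(T ^ m) q (P q v) := by
    intro v
    have h1 : ∀ w, P (g ((F ^ N) q)) (tmap g ((F ^ N) q) w) =
        tmap g ((F ^ N) q) (P ((F ^ N) q) w) := fun w =>
      congrArg (fun L : ANO.E r k →L[ℝ] ANO.E r k => L w) (hPd g hg ((F ^ N) q))
    have h2 : P ((F ^ N) q) (tmap (F ^ N : ANO.X r k ≃ₜ ANO.X r k) q v) =
        tmap (F ^ N : ANO.X r k ≃ₜ ANO.X r k) q (P q v) :=
      congrArg (fun L : ANO.E r k →L[ℝ] ANO.E r k => L v) (comm_pow_Rank hF0 hPF N q)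
    have h3 := h1 (tmap (F ^ N : ANO.X r k ≃ₜ ANO.X r k) q v)
    rw [hq1, h2] at h3
    rw [hD, hD]
    exact h3
  obtain ⟨hi1, hi2⟩ := tmap_symm_Rank hsm.1 hsm.2 hmq
  have hCμ : 0 ≤ C * μ ^ N := by positivity
  have hs : ∀ v, P q v = 0 → ‖tmap ⇑(T ^ m) q v‖ ≤ 1 / 8 * ‖v‖ := by
    intro v hv
    calc ‖tmap ⇑(T ^ m) q v‖ ≤ c1 * tnorm q (tmap ⇑(T ^ m) q v) := hc1' q rfl _
      _ = c1 * tnorm ((F ^ N) q) (tmap (F ^ N : ANO.X r k ≃ₜ ANO.X r k) q v) := by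
          have h1 := Dyn.IsDeck.tnorm hg ((F ^ N) q)
            (tmap (F ^ N : ANO.X r k ≃ₜ ANO.X r k) q v)
          rw [hq1] at h1
          rw [hD, h1]
      _ ≤ c1 * (C * μ ^ N * tnorm q v) :=
          mul_le_mul_of_nonneg_left ((hest N q v).1 hv) hc1.le
      _ ≤ c1 * (C * μ ^ N * (c2 * ‖v‖)) :=
          mul_le_mul_of_nonneg_left (mul_le_mul_of_nonneg_left (hc2' q rfl v) hCμ) hc1.le
      _ = c1 * (C * μ ^ N * c2) * ‖v‖ := by ring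
      _ ≤ 1 / 8 * ‖v‖ := mul_le_mul_of_nonneg_right hsmall (norm_nonneg v)
  have hu : ∀ v, P q v = v → ‖tmap ⇑(T ^ m).symm q v‖ ≤ 1 / 8 * ‖v‖ := by
    intro v hv
    have h1 : P (g' q) (tmap g' q v) = tmap g' q (P q v) :=
      congrArg (fun L : ANO.E r k →L[ℝ] ANO.E r k => L v) (hPd g' hg' q)
    rw [hv] at h1
    have h2 : (F ^ N).symm (g' q) = q := by rw [hq2, Homeomorph.symm_apply_apply]
    have h3 := (hest N (g' q) (tmap g' q v)).2 h1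
    rw [h2, Dyn.IsDeck.tnorm hg'] at h3
    calc ‖tmap ⇑(T ^ m).symm q v‖ ≤ c1 * tnorm q (tmap ⇑(T ^ m).symm q v) := hc1' q rfl _
      _ ≤ c1 * (C * μ ^ N * tnorm q v) := by
          rw [hD']
          exact mul_le_mul_of_nonneg_left h3 hc1.le
      _ ≤ c1 * (C * μ ^ N * (c2 * ‖v‖)) :=
          mul_le_mul_of_nonneg_left (mul_le_mul_of_nonneg_left (hc2' q rfl v) hCμ) hc1.le
      _ = c1 * (C * μ ^ N * c2) * ‖v‖ := by ring
      _ ≤ 1 / 8 * ‖v‖ := mul_le_mul_of_nonneg_right hsmall (norm_nonneg v)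
  obtain ⟨hs1, hu1⟩ := hypLin_Rank (s := s) (u := u) (hPP q) hcomm hi1 hi2 hs hu
    (hrk q).1 (hrk q).2
  refine ⟨m, hm0, hmq, ⟨P q, hs1⟩, ⟨1 - P q, ?_⟩⟩
  have h1 : (T.symm ^ m : ANO.X r k ≃ₜ ANO.X r k) = (T ^ m).symm := inv_pow T m
  rw [h1]
  exact hu1

end Pool.Agent.ANO2.Dim
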