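import Pool.Agent.ANO2.Dim.Close

/-!
# The dynamical hypotheses for the inverse (package DIM-SYMM)

PROOF.
* `comm`: `T.symm (z • x) = z • T.symm x` (apply `T`).
* `exp`: `(T.symm ^ j) x = (T ^ (-j)) x` for `j : ℤ`.
* `sh`: let `ε > 0`, `δ` the constant for `T`, and `δ' > 0` with
  `dist a b ≤ δ' → dist (T a) (T b) ≤ δ` (`D.uc`).  If `dist (T.symm (x j)) (x (j+1)) ≤ δ'` for all
  `j`, put `y j = x (-j)`: `dist (T (y j)) (y (j+1)) = dist (T (x (-j))) (x (-j-1))`, and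
  `dist (T.symm (x (-j-1))) (x (-j)) ≤ δ'` gives `dist (x (-j-1)) (T (x (-j))) ≤ δ`.  The point
  which
  shadows `y` for `T` shadows `x` for `T.symm`.
* `noFix`: `z • (T.symm ^ n) q = q` gives `z • q = (T ^ n) q` after applying `T ^ n`
  (`smul_npow`), so `z⁻¹ • (T ^ n) q = q` and `z⁻¹ = 1`.
* `fin`: `(T.symm ^ n) q = q ↔ (T ^ n) q = q`, so `fixOrb` is the same set.
* `Per T.symm = Per T`.
-/

set_option autoImplicit false

open Set Filter Topology
open Pool.Agent.ANO2.EqIdx Pool.Agent.ANO.Dyn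

namespace Pool.Agent.ANO2.Dim

variable {X E : Type} [MetricSpace X] [NormedAddCommGroup E] [NormedSpace ℝ E]
  {C : Chart X E} {Z : Type} [Group Z] [MulAction Z X] {T : X ≃ₜ X} {s u : ℕ}

private theorem zpow_Symm (T : X ≃ₜ X) (j : ℤ) : T.symm ^ j = T ^ (-j) :=
  inv_zpow' T j

private theorem fix_Symm (T : X ≃ₜ X) (n : ℕ) (q : X) :
    (T.symm ^ n) q = q ↔ (T ^ n) q = q := by
  have h : T.symm ^ n = (T ^ n)⁻¹ := inv_pow T n
  rw [h]
  have h1 : (T ^ n)⁻¹ q = (T ^ n).symm q := rfl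
  rw [h1, Homeomorph.symm_apply_eq]
  exact eq_comm

private theorem npow_Symm (T : X ≃ₜ X) (n : ℕ) (q : X) : (T ^ n) ((T.symm ^ n) q) = q := by
  have h : T.symm ^ n = (T ^ n)⁻¹ := inv_pow T n
  rw [h]
  exact (T ^ n).apply_symm_apply q

private theorem sh_Symm {T : X ≃ₜ X} (hu : UniformContinuous T) (h : Shadowing T) :
    Shadowing T.symm := by
  intro ε hε
  obtain ⟨δ, hδ, hs⟩ := h ε hε
  obtain ⟨d, hd, huc⟩ := Metric.uniformContinuous_iff.1 hu δ hδ
  refine ⟨d / 2, by positivity, fun x hx => ?_⟩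
  obtain ⟨y, hy⟩ := hs (fun j => x (-j)) fun j => by
    have h1 := hx (-(j + 1))
    have h2 : -(j + 1) + 1 = -j := by ring
    rw [h2] at h1
    have h3 := huc (lt_of_le_of_lt h1 (half_lt_self hd))
    rw [Homeomorph.apply_symm_apply, dist_comm] at h3
    exact h3.le
  refine ⟨y, fun j => ?_⟩
  have h1 := hy (-j)
  rw [zpow_Symm]
  simpa using h1

theorem Dynamic.inverse (D : Dynamic C Z T s) (huc : UniformContinuous T.symm)
    (hyp : ∀ q ∈ Per T, ∃ m : ℕ, 0 < m ∧ (T ^ m) q = q ∧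
      ∃ P : E →L[ℝ] E, HypLin (fderiv ℝ (C.loc ⇑(T.symm ^ m)) (C.toE q)) P u) :
    Dynamic C Z T.symm u where
  act := D.act
  comm := by
    intro z x
    apply T.injective
    rw [D.comm, T.apply_symm_apply, T.apply_symm_apply]
  smooth := D.smooth'
  smooth' := D.smooth
  exp := by
    obtain ⟨e, he0, he⟩ := D.exp
    refine ⟨e, he0, fun x y h => he x y fun j => ?_⟩
    have h1 := h (-j)
    rw [zpow_Symm, neg_neg] at h1
    exact h1
  sh := sh_Symm D.uc D.sh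
  uc := huc
  noFix := by
    intro z n q hn h
    have h1 : z⁻¹ • (T ^ n) ((T.symm ^ n) q) = (T.symm ^ n) q := by
      rw [npow_Symm, inv_smul_eq_iff]
      exact h.symm
    have h2 := D.noFix z⁻¹ n _ hn h1
    exact inv_eq_one.1 h2
  fin := by
    obtain ⟨B, hB⟩ := D.fin
    refine ⟨B, fun n hn => ?_⟩
    have h : fixOrb Z ⇑(T.symm ^ n) = fixOrb Z ⇑(T ^ n) := by
      unfold fixOrb
      have h1 : {q | (T.symm ^ n) q = q} = {q | (T ^ n) q = q} :=
        Set.ext fun q => fix_Symm T n q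
      rw [h1]
    rw [h]
    exact hB n hn
  hyp := by
    rintro q ⟨n, hn, h⟩
    obtain ⟨m, hm, h1, P, hP⟩ := hyp q ⟨n, hn, (fix_Symm T n q).1 h⟩
    exact ⟨m, hm, (fix_Symm T m q).2 h1, P, hP⟩

end Pool.Agent.ANO2.Dim
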