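import Pool.Agent.ANO2.Dim.TwoTw
import Pool.Agent.ANO2.Dim.CfgB
import Pool.Agent.ANO2.Dim.Rank
import Pool.Agent.ANO2.Dim.Symm
import Pool.Agent.ANO2.Dim.Main

/-!
# The dimension argument for `T` and `T⁻¹` (package DIM-CONCL)

* `dynamic`: `exists_ranks` (`Rank.lean`) gives `s`, `u`; `Dynamic (chartX r k) Z T s`: `act` from
  `GrpData.action` (`EqApp/ActX.lean`) or `zgrp_action`, `comm` from `zgrp_comm`, `smooth`, `exp`,
  `sh`, `uc` from `Lift.lean`, `noFix`, `fin` from `EqApp.noFix`, `EqApp.fin` with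
  `pow_apply : (T ^ n) x = T^[n] x` (and `funext`), `hyp` from `exists_ranks`.  For `T.symm`:
  `Dynamic.inverse`.
* `eq_empty`: by `finrank_le` (`Main.lean`) for `T` and `T.symm`, with the functions
  `Cfg.toFunc` of `cfg2.toCfg` and of `Cfg2.inverse`:
  `2 r + k ≤ s + (c + κ)`, `2 r + k ≤ u + (c + κ')`, `c = card {i // i ∉ I₀}`, `s + u = 2 r + k`,
  `κ + κ' = k`.  So `r ≤ c`, and `c = r` implies that `I₀` is empty
  (`Fintype.card_subtype_compl`, `Fintype.card_subtype_lt`, ...).  `finrank_E` in `RankConst.lean`.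
  If `E r k` is trivial then `r = 0` and there is no element of `I₀` (`Fin 0`).
-/

set_option autoImplicit false

open Set Filter Topology
open Pool.Agent.ANO
open scoped UpperHalfPlane MatrixGroups

namespace Pool.Agent.ANO2.Dim.Two

open Pool.Agent.ANO2.EqIdx

variable {r k : ℕ} {S : Fin r → ClosedSurface} {I₀ : Set (Fin r)} {κ κ' : ℕ}
  (D : Two S I₀ k κ κ')

theorem dynamic [Nontrivial (ANO.E r k)] : ∃ s u : ℕ, s + u = 2 * r + k ∧
    Dynamic (chartX r k) (Zgrp S I₀ D.T₀) D.T s ∧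
    Dynamic (chartX r k) (Zgrp S I₀ D.T₀) D.T.symm u := by
  obtain ⟨s, u, hsu, h⟩ := exists_ranks D.hF
  obtain ⟨MD⟩ := D.mod
  have hlift := D.lift
  have hpow : ∀ n : ℕ, ⇑(D.T ^ n) = (⇑D.T)^[n] := fun n => funext fun x => pow_apply D.T n x
  have h1 : Dynamic (chartX r k) (Zgrp S I₀ D.T₀) D.T s :=
    { act := D.grp.action
      comm := zgrp_comm D.T₀.surjective D.homotopic
      smooth := by
        rw [chartX_loc, chartX_dom]
        exact (liftOf_smooth D.hF hlift).1
      smooth' := by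
        rw [chartX_loc, chartX_dom]
        exact (liftOf_smooth D.hF hlift).2
      exp := liftOf_exp D.hF D.hM hlift
      sh := liftOf_sh D.hF D.hM hlift
      uc := (liftOf_uc D.hF hlift).1
      noFix := fun z n q hn hq => EqApp.noFix D.grp MD D.pair z n q hn (by
        rw [← hpow]
        exact hq)
      fin := by
        obtain ⟨B, hB⟩ := EqApp.fin D.grp MD D.pair
        refine ⟨B, fun n hn => ?_⟩
        rw [hpow]
        exact hB n hn
      hyp := fun q hq => by
        obtain ⟨m, hm, hmq, hP, -⟩ := h D.M D.T D.hM hlift q hq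
        exact ⟨m, hm, hmq, hP⟩ }
  refine ⟨s, u, hsu, h1, h1.inverse (liftOf_uc D.hF hlift).2 fun q hq => ?_⟩
  obtain ⟨m, hm, hmq, -, hP⟩ := h D.M D.T D.hM hlift q hq
  exact ⟨m, hm, hmq, hP⟩

include D in
open Classical in
theorem eq_empty (hκ : κ + κ' = k) : I₀ = ∅ := by
  by_contra hne
  obtain ⟨i, hi⟩ := Set.nonempty_iff_ne_empty.2 hne
  have : Nonempty (Fin r) := ⟨i⟩
  have : Nontrivial (ANO.E r k) := inferInstance
  obtain ⟨s, u, hsu, h1, h2⟩ := D.dynamic
  obtain ⟨D2⟩ := D.cfg2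
  obtain ⟨C1⟩ := D2.toCfg.toFunc
  obtain ⟨D3⟩ := D2.inverse
  obtain ⟨C2⟩ := D3.toFunc
  have e1 := finrank_le h1 C1
  have e2 := finrank_le h2 C2
  rw [finrank_E, Fintype.card_fin] at e1 e2
  have e3 : Fintype.card {i : Fin r // i ∉ I₀} < Fintype.card (Fin r) :=
    Fintype.card_subtype_lt (p := fun i => i ∉ I₀) (x := i) (not_not.2 hi)
  rw [Fintype.card_fin] at e3
  omega

end Pool.Agent.ANO2.Dim.Two
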