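import Pool.Agent.ANO2.Dim.Defs

/-!
# The dimension argument: the local stable set (package DIM-CONE)

`E` is a finite-dimensional normed space, `φ : E → E` has the strict derivative `D` at `q`, which is
hyperbolic (`HypLin D P s`).

`cone`: there is `ρ > 0` such that if `φ^[n] y` and `φ^[n] y'` are in `closedBall q ρ` for all `n`
then `‖P (y - y')‖ ≤ ‖(y - y') - P (y - y')‖`.
PROOF.  Let `η > 0` with `2 η (‖P‖ + ‖1 - P‖) ≤ 1 / 2` (or `η = 1 / (4 (2 ‖P‖ + 1))`, since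
`‖e - P e‖ ≤ (1 + ‖P‖) ‖e‖`), and `ρ > 0` with
`‖φ y - φ y' - D (y - y')‖ ≤ η ‖y - y'‖` for `y, y' ∈ closedBall q ρ` (`HasStrictFDerivAt`).
STEP: let `y, y' ∈ closedBall q ρ`, `v = y - y'`, `a = ‖P v‖`, `b = ‖v - P v‖`, `b < a`; `v' = φ y -
φ y'`, `e = v' - D v`, so `‖e‖ ≤ η ‖v‖ ≤ 2 η a`.  `P v' = D (P v) + P e`, so
`‖P v'‖ ≥ 8 a - ‖P‖ 2 η a ≥ 7 a` (`P (P v) = P v`).
`v' - P v' = D (v - P v) + (e - P e)`, so
`‖v' - P v'‖ ≤ b / 8 + (1 + ‖P‖) 2 η a ≤ a ≤ ‖P v'‖ / 7` and it is `< ‖P v'‖` because `a > 0`.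
Suppose `‖P (y - y')‖ > ‖(y - y') - P (y - y')‖` and all iterates are in the ball.  By induction
`‖P (φ^[n] y - φ^[n] y')‖ ≥ 7 ^ n ‖P (y - y')‖`; but it is `≤ ‖P‖ 2 ρ`; contradiction for large `n`.

`dimH_local`: `dimH {y | ∀ n, φ^[n] y ∈ closedBall q ρ} ≤ s`.
PROOF.  Let `S` be this set.  For `y, y' ∈ S`, with `Q = 1 - P`,
`‖y - y'‖ ≤ ‖P (y - y')‖ + ‖Q (y - y')‖ ≤ 2 ‖Q y - Q y'‖`.  So the restriction of `Q` to `S` is
antilipschitz (`AntilipschitzWith 2`) and `dimH S ≤ dimH (Q '' S)`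
(`AntilipschitzWith.le_dimH_image` for the map `fun y : S => Q y` and the set `univ`, and `dimH` of
`univ : Set S` is `dimH S`, `isometry_subtype_coe.dimH_image`).  `Q '' S ⊆ ker P` (`P ∘ P = P`),
`dimH (ker P : Set E) = finrank (ker P) = s` (`isometry_subtype_coe.dimH_image univ`,
`Real.dimH_univ_eq_finrank`), `dimH_mono`.
-/

set_option autoImplicit false

open Set Filter Topology Metric

namespace Pool.Agent.ANO2.Dim

variable {E : Type} [NormedAddCommGroup E] [NormedSpace ℝ E]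

private theorem step_Cone {D P : E →L[ℝ] E} {s : ℕ} (hD : HypLin D P s) {v v' : E}
    (he : ‖v' - D v‖ ≤ 1 / (8 * (‖P‖ + 1)) * ‖v‖) (hv : ‖v - P v‖ < ‖P v‖) :
    7 * ‖P v‖ ≤ ‖P v'‖ ∧ ‖v' - P v'‖ < ‖P v'‖ := by
  have hK : (0 : ℝ) ≤ ‖P‖ := norm_nonneg P
  have ha : 0 < ‖P v‖ := lt_of_le_of_lt (norm_nonneg _) hv
  have hn : ‖v‖ ≤ 2 * ‖P v‖ := by
    have h1 : v = P v + (v - P v) := by abel
    have h2 : ‖v‖ ≤ ‖P v‖ + ‖v - P v‖ := by
      conv_lhs => rw [h1]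
      exact norm_add_le _ _
    linarith
  have hPP : ∀ x, P (P x) = P x := fun x => by
    have := congrArg (fun L : E →L[ℝ] E => L x) hD.proj
    simpa using this
  have hPD : ∀ x, P (D x) = D (P x) := fun x => by
    have := congrArg (fun L : E →L[ℝ] E => L x) hD.comm
    simpa using this
  set e := v' - D v with hedef
  have hv' : v' = D v + e := by rw [hedef]; abel
  have he1 : (‖P‖ + 1) * ‖e‖ ≤ 1 / 4 * ‖P v‖ := by
    have h1 : (‖P‖ + 1) * ‖e‖ ≤ (‖P‖ + 1) * (1 / (8 * (‖P‖ + 1)) * ‖v‖) :=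
      mul_le_mul_of_nonneg_left he (by linarith)
    have h2 : (‖P‖ + 1) * (1 / (8 * (‖P‖ + 1)) * ‖v‖) = 1 / 8 * ‖v‖ := by
      field_simp
    rw [h2] at h1
    linarith
  have he0 : 0 ≤ ‖e‖ := norm_nonneg e
  have hPe : ‖P e‖ ≤ ‖P‖ * ‖e‖ := P.le_opNorm e
  have h1 : P v' = D (P v) + P e := by rw [hv', map_add, hPD]
  have h2 : 8 * ‖P v‖ ≤ ‖D (P v)‖ := hD.unstable _ (hPP v)
  have h3 : ‖D (P v)‖ ≤ ‖P v'‖ + ‖P e‖ := by
    have : D (P v) = P v' - P e := by rw [h1]; abel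
    rw [this]
    exact norm_sub_le _ _
  have h4 : 7 * ‖P v‖ ≤ ‖P v'‖ := by nlinarith
  refine ⟨h4, ?_⟩
  have h5 : v' - P v' = D (v - P v) + (e - P e) := by
    rw [h1, map_sub D, hedef]
    abel
  have h6 : ‖D (v - P v)‖ ≤ 1 / 8 * ‖v - P v‖ := hD.stable _ (by rw [map_sub, hPP, sub_self])
  have h7 : ‖e - P e‖ ≤ ‖e‖ + ‖P e‖ := norm_sub_le _ _
  have h8 : ‖v' - P v'‖ ≤ ‖D (v - P v)‖ + ‖e - P e‖ := by
    rw [h5]
    exact norm_add_le _ _
  nlinarith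

theorem cone {φ : E → E} {D P : E →L[ℝ] E} {q : E} {s : ℕ} (h : HasStrictFDerivAt φ D q)
    (hD : HypLin D P s) : ∃ ρ > 0, ∀ y y' : E, (∀ n : ℕ, φ^[n] y ∈ closedBall q ρ) →
      (∀ n : ℕ, φ^[n] y' ∈ closedBall q ρ) → ‖P (y - y')‖ ≤ ‖(y - y') - P (y - y')‖ := by
  have hK : (0 : ℝ) ≤ ‖P‖ := norm_nonneg P
  have hη : (0 : ℝ) < 1 / (8 * (‖P‖ + 1)) := by positivity
  have h1 := h.isLittleO.def hη
  rw [Metric.eventually_nhds_iff] at h1
  obtain ⟨ε, hε, h2⟩ := h1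
  refine ⟨ε / 2, by positivity, fun y y' hy hy' => ?_⟩
  by_contra hc
  rw [not_le] at hc
  have ha : 0 < ‖P (y - y')‖ := lt_of_le_of_lt (norm_nonneg _) hc
  have key : ∀ n : ℕ, 7 ^ n * ‖P (y - y')‖ ≤ ‖P (φ^[n] y - φ^[n] y')‖ ∧
      ‖(φ^[n] y - φ^[n] y') - P (φ^[n] y - φ^[n] y')‖ < ‖P (φ^[n] y - φ^[n] y')‖ := by
    intro n
    induction n with
    | zero => simpa using hc
    | succ n ih =>
      obtain ⟨i1, i2⟩ := ih
      have h3 : ‖(φ^[n + 1] y - φ^[n + 1] y') - D (φ^[n] y - φ^[n] y')‖ ≤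
          1 / (8 * (‖P‖ + 1)) * ‖φ^[n] y - φ^[n] y'‖ := by
        rw [Function.iterate_succ_apply', Function.iterate_succ_apply']
        refine h2 (y := (φ^[n] y, φ^[n] y')) ?_
        rw [Prod.dist_eq, max_lt_iff]
        have e1 : dist (φ^[n] y) q ≤ ε / 2 := hy n
        have e2 : dist (φ^[n] y') q ≤ ε / 2 := hy' n
        exact ⟨lt_of_le_of_lt e1 (by linarith), lt_of_le_of_lt e2 (by linarith)⟩
      obtain ⟨s1, s2⟩ := step_Cone hD h3 i2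
      refine ⟨?_, s2⟩
      rw [pow_succ]
      calc 7 ^ n * 7 * ‖P (y - y')‖ = 7 * (7 ^ n * ‖P (y - y')‖) := by ring
        _ ≤ 7 * ‖P (φ^[n] y - φ^[n] y')‖ := by linarith
        _ ≤ _ := s1
  obtain ⟨n, hn⟩ := pow_unbounded_of_one_lt (‖P‖ * ε / ‖P (y - y')‖) (by norm_num : (1 : ℝ) < 7)
  have h4 : ‖P (φ^[n] y - φ^[n] y')‖ ≤ ‖P‖ * ε := by
    refine (P.le_opNorm _).trans (mul_le_mul_of_nonneg_left ?_ hK)
    rw [← dist_eq_norm]
    have e1 : dist (φ^[n] y) q ≤ ε / 2 := hy n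
    have e2 : dist (φ^[n] y') q ≤ ε / 2 := hy' n
    have e3 := dist_triangle_right (φ^[n] y) (φ^[n] y') q
    linarith
  rw [div_lt_iff₀ ha] at hn
  linarith [(key n).1]

theorem dimH_local [FiniteDimensional ℝ E] {φ : E → E} {D P : E →L[ℝ] E} {q : E} {s : ℕ}
    (h : HasStrictFDerivAt φ D q) (hD : HypLin D P s) :
    ∃ ρ > 0, dimH {y : E | ∀ n : ℕ, φ^[n] y ∈ closedBall q ρ} ≤ s := by
  obtain ⟨ρ, hρ, hc⟩ := cone h hD
  refine ⟨ρ, hρ, ?_⟩
  set S : Set E := {y : E | ∀ n : ℕ, φ^[n] y ∈ closedBall q ρ} with hS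
  let Q : E → E := fun y => y - P y
  have hanti : AntilipschitzWith 2 (fun y : S => Q y) := by
    refine AntilipschitzWith.of_le_mul_dist fun y y' => ?_
    have h1 := hc y.1 y'.1 y.2 y'.2
    have h2 : Q y.1 - Q y'.1 = (y.1 - y'.1) - P (y.1 - y'.1) := by
      simp only [Q, map_sub]
      abel
    rw [Subtype.dist_eq, dist_eq_norm, dist_eq_norm, h2]
    have h3 : y.1 - y'.1 = P (y.1 - y'.1) + ((y.1 - y'.1) - P (y.1 - y'.1)) := by abel
    have h4 : ‖y.1 - y'.1‖ ≤ ‖P (y.1 - y'.1)‖ + ‖(y.1 - y'.1) - P (y.1 - y'.1)‖ := by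
      conv_lhs => rw [h3]
      exact norm_add_le _ _
    push_cast
    linarith
  have h1 : dimH S ≤ dimH ((fun y : S => Q y) '' univ) := by
    have e1 := hanti.le_dimH_image (univ : Set S)
    have e2 : dimH (univ : Set S) = dimH S := by
      rw [← isometry_subtype_coe.dimH_image (univ : Set S), image_univ, Subtype.range_coe]
    rwa [e2] at e1
  have hPP : ∀ x, P (P x) = P x := fun x => by
    have := congrArg (fun L : E →L[ℝ] E => L x) hD.proj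
    simpa using this
  have h2 : (fun y : S => Q y) '' univ ⊆ (LinearMap.ker P.toLinearMap : Set E) := by
    rintro _ ⟨y, _, rfl⟩
    change P (y.1 - P y.1) = 0
    rw [map_sub, hPP, sub_self]
  have h3 : dimH ((LinearMap.ker P.toLinearMap : Submodule ℝ E) : Set E) = s := by
    have e1 := isometry_subtype_coe.dimH_image
      (univ : Set (LinearMap.ker P.toLinearMap : Submodule ℝ E))
    rw [image_univ, Subtype.range_coe] at e1
    refine e1.trans ?_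
    rw [Real.dimH_univ_eq_finrank, hD.rank]
  exact h1.trans ((dimH_mono h2).trans h3.le)

end Pool.Agent.ANO2.Dim
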