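import Pool.Agent.ANO2.EqIdx.Defs
import Pool.Agent.ANO.Dyn.Defs

/-!
# The dimension argument: definitions

`MP_5e77d9_an`, blueprint `/team-store/ANO_Phase2.md`, section 5.

`X` is a proper metric space with a global chart `C : X → E` (`EqIdx.Chart`), `Z` is a group which
acts on `X` (`EqIdx.Action`), `T : X ≃ₜ X` commutes with `Z`.

* `Dynamic C Z T s`: `T` is a `C¹` diffeomorphism, expansive, with the shadowing property,
  `z T ^ n` has no fixed point for `z ≠ 1`, `n > 0`, the number of `Z`-orbits of fixed points of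
  `T ^ n` is bounded, and `T` is hyperbolic at its periodic points, with `s`-dimensional stable
  space.
* `Func C Z T ι κ`: functions `f i`, `i : ι`, and `g : X → κ → ℝ`, which `T` expands up to a bounded
  error, such that a point along whose forward orbit they are bounded has a forward orbit which is
  precompact modulo `Z`, and discs of dimension `|ι| + |κ|` in the unstable directions of the
  functions.

The main theorem (`Main.lean`): `dim E ≤ s + |ι| + |κ|`.

Proof: `W = Wb Z T`, the set of points with forward orbit precompact modulo `Z`.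
* `Sig.lean`, `Tor.lean`: `σ i = lim (L i)⁻ⁿ f i ∘ T ^ n`, `G = lim B ^ n (g ∘ T ^ n)` on `{σ = 0}`.
* `Disc.lean`, `Meet.lean`: every small translate of the disc contains a point with `σ = 0` and
  `G = 0`, so a point of `W` (theorem of Poincaré and Miranda, Tietze extension).
* `Close.lean`, `PerA.lean`, `Limit.lean`: `W` is the union of the stable sets of the periodic
  points (closing lemma).
* `Cone.lean`, `Stable.lean`: the stable set of a periodic point has Hausdorff dimension `≤ s`.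
* `Proj.lean`, `Main.lean`: the projection of `W` along the directions of the disc contains an open
  set.
-/

set_option autoImplicit false

open Set Filter Topology
open Pool.Agent.ANO2.EqIdx Pool.Agent.ANO.Dyn

namespace Pool.Agent.ANO2.Dim

/-- The cube `[-1, 1] ^ n`. -/
def cube (n : Type) : Set (n → ℝ) := {y | ∀ i, |y i| ≤ 1}

variable {X E : Type} [MetricSpace X] [NormedAddCommGroup E] [NormedSpace ℝ E]

/-- The periodic points of `T`. -/
def Per (T : X ≃ₜ X) : Set X := {q | ∃ n : ℕ, 0 < n ∧ (T ^ n) q = q}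

/-- The stable set of `q`. -/
def Ws (T : X ≃ₜ X) (q : X) : Set X :=
  {x | Tendsto (fun n : ℕ => dist ((T ^ n) x) ((T ^ n) q)) atTop (𝓝 0)}

/-- The points whose forward orbit is precompact modulo `Z`. -/
def Wb (Z : Type) [Group Z] [MulAction Z X] (T : X ≃ₜ X) : Set X :=
  {x | ∃ K, IsCompact K ∧ ∀ n : ℕ, (T ^ n) x ∈ sat Z K}

/-- The linear map `D` is hyperbolic, `P` is the projection to its unstable space, and the
dimension of its stable space is `s`. -/
structure HypLin (D P : E →L[ℝ] E) (s : ℕ) : Prop where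
  proj : P ∘L P = P
  comm : P ∘L D = D ∘L P
  stable : ∀ v, P v = 0 → ‖D v‖ ≤ 1 / 8 * ‖v‖
  unstable : ∀ v, P v = v → 8 * ‖v‖ ≤ ‖D v‖
  rank : Module.finrank ℝ (LinearMap.ker P.toLinearMap) = s

/-- The dynamical hypotheses. -/
structure Dynamic (C : Chart X E) (Z : Type) [Group Z] [MulAction Z X] (T : X ≃ₜ X) (s : ℕ) :
    Prop where
  act : Action C Z
  comm : ∀ (z : Z) (x : X), T (z • x) = z • T x
  smooth : ContDiffOn ℝ 1 (C.loc T) C.dom
  smooth' : ContDiffOn ℝ 1 (C.loc T.symm) C.dom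
  exp : Expansive T
  sh : Shadowing T
  uc : UniformContinuous T
  noFix : ∀ (z : Z) (n : ℕ) (q : X), 0 < n → z • (T ^ n) q = q → z = 1
  fin : ∃ B : ℕ, ∀ n : ℕ, 0 < n → (fixOrb Z ⇑(T ^ n)).encard ≤ B
  hyp : ∀ q ∈ Per T, ∃ m : ℕ, 0 < m ∧ (T ^ m) q = q ∧
    ∃ P : E →L[ℝ] E, HypLin (fderiv ℝ (C.loc ⇑(T ^ m)) (C.toE q)) P s

/-- The functions which are expanded by `T` up to a bounded error. -/
structure Func (C : Chart X E) (Z : Type) [Group Z] [MulAction Z X] (T : X ≃ₜ X)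
    (ι κ : Type) [Fintype ι] [Fintype κ] where
  f : ι → X → ℝ
  cont_f : ∀ i, Continuous (f i)
  L : ι → ℝ
  one_lt : ∀ i, 1 < L i
  c : ℝ
  est : ∀ i x, |f i (T x) - L i * f i x| ≤ c
  g : X → κ → ℝ
  cont_g : Continuous g
  B : (κ → ℝ) →L[ℝ] (κ → ℝ)
  inj : Function.Injective B
  a : ℝ
  θ : ℝ
  θ_nonneg : 0 ≤ θ
  θ_lt : θ < 1
  pow_le : ∀ n : ℕ, ‖B ^ n‖ ≤ a * θ ^ n
  pre : ∀ (x : X) (R : ℝ), (∀ (i : ι) (n : ℕ), |f i ((T ^ n) x)| ≤ R) →
    (∀ n : ℕ, ‖g ((T ^ n) x)‖ ≤ R) → x ∈ Wb Z T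
  disc : ∀ R₁ : ℝ, ∃ c : ℝ, ∀ R₂ : ℝ, ∃ (M : (ι ⊕ κ → ℝ) →L[ℝ] E) (b : E), ∀ᶠ v in 𝓝 (0 : E),
    ∀ y ∈ cube (ι ⊕ κ), b + v + M y ∈ C.dom ∧
      (∀ i, (y (Sum.inl i) = -1 → f i (C.ofE (b + v + M y)) < -R₁) ∧
        (y (Sum.inl i) = 1 → R₁ < f i (C.ofE (b + v + M y)))) ∧
      (∀ j, (y (Sum.inr j) = -1 → g (C.ofE (b + v + M y)) j < -R₂) ∧
        (y (Sum.inr j) = 1 → R₂ < g (C.ofE (b + v + M y)) j)) ∧
      ((∀ (i : ι) (n : ℕ), |f i ((T ^ n) (C.ofE (b + v + M y)))| ≤ R₁) → ∀ n : ℕ,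
        ‖B (g ((T ^ (n + 1)) (C.ofE (b + v + M y)))) - g ((T ^ n) (C.ofE (b + v + M y)))‖ ≤ c)

theorem pow_apply (T : X ≃ₜ X) (n : ℕ) (x : X) : (T ^ n) x = T^[n] x := by
  induction n generalizing x with
  | zero => rfl
  | succ n ih =>
    rw [pow_succ, Function.iterate_succ_apply, ← ih]
    rfl

end Pool.Agent.ANO2.Dim
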