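import Pool.Agent.ANO2.Dim.Defs
import Pool.Agent.Expand.PM

/-!
# The dimension argument: zeros on the cube (package DIM-DISC)

`zero_of_cube`: the theorem of Poincaré and Miranda (`Pool.Agent.Expand.poincare_miranda`, cubes in
`EuclideanSpace ℝ (Fin n)`), for a cube indexed by any finite type.  Proof: let
`e : n ≃ Fin (card n)` (`Fintype.equivFin`); apply `poincare_miranda` with `a = 0`, `s = 1` to
`F' x j = F (fun i => x (e i)) (e.symm j)`.

`zero_of_cube'`.  `F` is defined and continuous on the cube; `G` is defined and continuous only on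
`S = {y ∈ cube | F y = 0}` (a closed set), with `‖G y - g y‖ ≤ R` there.
PROOF.  `cube n` is closed and `S` is closed (`ContinuousOn.preimage_isClosed_of_isClosed`).  For
each `j` the function `y ↦ G y j - g y j` on `S` is continuous with values in `[-R, R]`
(`norm_le_pi_norm`); the theorem of Tietze (`ContinuousMap.exists_restrict_eq_forall_mem_of_closed`)
gives `u j : C(ι ⊕ κ → ℝ, ℝ)` with values in `[-R, R]` which is equal to it on `S`.  Put
`H y (inl i) = F y i`, `H y (inr j) = g y j + u j y`.  It is continuous on the cube; if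
`y (inr j) = -1` then `H y (inr j) < -R + R = 0`, and if `y (inr j) = 1` then `H y (inr j) > 0`.
`zero_of_cube` gives `y` in the cube with `H y = 0`: so `F y = 0`, `y ∈ S`, and
`G y j = g y j + u j y = 0`.
-/

set_option autoImplicit false

open Set Filter Topology

namespace Pool.Agent.ANO2.Dim

theorem isCompact_cube (n : Type) [Fintype n] : IsCompact (cube n) := by
  have h : cube n = Set.univ.pi (fun _ : n => Set.Icc (-1 : ℝ) 1) := by
    ext y
    simp only [cube, Set.mem_ofPred_eq, Set.mem_univ_pi, Set.mem_Icc, abs_le]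
  rw [h]
  exact isCompact_univ_pi fun _ => isCompact_Icc

theorem zero_of_cube {n : Type} [Fintype n] (F : (n → ℝ) → n → ℝ) (hF : ContinuousOn F (cube n))
    (hneg : ∀ y ∈ cube n, ∀ i, y i = -1 → F y i < 0)
    (hpos : ∀ y ∈ cube n, ∀ i, y i = 1 → 0 < F y i) : ∃ y ∈ cube n, F y = 0 := by
  classical
  set e : n ≃ Fin (Fintype.card n) := Fintype.equivFin n with he
  have hmem : ∀ x : EuclideanSpace ℝ (Fin (Fintype.card n)),
      (∀ i, |x i - (0 : EuclideanSpace ℝ (Fin (Fintype.card n))) i| ≤ 1) →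
        (fun i : n => x (e i)) ∈ cube n := by
    intro x hx i
    simpa using hx (e i)
  have hcont : ContinuousOn (fun (x : EuclideanSpace ℝ (Fin (Fintype.card n)))
      (j : Fin (Fintype.card n)) => F (fun i => x (e i)) (e.symm j)) {x | ∀ i, |x i -
          (0 : EuclideanSpace ℝ (Fin (Fintype.card n))) i| ≤ 1} := by
    have h1 : ContinuousOn (fun x : EuclideanSpace ℝ (Fin (Fintype.card n)) =>
        F (fun i => x (e i))) {x | ∀ i, |x i -
          (0 : EuclideanSpace ℝ (Fin (Fintype.card n))) i| ≤ 1} := by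
      refine hF.comp (Continuous.continuousOn ?_) fun x hx => hmem x hx
      exact continuous_pi fun i => by fun_prop
    refine continuousOn_pi.2 fun j => ?_
    exact (continuousOn_pi.1 h1) (e.symm j)
  have hneg' : ∀ x : EuclideanSpace ℝ (Fin (Fintype.card n)),
      (∀ i, |x i - (0 : EuclideanSpace ℝ (Fin (Fintype.card n))) i| ≤ 1) →
      ∀ i, x i = (0 : EuclideanSpace ℝ (Fin (Fintype.card n))) i - 1 →
        F (fun i => x (e i)) (e.symm i) < 0 := by
    intro x hx i hi
    refine hneg _ (hmem x hx) (e.symm i) ?_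
    simpa using hi
  have hpos' : ∀ x : EuclideanSpace ℝ (Fin (Fintype.card n)),
      (∀ i, |x i - (0 : EuclideanSpace ℝ (Fin (Fintype.card n))) i| ≤ 1) →
      ∀ i, x i = (0 : EuclideanSpace ℝ (Fin (Fintype.card n))) i + 1 →
        0 < F (fun i => x (e i)) (e.symm i) := by
    intro x hx i hi
    refine hpos _ (hmem x hx) (e.symm i) ?_
    simpa using hi
  obtain ⟨x, hx, hx0⟩ := Pool.Agent.Expand.poincare_miranda
    (0 : EuclideanSpace ℝ (Fin (Fintype.card n))) 1 one_pos
    (fun x j => F (fun i => x (e i)) (e.symm j)) hcont hneg' hpos'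
  refine ⟨fun i => x (e i), hmem x hx, ?_⟩
  funext i
  have := congrFun hx0 (e i)
  simpa using this

theorem zero_of_cube' {ι κ : Type} [Fintype ι] [Fintype κ] (F : (ι ⊕ κ → ℝ) → ι → ℝ)
    (g G : (ι ⊕ κ → ℝ) → κ → ℝ) (hF : ContinuousOn F (cube (ι ⊕ κ)))
    (hg : ContinuousOn g (cube (ι ⊕ κ))) (hG : ContinuousOn G {y ∈ cube (ι ⊕ κ) | F y = 0}) {R : ℝ}
    (hR : 0 ≤ R) (hgG : ∀ y ∈ cube (ι ⊕ κ), F y = 0 → ‖G y - g y‖ ≤ R)
    (h1 : ∀ y ∈ cube (ι ⊕ κ), ∀ i, y (Sum.inl i) = -1 → F y i < 0)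
    (h2 : ∀ y ∈ cube (ι ⊕ κ), ∀ i, y (Sum.inl i) = 1 → 0 < F y i)
    (h3 : ∀ y ∈ cube (ι ⊕ κ), ∀ j, y (Sum.inr j) = -1 → g y j < -R)
    (h4 : ∀ y ∈ cube (ι ⊕ κ), ∀ j, y (Sum.inr j) = 1 → R < g y j) :
    ∃ y ∈ cube (ι ⊕ κ), F y = 0 ∧ G y = 0 := by
  classical
  set S : Set (ι ⊕ κ → ℝ) := {y ∈ cube (ι ⊕ κ) | F y = 0} with hS
  have hSc : IsClosed S := by
    have : S = cube (ι ⊕ κ) ∩ F ⁻¹' {0} := by
      ext y
      simp [hS]
    rw [this]
    exact hF.preimage_isClosed_of_isClosed (isCompact_cube _).isClosed isClosed_singleton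
  have hgS : ContinuousOn g S := hg.mono fun y hy => hy.1
  -- the extensions
  have hu : ∀ j : κ, ∃ u : C(ι ⊕ κ → ℝ, ℝ), (∀ y, u y ∈ Set.Icc (-R) R) ∧
      ∀ y ∈ S, u y = G y j - g y j := by
    intro j
    have hc : Continuous fun y : S => G y j - g y j := by
      have h5 : ContinuousOn (fun y => G y j - g y j) S :=
        (continuousOn_pi.1 hG j).sub (continuousOn_pi.1 hgS j)
      exact continuousOn_iff_continuous_domRestrict.1 h5
    obtain ⟨u, hu1, hu2⟩ := ContinuousMap.exists_restrict_eq_forall_mem_of_closed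
      (s := S) (⟨_, hc⟩ : C(S, ℝ)) (t := Set.Icc (-R) R)
      (fun y => by
        have h6 := (norm_le_pi_norm (G y - g y) j).trans (hgG y y.2.1 y.2.2)
        rw [Real.norm_eq_abs, abs_le, Pi.sub_apply] at h6
        exact ⟨h6.1, h6.2⟩) ⟨0, by constructor <;> linarith⟩ hSc
    refine ⟨u, hu1, fun y hy => ?_⟩
    have h7 := congrArg (fun v : C(S, ℝ) => v ⟨y, hy⟩) hu2
    simpa using h7
  choose u hu1 hu2 using hu
  have hcont : ContinuousOn (fun y => Sum.elim (F y) (fun j => g y j + u j y))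
      (cube (ι ⊕ κ)) := by
    refine continuousOn_pi.2 fun k => ?_
    rcases k with i | j
    · simpa using continuousOn_pi.1 hF i
    · have h11 : ContinuousOn (fun y => g y j + u j y) (cube (ι ⊕ κ)) :=
        (continuousOn_pi.1 hg j).add (u j).continuous.continuousOn
      simpa using h11
  have hn : ∀ y ∈ cube (ι ⊕ κ), ∀ k, y k = -1 →
      Sum.elim (F y) (fun j => g y j + u j y) k < 0 := by
    intro y hy k hk
    rcases k with i | j
    · simpa using h1 y hy i hk
    · have h9 := h3 y hy j hk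
      have h10 := (hu1 j y).2
      simp only [Sum.elim_inr]
      linarith
  have hp : ∀ y ∈ cube (ι ⊕ κ), ∀ k, y k = 1 →
      0 < Sum.elim (F y) (fun j => g y j + u j y) k := by
    intro y hy k hk
    rcases k with i | j
    · simpa using h2 y hy i hk
    · have h9 := h4 y hy j hk
      have h10 := (hu1 j y).1
      simp only [Sum.elim_inr]
      linarith
  obtain ⟨y, hy, hy0⟩ := zero_of_cube (n := ι ⊕ κ)
    (fun y => Sum.elim (F y) (fun j => g y j + u j y)) hcont hn hp
  have hFy : F y = 0 := by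
    funext i
    have := congrFun hy0 (Sum.inl i)
    simpa using this
  refine ⟨y, hy, hFy, ?_⟩
  funext j
  have h8 := congrFun hy0 (Sum.inr j)
  simp only [Sum.elim_inr, Pi.zero_apply] at h8
  rw [hu2 j y ⟨hy, hFy⟩] at h8
  rw [Pi.zero_apply]
  linarith

end Pool.Agent.ANO2.Dim
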