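import Pool.Agent.ANO2.Dim.PALoc
import Pool.Agent.ANO2.Cone.Dense
import Pool.Agent.ANO2.Geo2.SurfC

/-!
# A pseudo-Anosov surface map has a lift of a power as in `PALoc` (package DIM-PADIM)

* `side_lift_symm`: the analogue of `Geo2.side_lift` (`Geo2/SurfC.lean`, read it) for `dS`.  PROOF.
  As there `lift_aff` gives `Aff (qd h.quad) φ φ' (l ^ m)` with `φ = lift H`, and `fixReg_sq` a
  `FixReg` of `φ ∘ φ` with the factor `l ^ m * l ^ m`.  The inverse map `φ' ∘ φ'` is affine with the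
  factor `(l ^ m * l ^ m)⁻¹ < 1` (`Aff` symmetric in the two maps: look for `Aff.symm` in
  `Geo2/AffA.lean`, `AffB.lean`, or prove it) and has the `FixReg` with this factor (apply the
  inverse map to the formula `D (φ (φ z)) = str .. (D z)`); `side_hor` for it gives `S` with
  `S (φ' (φ' z)) = l ^ (2 m) * S z`, `|S z - S z'| ≤ ds`, `|S z| = ds z w`, both signs.
  Alternatively apply `side` to the quadratic differential `-q` and the inverse map.
  Continuity as in `side_lift` with `continuous_dS`.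
* `paDim`: `Cone.dense_regular` gives `w`, `m`, `H` with `q w ≠ 0`, `H` a lift of `f^m`, regular.
  `H z = γ • f^[m] z` is a homeomorphism `H'` (composition of `S.f ^ m` and of the homeomorphism
  `z ↦ γ • z`).  Take `2 * m` and `H' * H'` (so `⇑(H' * H') = H ∘ H`), `l ^ (2 * m)`, `dU`, `dS` of
  `Geo2/SurfB.lean` (`dU_f`, `dS_f` iterated, `dU_inv`, `dS_inv`; `upper`, `proper`,
  `eq_of_dU_dS`), `su` from `side_lift`, `ss` from `side_lift_symm`.
  `reg`: `(H ∘ H)^[j] = H^[2 * j]`.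
-/

set_option autoImplicit false

open Set Filter Topology
open Pool.Agent.ANO
open scoped UpperHalfPlane MatrixGroups

namespace Pool.Agent.ANO2.Dim

open Pool.Agent.ANO2.Geo2

/-- A lift of a power of the surface map as in `PALoc`. -/
structure PADim (S : SurfaceMap) where
  m : ℕ
  m_pos : 0 < m
  H : ℍ ≃ₜ ℍ
  lift : IsLift S m H
  w : ℍ
  pa : PALoc H w

private theorem str_cancel_PADim {l : ℝ} (hl : l ≠ 0) (z : ℂ) : str l⁻¹ (str l z) = z := by
  apply Complex.ext
  · simp only [str]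
    rw [← mul_assoc, inv_mul_cancel₀ hl, one_mul]
  · simp only [str]
    rw [inv_inv, ← mul_assoc, mul_inv_cancel₀ hl, one_mul]

/-- The inverse of an affine map with a regular fixed point. -/
theorem fixReg_symm_PADim {Q : QD} {φ φ' : ℂ → ℂ} {l : ℝ} (h : Aff Q φ φ' l) {w : ℂ}
    (hw : FixReg Q φ l w) : FixReg Q φ' l⁻¹ w := by
  obtain ⟨hwU, hq, hfix, D, hD, hD0, hDq, hDφ⟩ := hw
  have hfix' : φ' w = w := by
    have h1 := h.left w hwU
    rwa [hfix] at h1
  have hcont : Tendsto φ' (𝓝 w) (𝓝 w) := by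
    have h2 : ContinuousAt φ' w := h.cont'.continuousAt (Q.isOpen.mem_nhds hwU)
    have h3 : Tendsto φ' (𝓝 w) (𝓝 (φ' w)) := h2
    rwa [hfix'] at h3
  refine ⟨hwU, hq, hfix', D, hD, hD0, hDq, ?_⟩
  filter_upwards [hcont.eventually hDφ, Q.isOpen.mem_nhds hwU] with z h1 hz
  rw [h.right z hz] at h1
  rw [h1, str_cancel_PADim h.pos.ne']

theorem side_lift_symm {S : SurfaceMap} {q : ℂ → ℂ} {l : ℝ} (h : IsPA S q l) {m : ℕ}
    (hm : 0 < m) {H : ℍ → ℍ} (hH : IsLift S m H) {w : ℍ} (hw : H w = w) (hq : q w ≠ 0) :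
    ∃ s : ℍ → ℝ, Continuous s ∧ (∀ z, l ^ (2 * m) * s (H (H z)) = s z) ∧
      (∀ z z', |s z - s z'| ≤ dS h.quad z z') ∧ (∀ z, |s z| = dS h.quad z w) ∧
      (∃ z, 0 < s z) ∧ ∃ z, s z < 0 := by
  obtain ⟨γ, hγ, hH1⟩ := hH
  obtain rfl : H = fun z => γ • S.f^[m] z := funext hH1
  have A := lift_aff h (n := m) hγ
  have hwl : lift (fun z => γ • S.f^[m] z) (w : ℂ) = w := by
    rw [lift_coe]
    exact congrArg _ hw
  have hF := fixReg_sq A (mem_qd h.quad w) hq hwl
  have hl1 : 1 < l ^ m * l ^ m := by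
    have h2 : 1 < l ^ m := one_lt_pow₀ h.one_lt hm.ne'
    nlinarith
  have hl2 : (l ^ m * l ^ m)⁻¹ < 1 := inv_lt_one_of_one_lt₀ hl1
  obtain ⟨S0, s1, s2, s3, s4, s5⟩ := side_hor (proper_qd h.quad) (A.comp A).symm hl2
    (fixReg_symm_PADim (A.comp A) hF)
  have hlip : ∀ z z' : ℍ, |S0 z - S0 z'| ≤ dS h.quad z z' := fun z z' =>
    s2 z (mem_qd h.quad z) z' (mem_qd h.quad z')
  refine ⟨fun z => S0 z, ?_, ?_, hlip, fun z => s3 z (mem_qd h.quad z), ?_, ?_⟩
  · rw [continuous_iff_continuousAt]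
    intro z0
    have h2 : Tendsto (fun z : ℍ => dS h.quad z z0) (𝓝 z0) (𝓝 (dS h.quad z0 z0)) := by
      have h3 : Continuous fun z : ℍ => dS h.quad z z0 :=
        (continuous_dS h.quad).comp (continuous_id.prodMk continuous_const)
      exact h3.tendsto z0
    have h4 : dS h.quad z0 z0 = 0 :=
      le_antisymm (ds_le (Joins.refl (mem_qd h.quad z0))) (dS_nonneg h.quad z0 z0)
    rw [h4] at h2
    change Tendsto (fun z : ℍ => S0 z) (𝓝 z0) (𝓝 (S0 z0))
    rw [tendsto_iff_dist_tendsto_zero]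
    refine squeeze_zero (fun z => dist_nonneg) (fun z => ?_) h2
    rw [Real.dist_eq]
    exact hlip z z0
  · intro z
    have h2 := s1 _ ((A.comp A).maps (mem_qd h.quad z))
    rw [(A.comp A).left _ (mem_qd h.quad z), inv_inv, Function.comp_apply, lift_coe,
      lift_coe] at h2
    rw [two_mul, pow_add]
    exact h2.symm
  · obtain ⟨z, hz, h2⟩ := s4
    exact ⟨⟨z, hz⟩, h2⟩
  · obtain ⟨z, hz, h2⟩ := s5
    exact ⟨⟨z, hz⟩, h2⟩

theorem paDim {S : SurfaceMap} {q : ℂ → ℂ} {l : ℝ} (h : IsPA S q l) : Nonempty (PADim S) := by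
  obtain ⟨w, -, hq, m, H, hm, hH, hreg⟩ := Cone.dense_regular h isOpen_univ univ_nonempty
  obtain ⟨e, he⟩ := Cone.isLift_homeo hH
  obtain rfl : H = e := funext fun z => (he z).symm
  have hw : e w = w := (hreg 1 one_pos).1
  obtain ⟨φ', A⟩ := Cone.isLift_aff h hH
  have B := A.comp A
  have hl1 : 1 < l ^ (2 * m) := one_lt_pow₀ h.one_lt (by omega)
  have hpow : l ^ m * l ^ m = l ^ (2 * m) := by rw [two_mul, pow_add]
  rw [hpow] at B
  have hdu : ∀ a b : ℍ, dU h.quad (e (e a)) (e (e b)) = l ^ (2 * m) * dU h.quad a b := by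
    intro a b
    have h1 := B.du (mem_qd h.quad a) (mem_qd h.quad b)
    rw [Function.comp_apply, Function.comp_apply, lift_coe, lift_coe, lift_coe, lift_coe] at h1
    exact h1
  have hds : ∀ a b : ℍ, l ^ (2 * m) * dS h.quad (e (e a)) (e (e b)) = dS h.quad a b := by
    intro a b
    have h1 := B.ds (mem_qd h.quad a) (mem_qd h.quad b)
    rw [Function.comp_apply, Function.comp_apply, lift_coe, lift_coe, lift_coe, lift_coe] at h1
    have h2 : dS h.quad (e (e a)) (e (e b)) = (l ^ (2 * m))⁻¹ * dS h.quad a b := h1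
    rw [h2, mul_inv_cancel_left₀ (zero_lt_one.trans hl1).ne']
  obtain ⟨su, u1, u2, u3, u4, u5, u6⟩ := side_lift h hm hH hw hq
  obtain ⟨ss, v1, v2, v3, v4, v5, v6⟩ := side_lift_symm h hm hH hw hq
  have hL : IsLift S (2 * m) ⇑(e * e) := by
    have h1 : IsLift S (m + m) (⇑e ∘ ⇑e) := Cone.isLift_comp hH hH
    rw [two_mul]
    exact h1
  have hR : ∀ j : ℕ, 0 < j → RegFixed w (⇑(e * e))^[j] := by
    intro j hj
    have h1 := hreg (2 * j) (by omega)
    rw [Function.iterate_mul] at h1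
    exact h1
  exact ⟨{
    m := 2 * m
    m_pos := by omega
    H := e * e
    lift := hL
    w := w
    pa := {
      l := l ^ (2 * m)
      one_lt := hl1
      reg := hR
      du := dU h.quad
      ds := dS h.quad
      du_nonneg := dU_nonneg h.quad
      ds_nonneg := dS_nonneg h.quad
      du_symm := dU_symm h.quad
      ds_symm := dS_symm h.quad
      du_triangle := dU_triangle h.quad
      ds_triangle := dS_triangle h.quad
      du_H := hdu
      ds_H := hds
      upper := upper h.quad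
      proper := Geo2.proper h.quad
      eq_of_zero := fun _ _ h1 h2 => eq_of_dU_dS h.quad h1 h2
      su := su
      ss := ss
      su_cont := u1
      ss_cont := v1
      su_H := u2
      ss_H := v2
      su_le := u3
      ss_le := v3
      su_eq := u4
      ss_eq := v4
      su_pos := u5
      su_neg := u6
      ss_pos := v5
      ss_neg := v6 } }⟩

end Pool.Agent.ANO2.Dim
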