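import Pool.Agent.ANO2.Dim.Two
import Pool.Agent.ANO2.Dim.PADim
import Pool.Agent.ANO2.Prod.Local

/-!
# Existence of the two lifts (package DIM-EXIST)

PROOF of `exists_two`.  For `i ∉ I₀` let `D i : PADim (S i)`.  Put `m i = 1`, `H' i = id` for
`i ∈ I₀` and `m i = (D i).m`, `H' i = (D i).H` for `i ∉ I₀`.  All `H' i` are lifts of `f_i ^ (m i)`:
for `i ∈ I₀`, `f_i z = γ • z`, so `z = γ⁻¹ • f_i z`.  By `exists_lifts` (`Prod/Local.lean`, `c = 1`)
there are `e i > 0` such that `(H' i)^[e i]` is a lift of `f_i ^ M₀`, `M₀ = ∏ m i`.  Put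
`H i = H' i ^ e i` (homeomorphisms; `PALoc.pow`), `H i = id` for `i ∈ I₀`.
`lift_prod` (`Prod/Lifts.lean`, `v = 0`) gives a deck transformation `g` with
`g (model^[M₀] p) = (H i (p.1 i), (model^[M₀] p).2)`.
`G₀ = model^[M₀]`, `T₀ = g ∘ G₀`, `M = n * M₀`, `T = g ∘ F ^ M` as homeomorphisms (`modelHomeo`,
`coe_modelHomeo_pow` in `Prod/Model.lean`; `IsDeck.exists_mem` in `Prod/Deck.lean`).
`hom`: `Homotopic.pow`.  Normal form: `A' = A ^ M₀`, `B = (matCLE A _) ^ M₀`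
(`B v = (A ^ M₀) v` by induction), `β z = (model^[M₀] (z, 0)).2`, `form` by `model_snd`,
`w i = (D i).w` for `i ∉ I₀` (`I` for `i ∈ I₀`), `hyp` by `Pool.Agent.ANO.Idx.hyperbolic_pow`
(compare `exists_form` in `Prod/Lifts.lean`), `twist`: the homotopy `hom` for the deck
transformation `deckIso γ 0` gives `g' = deckIso γ' v'` with
`model^[M₀] (γ z, 0) = g' (model^[M₀] (z, 0))`; take the torus coordinate.
`split`: `exists_split` and `LinSplit.pow`.  `hyp` of `Two`: `B^[j] = A ^ (M₀ j)`.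

`dimStatement`: `exists_two` and `Two.eq_empty`.
-/

set_option autoImplicit false

open Set Filter Topology
open Pool.Agent.ANO
open scoped UpperHalfPlane MatrixGroups

namespace Pool.Agent.ANO2.Dim

variable {r k : ℕ}

private theorem map_pow_Exist (A : Matrix (Fin k) (Fin k) ℤ) (n : ℕ) :
    (A ^ n).map (Int.cast : ℤ → ℝ) = (A.map (Int.cast : ℤ → ℝ)) ^ n :=
  map_pow (Int.castRingHom ℝ).mapMatrix A n

private theorem matCLE_pow_Exist (A : Matrix (Fin k) (Fin k) ℤ) (hA : IsUnit A.det) (n : ℕ)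
    (v : Fin k → ℝ) :
    (matCLE A hA ^ n) v = ((A ^ n).map (Int.cast : ℤ → ℝ)).mulVec v := by
  induction n generalizing v with
  | zero =>
    rw [map_pow_Exist, pow_zero, pow_zero, Matrix.one_mulVec]
    rfl
  | succ n ih =>
    have h1 : (matCLE A hA ^ (n + 1)) v = (matCLE A hA ^ n) (matCLE A hA v) := by
      rw [pow_succ]
      rfl
    rw [h1, ih, matCLE_apply, Matrix.mulVec_mulVec, map_pow_Exist, map_pow_Exist, ← pow_succ]

private theorem iterate_Exist (A : Matrix (Fin k) (Fin k) ℤ) (hA : IsUnit A.det) (M j : ℕ)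
    (v : Fin k → ℝ) : (⇑(matCLE A hA ^ M))^[j] v = (matCLE A hA ^ (M * j)) v := by
  induction j generalizing v with
  | zero =>
    rw [mul_zero, pow_zero]
    rfl
  | succ j ih =>
    rw [Function.iterate_succ_apply, ih, mul_add, mul_one, pow_add]
    rfl

theorem exists_two (S : Fin r → SurfaceMap) (I₀ : Set (Fin r)) (hin : ∀ i ∈ I₀, IsInner (S i))
    (hpa : ∀ i ∉ I₀, Nonempty (PADim (S i))) (A : Matrix (Fin k) (Fin k) ℤ)
    (hA : IsHyperbolicMatrix A) (τ : (Fin r → ℍ) → (Fin k → ℝ)) (hτ : IsTwist (surf S) τ)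
    (F : ANO.X r k ≃ₜ ANO.X r k) (hF : IsAnosovLift (surf S) F) (n : ℕ) (hn : 0 < n)
    (hh : Homotopic (surf S) (model S A τ) (F ^ n : ANO.X r k ≃ₜ ANO.X r k)) :
    ∃ κ κ' : ℕ, κ + κ' = k ∧ Nonempty (Two (surf S) I₀ k κ κ') := by
  classical
  have hdata : ∀ i, ∃ (m : ℕ) (H : ℍ ≃ₜ ℍ) (w : ℍ), 0 < m ∧ IsLift (S i) m H ∧
      (i ∈ I₀ → ∀ z, H z = z) ∧ (i ∉ I₀ → Nonempty (PALoc H w)) := by
    intro i
    by_cases hi : i ∈ I₀
    · obtain ⟨γ, hγ, h⟩ := hin i hi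
      refine ⟨1, Homeomorph.refl ℍ, UpperHalfPlane.I, Nat.one_pos,
        ⟨γ⁻¹, (S i).Γ.inv_mem hγ, fun z => ?_⟩, fun _ z => rfl, fun h => absurd hi h⟩
      change z = γ⁻¹ • (S i).f z
      rw [h, inv_smul_smul]
    · obtain ⟨D⟩ := hpa i hi
      exact ⟨D.m, D.H, D.w, D.m_pos, D.lift, fun h => absurd h hi, fun _ => ⟨D.pa⟩⟩
  choose m H' w hm hlift hid hpa' using hdata
  obtain ⟨e, he, hT⟩ := exists_lifts hm hlift Nat.one_pos
  rw [mul_one] at hT
  set M₀ := ∏ i, m i with hM₀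
  have hM₀pos : 0 < M₀ := Finset.prod_pos fun i _ => hm i
  obtain ⟨g0, hg0, hg0eq⟩ := lift_prod (A := A) (τ := τ) hT (fun _ => 0)
  obtain ⟨g, hg, rfl⟩ := hg0.exists_mem
  obtain ⟨κ, κ', hκ, ⟨L⟩⟩ := exists_split A hA
  obtain ⟨L'⟩ := L.pow hM₀pos
  have hhM : Homotopic (surf S) (model S A τ)^[M₀] (F ^ (n * M₀) : ANO.X r k ≃ₜ ANO.X r k) :=
    hh.pow M₀
  have hcont : Continuous (model S A τ)^[M₀] := (continuous_model S A hτ.cont).iterate M₀
  have hpow : ∀ i, i ∉ I₀ → Nonempty (PALoc (H' i ^ e i) (w i)) := by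
    intro i hi
    obtain ⟨D⟩ := hpa' i hi
    exact D.pow (he i)
  obtain ⟨T₀, hT₀⟩ : ∃ T₀ : ANO.X r k ≃ₜ ANO.X r k, ∀ p, T₀ p = g ((model S A τ)^[M₀] p) :=
    ⟨(modelHomeo S A hA.1 τ hτ.cont ^ M₀).trans g.toHomeomorph, fun p => by
      change g ((modelHomeo S A hA.1 τ hτ.cont ^ M₀) p) = _
      rw [coe_modelHomeo_pow]⟩
  have hform : ∀ p, T₀ p = (fun i => (H' i ^ e i) (p.1 i), (matCLE A hA.1 ^ M₀) p.2 +
      ((model S A τ)^[M₀] (p.1, 0)).2) := by
    intro p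
    rw [hT₀, hg0eq]
    refine Prod.ext (funext fun i => ?_) ?_
    · change (H' i)^[e i] (p.1 i) = (H' i ^ e i) (p.1 i)
      rw [coe_pow_eq_iterate]
    · funext j
      change ((model S A τ)^[M₀] p).2 j + ((0 : ℤ) : ℝ) = _
      rw [Int.cast_zero, add_zero, model_snd, matCLE_pow_Exist]
  have htw : ∀ γ : Fin r → SL(2, ℝ), (∀ i, γ i ∈ (surf S i).Γ) →
      ∃ v : Fin k → ℤ, ∀ z : Fin r → ℍ, ((model S A τ)^[M₀] ((fun i => γ i • z i), 0)).2 =
        fun j => ((model S A τ)^[M₀] (z, 0)).2 j + v j := by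
    intro γ hγ
    obtain ⟨g', ⟨γ', v', hγ', hg'⟩, h1, -⟩ := hhM _ (isDeck_deckIso (surf S) (0 : Fin k → ℤ) hγ)
    refine ⟨v', fun z => ?_⟩
    have h2 := congrFun h1 (z, 0)
    rw [Function.comp_apply, Function.comp_apply, hg', deckIso_apply] at h2
    have h3 : (((fun i => γ i • z i), fun j => (0 : Fin k → ℝ) j + ((0 : Fin k → ℤ) j : ℝ)) :
        ANO.X r k) = ((fun i => γ i • z i), 0) := by
      refine Prod.ext rfl ?_
      funext j
      simp
    have h4 := congrArg Prod.snd h2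
    rw [← h3]
    exact h4
  refine ⟨κ, κ', hκ, ⟨{
    F := F
    M := n * M₀
    G₀ := (model S A τ)^[M₀]
    g := g
    T := (F ^ (n * M₀)).trans g.toHomeomorph
    T₀ := T₀
    hF := hF
    hM := Nat.mul_pos hn hM₀pos
    cont := hcont
    hom := hhM
    deck := hg
    T₀_eq := hT₀
    T_eq := fun p => rfl
    nf := {
      H := fun i => ⇑(H' i ^ e i)
      A' := A ^ M₀
      B := matCLE A hA.1 ^ M₀
      B_eq := matCLE_pow_Exist A hA.1 M₀
      β := fun z => ((model S A τ)^[M₀] (z, 0)).2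
      cont := continuous_snd.comp (hcont.comp (continuous_id.prodMk continuous_const))
      form := hform
      idH := fun i hi z => ?_
      w := w
      fixed := fun i hi => ?_
      hyp := fun u hu => ?_
      twist := fun γ hγ _ => htw γ hγ }
    split := L'
    H := fun i => H' i ^ e i
    H_eq := fun i z => rfl
    pa := fun i => (hpow i i.2).some
    hyp := fun j hj u hu => ?_ }⟩⟩
  · rw [coe_pow_eq_iterate]
    exact Function.iterate_fixed (hid i hi z) _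
  · obtain ⟨D⟩ := hpow i hi
    exact D.fixed
  · rw [matCLE_pow_Exist] at hu
    exact Idx.hyperbolic_pow hA hM₀pos hu
  · change (⇑(matCLE A hA.1 ^ M₀))^[j] u = u at hu
    rw [iterate_Exist, matCLE_pow_Exist] at hu
    exact Idx.hyperbolic_pow hA (Nat.mul_pos hM₀pos hj) hu

end Pool.Agent.ANO2.Dim
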