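import Pool.Agent.ANO2.Dim.Exist
import Pool.Agent.ANO2.Dim.Concl

/-!
# The dimension argument: no identity factors
-/

set_option autoImplicit false

open Set Filter Topology
open Pool.Agent.ANO
open scoped UpperHalfPlane MatrixGroups

namespace Pool.Agent.ANO2.Dim

/-- A homotopy class of the model form which contains (a root of) an Anosov diffeomorphism has no
factors isotopic to the identity. -/
theorem dimStatement : ∀ (r k : ℕ) (S : Fin r → SurfaceMap) (I₀ : Set (Fin r)),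
    (∀ i ∈ I₀, IsInner (S i)) → (∀ i ∉ I₀, ∃ q l, IsPA (S i) q l) →
      ∀ A : Matrix (Fin k) (Fin k) ℤ, IsHyperbolicMatrix A →
        ∀ τ : (Fin r → ℍ) → (Fin k → ℝ), IsTwist (surf S) τ →
          ∀ F : ANO.X r k ≃ₜ ANO.X r k, IsAnosovLift (surf S) F → ∀ n : ℕ, 0 < n →
            Homotopic (surf S) (model S A τ) (F ^ n : ANO.X r k ≃ₜ ANO.X r k) → I₀ = ∅ := by
  intro r k S I₀ hin hpa A hA τ hτ F hF n hn hh
  obtain ⟨κ, κ', hκ, ⟨D⟩⟩ := exists_two S I₀ hin (fun i hi => by
    obtain ⟨q, l, h⟩ := hpa i hi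
    exact paDim h) A hA τ hτ F hF n hn hh
  exact D.eq_empty hκ

end Pool.Agent.ANO2.Dim
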