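import Pool.Agent.ANO2.Dim.Defs
import Pool.Agent.ANO2.Dyn.Main
import Pool.Agent.ANO2.Prod.Setup

/-!
# Lifts of powers of an Anosov diffeomorphism (package DIM-LIFT)

`LiftOf S F M T`: `T = g ∘ F ^ M` with a deck transformation `g`.  `F` is an Anosov lift.

`liftOf_zpow`: for every `j : ℤ` there is a deck transformation `g` with
`(T ^ j) p = g (((F ^ M) ^ j) p)` for all `p`.  PROOF.  Induction (`Int.induction_on`), with
`hF.2.2.1`, `hF.2.2.2.1` iterated (`anosov_conj'` in `Prod/Setup.lean` and its analogue): if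
`T ^ j = g_j F' ^ j` (`F' = F ^ M`), then `T ^ (j+1) = T T ^ j = g F' g_j F' ^ j`, which is
`g g' F' ^ (j+1)` with `F' g_j = g' F'`; and
`T ^ (j-1) = T⁻¹ T ^ j = F'⁻¹ g⁻¹ g_j F' ^ j = g'' F' ^ (j-1)` with
`F' g'' = g⁻¹ g_j F'`.

`liftOf_pow`: `T ^ n` is a lift of `F ^ (M n)`.
`liftOf_smooth`: `loc` of a composition (`Dyn.contDiffOn_loc_comp`, `Dyn.contDiffOn_pow`,
`Dyn.IsDeck.contDiffOn`, `Dyn.IsDeck.inv`).
`liftOf_uc`: `Dyn.uniformContinuous_lift` for `T` and `T.symm` (both normalise the deck group).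
`liftOf_exp`: `dist ((T ^ j) x) ((T ^ j) y) = dist (((F^M) ^ j) x) (((F^M) ^ j) y)` (deck
transformations are isometries), so `Dyn.main` gives expansivity.
`liftOf_sh`: let `δ` be the constant of the shadowing property of `F' = F ^ M` for `ε`, and let
`dist (T (x j)) (x (j+1)) ≤ δ`.  Choose deck transformations `g j` with `T ^ j = g j ∘ F' ^ j` and
their inverses `g' j` (`Dyn.IsDeck.inv`); put `y j = g' j (x j)`.  From `T ^ (j+1) = T ∘ T ^ j` and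
the surjectivity of `F' ^ j` one gets `g (j+1) (F' p) = T (g j p)` for all `p`.  So
`dist (F' (y j)) (y (j+1)) = dist (g (j+1) (F' (y j))) (x (j+1)) = dist (T (x j)) (x (j+1)) ≤ δ`.
If `dist ((F' ^ j) y) (y j) ≤ ε` for all `j` then
`dist ((T ^ j) y) (x j) = dist (g j ((F' ^ j) y)) (g j (y j)) ≤ ε`.
-/

set_option autoImplicit false

open Set Filter Topology
open Pool.Agent.ANO

namespace Pool.Agent.ANO2.Dim

open Pool.Agent.ANO.Dyn (Expansive Shadowing)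

variable {r k : ℕ} {S : Fin r → ClosedSurface}

/-- `T` is a lift of `F ^ M`. -/
def LiftOf (S : Fin r → ClosedSurface) (F : ANO.X r k ≃ₜ ANO.X r k) (M : ℕ)
    (T : ANO.X r k ≃ₜ ANO.X r k) : Prop :=
  ∃ g, IsDeck S k g ∧ ∀ p, T p = g ((F ^ M) p)

variable {F T : ANO.X r k ≃ₜ ANO.X r k} {M : ℕ}

private theorem norm_pow_Lift (hF : IsAnosovLift S F) (n : ℕ) :
    ∀ g, IsDeck S k g → ∃ g', IsDeck S k g' ∧ ∀ p, (F ^ n) (g p) = g' ((F ^ n) p) := by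
  induction n with
  | zero =>
    intro g hg
    exact ⟨g, hg, fun p => rfl⟩
  | succ n ih =>
    intro g hg
    obtain ⟨g1, hg1, h1⟩ := hF.2.2.1 g hg
    obtain ⟨g2, hg2, h2⟩ := ih g1 hg1
    refine ⟨g2, hg2, fun p => ?_⟩
    have h3 : F (g p) = g1 (F p) := congrFun h1 p
    rw [pow_succ]
    show (F ^ n) (F (g p)) = g2 ((F ^ n) (F p))
    rw [h3, h2]

private theorem conj_pow_Lift (hF : IsAnosovLift S F) (n : ℕ) :
    ∀ g', IsDeck S k g' → ∃ g, IsDeck S k g ∧ ∀ p, (F ^ n) (g p) = g' ((F ^ n) p) := by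
  intro g' hg'
  obtain ⟨g, hg, h⟩ := anosov_conj' hF n hg'
  exact ⟨g, hg, fun p => congrFun h p⟩

private theorem zpow_succ_Lift (f : ANO.X r k ≃ₜ ANO.X r k) (j : ℤ) (p : ANO.X r k) :
    (f ^ (j + 1)) p = f ((f ^ j) p) := by
  rw [add_comm, zpow_one_add]
  rfl

theorem liftOf_zpow (hF : IsAnosovLift S F) (h : LiftOf S F M T) (j : ℤ) :
    ∃ g, IsDeck S k g ∧ ∀ p, (T ^ j) p = g (((F ^ M) ^ j) p) := by
  obtain ⟨g, hg, hT⟩ := h
  obtain ⟨g', hg', e1, e2⟩ := Dyn.IsDeck.inv hg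
  induction j using Int.induction_on with
  | zero => exact ⟨id, IsDeck.id S, fun p => rfl⟩
  | succ i ih =>
    obtain ⟨gi, hgi, h1⟩ := ih
    obtain ⟨g2, hg2, h2⟩ := norm_pow_Lift hF M gi hgi
    refine ⟨g ∘ g2, Dyn.IsDeck.comp hg hg2, fun p => ?_⟩
    rw [zpow_succ_Lift, zpow_succ_Lift, h1, hT, h2]
    rfl
  | pred i ih =>
    obtain ⟨gi, hgi, h1⟩ := ih
    obtain ⟨g2, hg2, h2⟩ := conj_pow_Lift hF M (g' ∘ gi) (Dyn.IsDeck.comp hg' hgi)
    refine ⟨g2, hg2, fun p => ?_⟩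
    apply T.injective
    have h3 := zpow_succ_Lift T (-(i : ℤ) - 1) p
    have h4 := zpow_succ_Lift (F ^ M) (-(i : ℤ) - 1) p
    rw [sub_add_cancel] at h3 h4
    rw [← h3, h1, hT, h2, ← h4]
    exact (e2 _).symm

theorem liftOf_pow (hF : IsAnosovLift S F) (h : LiftOf S F M T) (n : ℕ) :
    LiftOf S F (M * n) (T ^ n) := by
  obtain ⟨g, hg, h1⟩ := liftOf_zpow hF h (n : ℤ)
  refine ⟨g, hg, fun p => ?_⟩
  have h2 := h1 p
  rw [zpow_natCast, zpow_natCast] at h2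
  rw [pow_mul]
  exact h2

theorem liftOf_smooth (hF : IsAnosovLift S F) (h : LiftOf S F M T) :
    ContDiffOn ℝ 1 (loc T) (dom r k) ∧ ContDiffOn ℝ 1 (loc T.symm) (dom r k) := by
  obtain ⟨g, hg, hT⟩ := h
  obtain ⟨g', hg', e1, e2⟩ := Dyn.IsDeck.inv hg
  have h1 : (T : ANO.X r k → ANO.X r k) = g ∘ ⇑(F ^ M) := funext hT
  have h2 : (T.symm : ANO.X r k → ANO.X r k) = ⇑(F ^ M).symm ∘ g' := by
    funext p
    rw [Homeomorph.symm_apply_eq, hT]
    show p = g ((F ^ M) ((F ^ M).symm (g' p)))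
    rw [Homeomorph.apply_symm_apply, e2]
  have h3 := Dyn.contDiffOn_pow hF M
  rw [h1, h2]
  exact ⟨ANO.Dyn.contDiffOn_loc_comp (Dyn.IsDeck.contDiffOn hg) h3.1,
    ANO.Dyn.contDiffOn_loc_comp h3.2 (Dyn.IsDeck.contDiffOn hg')⟩

theorem liftOf_uc (hF : IsAnosovLift S F) (h : LiftOf S F M T) :
    UniformContinuous T ∧ UniformContinuous T.symm := by
  obtain ⟨g, hg, hT⟩ := h
  obtain ⟨g', hg', e1, e2⟩ := Dyn.IsDeck.inv hg
  refine ⟨Dyn.uniformContinuous_lift (S := S) fun a ha => ?_,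
    Dyn.uniformContinuous_lift (S := S) fun a' ha' => ?_⟩
  · obtain ⟨a1, ha1, h1⟩ := norm_pow_Lift hF M a ha
    refine ⟨g ∘ (a1 ∘ g'), Dyn.IsDeck.comp hg (Dyn.IsDeck.comp ha1 hg'), funext fun p => ?_⟩
    show T (a p) = g (a1 (g' (T p)))
    rw [hT, h1, hT p, e1]
  · obtain ⟨a, ha, h1⟩ := conj_pow_Lift hF M (g' ∘ (a' ∘ g))
      (Dyn.IsDeck.comp hg' (Dyn.IsDeck.comp ha' hg))
    refine ⟨a, ha, funext fun p => ?_⟩
    show T.symm (a' p) = a (T.symm p)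
    rw [Homeomorph.symm_apply_eq, hT, h1]
    show a' p = g (g' (a' (g ((F ^ M) (T.symm p)))))
    rw [e2, ← hT, Homeomorph.apply_symm_apply]

theorem liftOf_exp (hF : IsAnosovLift S F) (hM : 0 < M) (h : LiftOf S F M T) : Expansive T := by
  obtain ⟨e, he, h1⟩ := (Dyn.main hF hM).1
  refine ⟨e, he, fun x y hxy => h1 x y fun j => ?_⟩
  obtain ⟨g, hg, h2⟩ := liftOf_zpow hF h j
  have h3 := hxy j
  rwa [h2, h2, (Dyn.IsDeck.isometry hg).dist_eq] at h3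

theorem liftOf_sh (hF : IsAnosovLift S F) (hM : 0 < M) (h : LiftOf S F M T) : Shadowing T := by
  intro ε hε
  obtain ⟨δ, hδ, h1⟩ := (Dyn.main hF hM).2 ε hε
  refine ⟨δ, hδ, fun x hx => ?_⟩
  choose g hg hgT using fun j => liftOf_zpow hF h j
  choose g' hg' e1 e2 using fun j => Dyn.IsDeck.inv (hg j)
  have key : ∀ (j : ℤ) (p : ANO.X r k), g (j + 1) ((F ^ M) p) = T (g j p) := by
    intro j p
    obtain ⟨q, rfl⟩ := ((F ^ M) ^ j).surjective p
    rw [← hgT, ← zpow_succ_Lift, ← zpow_succ_Lift, hgT]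
  obtain ⟨y, hy⟩ := h1 (fun j => g' j (x j)) fun j => by
    show dist ((F ^ M) (g' j (x j))) (g' (j + 1) (x (j + 1))) ≤ δ
    have h2 := hx j
    rwa [← (Dyn.IsDeck.isometry (hg (j + 1))).dist_eq, key, e2, e2]
  refine ⟨y, fun j => ?_⟩
  have h2 := hy j
  rw [← (Dyn.IsDeck.isometry (hg j)).dist_eq, e2] at h2
  rwa [hgT]

end Pool.Agent.ANO2.Dim
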