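import Mathlib

/-!
# The dimension argument: the functional on the torus coordinate (package DIM-TOR)

`T : X → X` continuous, `g : X → V` continuous (`V` a Banach space), `B : V → V` linear with
`‖B ^ n‖ ≤ a θ ^ n`, `θ < 1`, injective.  `S` is a set such that for `x ∈ S` and all `n`
`‖B (g (T^[n+1] x)) - g (T^[n] x)‖ ≤ c`.  Then there is `G : X → V` (the limit of
`B ^ n (g (T^[n] x))`), continuous on `S`, with `‖G x - g x‖ ≤ a c / (1 - θ)` on `S`, and if `x ∈
  S`
and `G x = 0` then `‖g (T^[n] x)‖ ≤ a c / (1 - θ)` for all `n`.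

PROOF.  Put `e x = B (g (T x)) - g x` and `G x = g x + ∑' n, (B ^ n) (e (T^[n] x))`.
Let `S' = {x | ∀ n, ‖e (T^[n] x)‖ ≤ c}`; `S ⊆ S'` (`Function.iterate_succ_apply'`), `T` maps `S'`
  to
`S'`, and `0 ≤ c` if `S'` is not empty.  For `x ∈ S'` the `n`-th term is bounded by `a θ ^ n c`,
summable, so `‖G x - g x‖ ≤ a c / (1 - θ)` (`tsum_of_norm_bounded`) and `G` is continuous on `S'`
(`continuousOn_tsum`).  For `x ∈ S'`
`G x = g x + e x + ∑' n, (B ^ (n + 1)) (e (T^[n + 1] x)) = B (g (T x)) + B (∑' n, (B ^ n) (e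
  (T^[n]
(T x)))) = B (G (T x))` (`Summable.tsum_eq_zero_add`, `ContinuousLinearMap.map_tsum`).
So if `G x = 0` then `B (G (T x)) = 0`, `G (T x) = 0` by injectivity, and by induction
`G (T^[n] x) = 0` for all `n`, so `‖g (T^[n] x)‖ = ‖G (T^[n] x) - g (T^[n] x)‖ ≤ a c / (1 - θ)`.
-/

set_option autoImplicit false

open Set Filter Topology

namespace Pool.Agent.ANO2.Dim

variable {X : Type} [TopologicalSpace X] {V : Type} [NormedAddCommGroup V] [NormedSpace ℝ V]
  [CompleteSpace V]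

theorem exists_tor {T : X → X} (hT : Continuous T) {g : X → V} (hg : Continuous g)
    (B : V →L[ℝ] V) (hB : Function.Injective B) {a θ c : ℝ} (hθ : 0 ≤ θ) (hθ1 : θ < 1)
    (hpow : ∀ n : ℕ, ‖B ^ n‖ ≤ a * θ ^ n) {S : Set X}
    (h : ∀ x ∈ S, ∀ n : ℕ, ‖B (g (T^[n + 1] x)) - g (T^[n] x)‖ ≤ c) :
    ∃ G : X → V, ContinuousOn G S ∧ (∀ x ∈ S, ‖G x - g x‖ ≤ a * c / (1 - θ)) ∧
      ∀ x ∈ S, G x = 0 → ∀ n : ℕ, ‖g (T^[n] x)‖ ≤ a * c / (1 - θ) := by
  have hθs : (1 - θ) ≠ 0 := by linarith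
  have hθp : 0 < 1 - θ := by linarith
  set e : X → V := fun x => B (g (T x)) - g x with he
  have hec : Continuous e := (B.continuous.comp (hg.comp hT)).sub hg
  set S' : Set X := {x | ∀ n : ℕ, ‖e (T^[n] x)‖ ≤ c} with hS'
  have hSS : S ⊆ S' := by
    intro x hx n
    have := h x hx n
    rw [Function.iterate_succ_apply'] at this
    exact this
  have hTS : ∀ x ∈ S', T x ∈ S' := by
    intro x hx n
    have := hx (n + 1)
    rwa [Function.iterate_succ_apply] at this
  have hTn : ∀ n : ℕ, ∀ x ∈ S', T^[n] x ∈ S' := by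
    intro n
    induction n with
    | zero => intro x hx; exact hx
    | succ n ih => intro x hx; rw [Function.iterate_succ_apply]; exact ih _ (hTS x hx)
  have ha : ∀ x ∈ S', ∀ n : ℕ, ‖(B ^ n) (e (T^[n] x))‖ ≤ a * c * θ ^ n := by
    intro x hx n
    have hc : 0 ≤ c := (norm_nonneg _).trans (hx 0)
    calc ‖(B ^ n) (e (T^[n] x))‖ ≤ ‖B ^ n‖ * ‖e (T^[n] x)‖ := (B ^ n).le_opNorm _
      _ ≤ (a * θ ^ n) * c := mul_le_mul (hpow n) (hx n) (norm_nonneg _)
          ((norm_nonneg _).trans (hpow n))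
      _ = a * c * θ ^ n := by ring
  have hgeo : HasSum (fun n : ℕ => a * c * θ ^ n) (a * c / (1 - θ)) := by
    have := (hasSum_geometric_of_lt_one hθ hθ1).mul_left (a * c)
    rwa [← div_eq_mul_inv] at this
  have hsum : ∀ x ∈ S', Summable (fun n : ℕ => (B ^ n) (e (T^[n] x))) := fun x hx =>
    Summable.of_norm_bounded hgeo.summable (ha x hx)
  set G : X → V := fun x => g x + ∑' n : ℕ, (B ^ n) (e (T^[n] x)) with hG
  have hGg : ∀ x ∈ S', ‖G x - g x‖ ≤ a * c / (1 - θ) := by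
    intro x hx
    have : G x - g x = ∑' n : ℕ, (B ^ n) (e (T^[n] x)) := by
      simp only [hG]; abel
    rw [this]
    exact tsum_of_norm_bounded hgeo (ha x hx)
  have hGc : ContinuousOn G S' := by
    refine hg.continuousOn.add ?_
    refine continuousOn_tsum (fun n => ?_) hgeo.summable (fun n x hx => ha x hx n)
    exact ((B ^ n).continuous.comp (hec.comp (hT.iterate n))).continuousOn
  have hrec : ∀ x ∈ S', G x = B (G (T x)) := by
    intro x hx
    have h1 := (hsum x hx).tsum_eq_zero_add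
    have h2 : (fun n : ℕ => (B ^ (n + 1)) (e (T^[n + 1] x))) =
        fun n : ℕ => B ((B ^ n) (e (T^[n] (T x)))) := by
      funext n
      rw [Function.iterate_succ_apply, pow_succ']
      rfl
    have h3 : ∑' n : ℕ, B ((B ^ n) (e (T^[n] (T x)))) =
        B (∑' n : ℕ, (B ^ n) (e (T^[n] (T x)))) :=
      (B.map_tsum (hsum (T x) (hTS x hx))).symm
    have h4 : (B ^ 0) (e (T^[0] x)) = e x := by simp
    show g x + ∑' n : ℕ, (B ^ n) (e (T^[n] x)) =
      B (g (T x) + ∑' n : ℕ, (B ^ n) (e (T^[n] (T x))))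
    rw [h1, h4, h2, h3, map_add]
    simp only [he]
    abel
  have hz : ∀ x ∈ S', G x = 0 → ∀ n : ℕ, G (T^[n] x) = 0 := by
    intro x hx hx0 n
    induction n with
    | zero => exact hx0
    | succ n ih =>
      have h1 := hrec _ (hTn n x hx)
      rw [ih] at h1
      rw [Function.iterate_succ_apply']
      exact hB (by rw [map_zero]; exact h1.symm)
  refine ⟨G, hGc.mono hSS, fun x hx => hGg x (hSS hx), fun x hx hx0 n => ?_⟩
  have h1 := hGg _ (hTn n x (hSS hx))
  rw [hz x (hSS hx) hx0 n, zero_sub, norm_neg] at h1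
  exact h1

end Pool.Agent.ANO2.Dim
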