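import Pool.Agent.ANO2.Dim.Sig
import Pool.Agent.ANO2.Dim.Tor
import Pool.Agent.ANO2.Dim.Disc

/-!
# The dimension argument: the discs meet `Wb Z T` (package DIM-MEET)

`meet`.  There is an affine disc `b + M (cube)` all small translates of which meet
`C.toE '' Wb Z T`.

PROOF.  For each `i` let `σ i` be as in `exists_sigma` for `D.f i`, `L = D.L i`, `c = D.c`
(`choose`), and `R₁ = ∑ i, |D.c / (D.L i - 1)|`, so `|σ i x - D.f i x| ≤ R₁` for all `i`, `x`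
(`Finset.single_le_sum`).
Let `c'` be given by `D.disc R₁`, `R₂ = |D.a * c' / (1 - D.θ)|`, and `M`, `b` given for `R₂`.  Let
`v` be in the neighbourhood of `0` (`filter_upwards`).  `Φ y = C.ofE (b + v + M y)` is continuous on
the cube (`C.contOf`, `C.dom = range C.toE`).  Put
`S = {x | (∃ y ∈ cube (ι ⊕ κ), Φ y = x) ∧ ∀ i, σ i x = 0}`.  For `x ∈ S`, `|D.f i ((T ^ n) x)| ≤ R₁`
by `bounded_of_sigma` and `pow_apply`, so `‖B (g (T ^ (n+1) x)) - g (T ^ n x)‖ ≤ c'`.  Let `G` be as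
in `exists_tor`.  Apply `zero_of_cube'` with `F y i = σ i (Φ y)`, `g ∘ Φ`, `G ∘ Φ`, `R = R₂`:
* `G ∘ Φ` is continuous on `{y ∈ cube | F y = 0}` since `Φ` maps this set to `S`;
* if `y (inl i) = -1` then `σ i (Φ y) ≤ f i (Φ y) + R₁ < 0`, if it is `1` then
  `σ i (Φ y) ≥ f i (Φ y) - R₁ > 0`.
So there is `y` with `x = Φ y ∈ S` and `G x = 0`, hence `‖g ((T ^ n) x)‖ ≤ R₂` for all `n`, and
`D.pre x (max R₁ R₂)` gives `x ∈ Wb Z T`.  `C.toE x = b + v + M y` because `b + v + M y ∈ C.dom`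
(`C.left_inv`).
-/

set_option autoImplicit false

open Set Filter Topology
open Pool.Agent.ANO2.EqIdx

namespace Pool.Agent.ANO2.Dim

variable {X E : Type} [MetricSpace X] [NormedAddCommGroup E] [NormedSpace ℝ E]
  {C : Chart X E} {Z : Type} [Group Z] [MulAction Z X] {T : X ≃ₜ X} {ι κ : Type} [Fintype ι]
  [Fintype κ]

theorem meet (D : Func C Z T ι κ) : ∃ (M : (ι ⊕ κ → ℝ) →L[ℝ] E) (b : E), ∀ᶠ v in 𝓝 (0 : E),
    ∃ y, b + v + M y ∈ C.toE '' Wb Z T := by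
  classical
  choose σ hσc hσf hσT using fun i =>
    exists_sigma (T := T) T.continuous (D.cont_f i) (D.one_lt i) (D.est i)
  set R₁ : ℝ := ∑ i, |D.c / (D.L i - 1)| with hR₁
  have hb : ∀ i, D.c / (D.L i - 1) ≤ R₁ := fun i =>
    (le_abs_self _).trans (Finset.single_le_sum (f := fun i => |D.c / (D.L i - 1)|)
      (fun j _ => abs_nonneg _) (Finset.mem_univ i))
  have hσ1 : ∀ i x, |σ i x - D.f i x| ≤ R₁ := fun i x => (hσf i x).trans (hb i)
  obtain ⟨c', hc'⟩ := D.disc R₁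
  set R₂ : ℝ := |D.a * c' / (1 - D.θ)| with hR₂
  obtain ⟨M, b, hMb⟩ := hc' R₂
  refine ⟨M, b, ?_⟩
  filter_upwards [hMb] with v hv
  set Φ : (ι ⊕ κ → ℝ) → X := fun y => C.ofE (b + v + M y) with hΦ
  have hΦc : ContinuousOn Φ (cube (ι ⊕ κ)) := by
    refine C.contOf.comp (Continuous.continuousOn ?_) fun y hy => (hv y hy).1
    exact continuous_const.add M.continuous
  set S : Set X := {x | (∃ y ∈ cube (ι ⊕ κ), Φ y = x) ∧ ∀ i, σ i x = 0} with hS
  have hSf : ∀ x ∈ S, ∀ (i : ι) (n : ℕ), |D.f i ((T ^ n) x)| ≤ R₁ := by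
    intro x hx i n
    rw [pow_apply]
    exact bounded_of_sigma (T := T) (hσ1 i) (hσT i) (hx.2 i) n
  have hSg : ∀ x ∈ S, ∀ n : ℕ, ‖D.B (D.g (T^[n + 1] x)) - D.g (T^[n] x)‖ ≤ c' := by
    intro x hx n
    obtain ⟨⟨y, hy, rfl⟩, -⟩ := id hx
    have h1 := (hv y hy).2.2.2 (hSf _ hx) n
    rw [pow_apply, pow_apply] at h1
    exact h1
  obtain ⟨G, hGc, hGg, hG0⟩ := exists_tor (T := T) T.continuous D.cont_g D.B D.inj D.θ_nonneg
    D.θ_lt D.pow_le hSg
  have hR : D.a * c' / (1 - D.θ) ≤ R₂ := le_abs_self _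
  have hmaps : ∀ y ∈ cube (ι ⊕ κ), (fun i => σ i (Φ y)) = 0 → Φ y ∈ S := fun y hy h0 =>
    ⟨⟨y, hy, rfl⟩, fun i => congrFun h0 i⟩
  obtain ⟨y, hy, hF, hG⟩ := zero_of_cube' (fun y i => σ i (Φ y)) (fun y => D.g (Φ y))
    (fun y => G (Φ y))
    (continuousOn_pi.2 fun i => (hσc i).comp_continuousOn hΦc)
    (D.cont_g.comp_continuousOn hΦc)
    (hGc.comp (hΦc.mono fun y hy => hy.1) fun y hy => hmaps y hy.1 hy.2)
    (abs_nonneg _ : 0 ≤ R₂)
    (fun y hy h0 => (hGg _ (hmaps y hy h0)).trans hR)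
    (fun y hy i hi => by
      have h1 := ((hv y hy).2.1 i).1 hi
      have h2 := (abs_le.1 (hσ1 i (Φ y))).2
      change D.f i (Φ y) < -R₁ at h1
      change σ i (Φ y) < 0
      linarith)
    (fun y hy i hi => by
      have h1 := ((hv y hy).2.1 i).2 hi
      have h2 := (abs_le.1 (hσ1 i (Φ y))).1
      change R₁ < D.f i (Φ y) at h1
      change 0 < σ i (Φ y)
      linarith)
    (fun y hy j hj => ((hv y hy).2.2.1 j).1 hj)
    (fun y hy j hj => ((hv y hy).2.2.1 j).2 hj)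
  have hxS : Φ y ∈ S := hmaps y hy hF
  have hW : Φ y ∈ Wb Z T := by
    refine D.pre (Φ y) (max R₁ R₂) (fun i n => (hSf _ hxS i n).trans (le_max_left _ _)) fun n => ?_
    rw [pow_apply]
    exact ((hG0 _ hxS hG n).trans hR).trans (le_max_right _ _)
  refine ⟨y, Φ y, hW, ?_⟩
  obtain ⟨q, hq⟩ := (hv y hy).1
  change C.toE (C.ofE (b + v + M y)) = b + v + M y
  rw [← hq, C.left_inv]

end Pool.Agent.ANO2.Dim
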