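import Pool.Agent.ANO2.Dim.Cfg
import Pool.Agent.ANO2.Iface

/-!
# Pseudo-Anosov maps of `ℍ` near a regular fixed point (package DIM-PALOC)

`PALoc H w`: `H` is a homeomorphism of `ℍ` with the regular fixed point `w`, which expands `du` and
contracts `ds` by the factor `l`, with the side functions `su`, `ss`.

* `toSide`: `Side H w` with `du`, `ds`, `su`, `L = l`.
* `toSideSymm`: `Side H.symm w` with `ds`, `du`, `ss`, `L = l`: `ss z = l * ss (H z)` gives
  `ss (H.symm z) = l * ss z`; `du (H a) (H b) = l * du a b` gives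
  `l * du (H.symm a) (H.symm b) = du a b`.
* `pow`: `PALoc (H ^ e) w`, `0 < e`, with `l ^ e`; `⇑(H ^ e) = H^[e]`; all conditions by induction
  on `e`; `reg`: `(H^[e])^[j] = H^[e * j]` (`Function.iterate_mul`), `0 < e * j`.
* `coarse_symm`: if `dist a b ≤ C` then `dist (H.symm a) (H.symm b) ≤ C'`: `du (H.symm a) (H.symm b)
  = l⁻¹ du a b` and `ds (H.symm a) (H.symm b) = l ds a b` are bounded (`upper`), so `proper`.
* `bdd`: if `dist z (H^[j] z) ≤ C`, `0 < j`, then `du z (H^[j] z) ≤ C'` and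
  `l ^ j du z w = du (H^[j] z) w ≤ du (H^[j] z) z + du z w`, so `(l ^ j - 1) du z w ≤ C'`; and
  `ds z w ≤ ds z (H^[j] z) + ds (H^[j] z) w ≤ C' + l ^ (-j) ds z w`.  So `proper` bounds
  `dist z w`.  (`du`, `ds` are symmetric.)
* `uniq`: `H^[j] z = z`, `0 < j`: `l ^ j du z w = du z w`, so `du z w = 0`, and `ds z w = 0` in the
  same way; `eq_of_zero`.
-/

set_option autoImplicit false

open Set Filter Topology
open Pool.Agent.ANO
open scoped UpperHalfPlane

namespace Pool.Agent.ANO2.Dim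

/-- A pseudo-Anosov homeomorphism of `ℍ` with the regular fixed point `w`. -/
structure PALoc (H : ℍ ≃ₜ ℍ) (w : ℍ) where
  l : ℝ
  one_lt : 1 < l
  reg : ∀ j : ℕ, 0 < j → RegFixed w H^[j]
  du : ℍ → ℍ → ℝ
  ds : ℍ → ℍ → ℝ
  du_nonneg : ∀ a b, 0 ≤ du a b
  ds_nonneg : ∀ a b, 0 ≤ ds a b
  du_symm : ∀ a b, du a b = du b a
  ds_symm : ∀ a b, ds a b = ds b a
  du_triangle : ∀ a b c, du a c ≤ du a b + du b c
  ds_triangle : ∀ a b c, ds a c ≤ ds a b + ds b c
  du_H : ∀ a b, du (H a) (H b) = l * du a b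
  ds_H : ∀ a b, l * ds (H a) (H b) = ds a b
  upper : ∀ R : ℝ, ∃ C : ℝ, ∀ a b, dist a b ≤ R → du a b ≤ C ∧ ds a b ≤ C
  proper : ∀ R : ℝ, ∃ C : ℝ, ∀ a b, du a b ≤ R → ds a b ≤ R → dist a b ≤ C
  eq_of_zero : ∀ a b, du a b = 0 → ds a b = 0 → a = b
  su : ℍ → ℝ
  ss : ℍ → ℝ
  su_cont : Continuous su
  ss_cont : Continuous ss
  su_H : ∀ z, su (H z) = l * su z
  ss_H : ∀ z, l * ss (H z) = ss z
  su_le : ∀ a b, |su a - su b| ≤ du a b
  ss_le : ∀ a b, |ss a - ss b| ≤ ds a b
  su_eq : ∀ z, |su z| = du z w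
  ss_eq : ∀ z, |ss z| = ds z w
  su_pos : ∃ z, 0 < su z
  su_neg : ∃ z, su z < 0
  ss_pos : ∃ z, 0 < ss z
  ss_neg : ∃ z, ss z < 0

namespace PALoc

variable {H : ℍ ≃ₜ ℍ} {w : ℍ}

theorem fixed (D : PALoc H w) : H w = w := (D.reg 1 Nat.one_pos).1

/-- The side function in the unstable direction. -/
def toSide (D : PALoc H w) : Side H w where
  du := D.du
  ds := D.ds
  s := D.su
  L := D.l
  one_lt := D.one_lt
  cont := D.su_cont
  s_H := D.su_H
  s_le := D.su_le
  s_eq := D.su_eq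
  pos := D.su_pos
  neg := D.su_neg
  ds_nonneg := D.ds_nonneg
  ds_triangle := D.ds_triangle
  ds_H := D.ds_H
  fixed := D.fixed
  upper := D.upper
  proper := D.proper

/-- The side function in the stable direction. -/
def toSideSymm (D : PALoc H w) : Side H.symm w where
  du := D.ds
  ds := D.du
  s := D.ss
  L := D.l
  one_lt := D.one_lt
  cont := D.ss_cont
  s_H := fun z => by rw [← D.ss_H (H.symm z), H.apply_symm_apply]
  s_le := D.ss_le
  s_eq := D.ss_eq
  pos := D.ss_pos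
  neg := D.ss_neg
  ds_nonneg := D.du_nonneg
  ds_triangle := D.du_triangle
  ds_H := fun a b => by rw [← D.du_H, H.apply_symm_apply, H.apply_symm_apply]
  fixed := by rw [H.symm_apply_eq, D.fixed]
  upper := fun R => by
    obtain ⟨C, hC⟩ := D.upper R
    exact ⟨C, fun a b h => ⟨(hC a b h).2, (hC a b h).1⟩⟩
  proper := fun R => by
    obtain ⟨C, hC⟩ := D.proper R
    exact ⟨C, fun a b h h' => hC a b h' h⟩

private theorem iter_fixed_PALoc {f : ℍ → ℍ} {w : ℍ} (hf : f w = w) (j : ℕ) : f^[j] w = w :=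
  Function.iterate_fixed hf j

private theorem du_iter_PALoc (D : PALoc H w) (j : ℕ) (a b : ℍ) :
    D.du (H^[j] a) (H^[j] b) = D.l ^ j * D.du a b := by
  induction j with
  | zero => simp
  | succ j ih =>
    rw [Function.iterate_succ_apply', Function.iterate_succ_apply', D.du_H, ih, pow_succ]
    ring

private theorem ds_iter_PALoc (D : PALoc H w) (j : ℕ) (a b : ℍ) :
    D.l ^ j * D.ds (H^[j] a) (H^[j] b) = D.ds a b := by
  induction j with
  | zero => simp
  | succ j ih =>
    rw [Function.iterate_succ_apply', Function.iterate_succ_apply', pow_succ, mul_assoc,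
      D.ds_H, ih]

private theorem su_iter_PALoc (D : PALoc H w) (j : ℕ) (z : ℍ) :
    D.su (H^[j] z) = D.l ^ j * D.su z := by
  induction j with
  | zero => simp
  | succ j ih =>
    rw [Function.iterate_succ_apply', D.su_H, ih, pow_succ]
    ring

private theorem ss_iter_PALoc (D : PALoc H w) (j : ℕ) (z : ℍ) :
    D.l ^ j * D.ss (H^[j] z) = D.ss z := by
  induction j with
  | zero => simp
  | succ j ih =>
    rw [Function.iterate_succ_apply', pow_succ, mul_assoc, D.ss_H, ih]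

private theorem coe_pow_PALoc (H : ℍ ≃ₜ ℍ) (e : ℕ) : ⇑(H ^ e) = H^[e] := by
  induction e with
  | zero => rfl
  | succ e ih =>
    rw [pow_succ, Function.iterate_succ]
    change (⇑(H ^ e)) ∘ H = _
    rw [ih]

private theorem one_lt_pow_PALoc (D : PALoc H w) {j : ℕ} (hj : 0 < j) : 1 < D.l ^ j :=
  one_lt_pow₀ D.one_lt hj.ne'

theorem pow (D : PALoc H w) {e : ℕ} (he : 0 < e) : Nonempty (PALoc (H ^ e) w) := by
  refine ⟨{
    l := D.l ^ e
    one_lt := one_lt_pow_PALoc D he
    reg := fun j hj => by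
      rw [coe_pow_PALoc, ← Function.iterate_mul]
      exact D.reg (e * j) (Nat.mul_pos he hj)
    du := D.du
    ds := D.ds
    du_nonneg := D.du_nonneg
    ds_nonneg := D.ds_nonneg
    du_symm := D.du_symm
    ds_symm := D.ds_symm
    du_triangle := D.du_triangle
    ds_triangle := D.ds_triangle
    du_H := fun a b => by
      rw [coe_pow_PALoc]
      exact du_iter_PALoc D e a b
    ds_H := fun a b => by
      rw [coe_pow_PALoc]
      exact ds_iter_PALoc D e a b
    upper := D.upper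
    proper := D.proper
    eq_of_zero := D.eq_of_zero
    su := D.su
    ss := D.ss
    su_cont := D.su_cont
    ss_cont := D.ss_cont
    su_H := fun z => by
      rw [coe_pow_PALoc]
      exact su_iter_PALoc D e z
    ss_H := fun z => by
      rw [coe_pow_PALoc]
      exact ss_iter_PALoc D e z
    su_le := D.su_le
    ss_le := D.ss_le
    su_eq := D.su_eq
    ss_eq := D.ss_eq
    su_pos := D.su_pos
    su_neg := D.su_neg
    ss_pos := D.ss_pos
    ss_neg := D.ss_neg }⟩

theorem coarse_symm (D : PALoc H w) (C : ℝ) : ∃ C' : ℝ, ∀ a b, dist a b ≤ C →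
    dist (H.symm a) (H.symm b) ≤ C' := by
  obtain ⟨C₁, hC₁⟩ := D.upper C
  have hl : 0 < D.l := zero_lt_one.trans D.one_lt
  obtain ⟨C', hC'⟩ := D.proper (max C₁ (D.l * C₁))
  refine ⟨C', fun a b h => hC' _ _ ?_ ?_⟩
  · have h1 := D.du_H (H.symm a) (H.symm b)
    rw [H.apply_symm_apply, H.apply_symm_apply] at h1
    have h2 := D.du_nonneg (H.symm a) (H.symm b)
    have h3 : D.du (H.symm a) (H.symm b) ≤ D.du a b := by
      rw [h1]
      exact le_mul_of_one_le_left h2 D.one_lt.le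
    exact (h3.trans (hC₁ a b h).1).trans (le_max_left _ _)
  · have h1 := D.ds_H (H.symm a) (H.symm b)
    rw [H.apply_symm_apply, H.apply_symm_apply] at h1
    rw [← h1]
    exact (mul_le_mul_of_nonneg_left (hC₁ a b h).2 hl.le).trans (le_max_right _ _)

theorem bdd (D : PALoc H w) {j : ℕ} (hj : 0 < j) (C : ℝ) : ∃ R : ℝ, ∀ z,
    dist z (H^[j] z) ≤ C → dist z w ≤ R := by
  obtain ⟨C₁, hC₁⟩ := D.upper C
  have hL := one_lt_pow_PALoc D hj
  have hL0 : 0 < D.l ^ j - 1 := by linarith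
  have hL1 : 0 < D.l ^ j := by linarith
  have hw : H^[j] w = w := iter_fixed_PALoc D.fixed j
  obtain ⟨R, hR⟩ := D.proper (max (C₁ / (D.l ^ j - 1)) (C₁ * D.l ^ j / (D.l ^ j - 1)))
  refine ⟨R, fun z hz => hR z w ?_ ?_⟩
  · refine le_trans ?_ (le_max_left _ _)
    have h1 := du_iter_PALoc D j z w
    rw [hw] at h1
    have h2 := D.du_triangle (H^[j] z) z w
    rw [D.du_symm (H^[j] z) z, h1] at h2
    have h3 := (hC₁ _ _ hz).1
    rw [le_div_iff₀ hL0]
    linarith
  · refine le_trans ?_ (le_max_right _ _)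
    have h1 := ds_iter_PALoc D j z w
    rw [hw] at h1
    have h2 := D.ds_triangle z (H^[j] z) w
    have h3 := (hC₁ _ _ hz).2
    have h4 : D.l ^ j * D.ds z w ≤ D.l ^ j * (C₁ + D.ds (H^[j] z) w) :=
      mul_le_mul_of_nonneg_left (by linarith) hL1.le
    rw [mul_add, h1] at h4
    rw [le_div_iff₀ hL0]
    linarith

theorem uniq (D : PALoc H w) {j : ℕ} (hj : 0 < j) {z : ℍ} (hz : H^[j] z = z) : z = w := by
  have hL := one_lt_pow_PALoc D hj
  have hw : H^[j] w = w := iter_fixed_PALoc D.fixed j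
  refine D.eq_of_zero z w ?_ ?_
  · have h1 := du_iter_PALoc D j z w
    rw [hw, hz] at h1
    have h2 : (D.l ^ j - 1) * D.du z w = 0 := by linarith
    rcases mul_eq_zero.1 h2 with h3 | h3
    · linarith
    · exact h3
  · have h1 := ds_iter_PALoc D j z w
    rw [hw, hz] at h1
    have h2 : (D.l ^ j - 1) * D.ds z w = 0 := by linarith
    rcases mul_eq_zero.1 h2 with h3 | h3
    · linarith
    · exact h3

end PALoc

end Pool.Agent.ANO2.Dim
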