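import Pool.Agent.ANO2.Dim.Close

/-!
# The dimension argument: the set of periodic points (package DIM-PERA)

Let `D : Dynamic C Z T s`.  `Per T = {q | ∃ n > 0, (T ^ n) q = q}`.
* `smul_mem`, `map_mem`, `symm_mem`: `Per T` is invariant under `Z`, `T` and `T.symm` (the same
  period).
* `finite_orbits`: there is a finite set `A ⊆ Per T` such that every `q ∈ Per T` is `z • a`,
  `z : Z`, `a ∈ A`.  PROOF.  Let `B` be as in `D.fin`.  If there is no such `A`, there are
  `q_0, ..., q_B` in `Per T` in different `Z`-orbits: choose them one after the other (by induction: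
  for every `k` there is a finite set `A ⊆ Per T` with `k` elements, no two different elements of
  which are in the same orbit).
  Let `n_i > 0` be periods and `n = ∏ n_i`; `(T ^ n) q_i = q_i` (`pow_mul`, a power of a map which
  fixes `q_i`), so the orbits of the `q_i` are `B + 1` different elements of
  `fixOrb Z ⇑(T ^ n)`, contradiction to `encard ≤ B`.
* `separated`: there is `ρ > 0` such that `q, q' ∈ Per T`, `dist q q' < ρ` implies `q = q'`.
  PROOF.  Let `A` be as above, `K` the closed ball of radius `1` about the finite set `A`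
  (`cthickening 1 A`, compact in the proper space `X`).  By `D.act.proper K` the set
  `{z | ∃ x ∈ K, z • x ∈ K}` is finite, so the set `Q' = {z • a | a ∈ A, z • a ∈ K}` is finite.
  So there is `ρ ∈ (0, 1)` with `dist a q' ≥ ρ` for `a ∈ A`, `q' ∈ Q'`, `q' ≠ a`.  Let
  `dist q q' < ρ`, `q, q' ∈ Per T`, `q = z • a`; then `q'' = z⁻¹ • q'` has
  `dist a q'' < ρ ≤ 1`, so `q'' ∈ K`, `q'' ∈ Q'` and `q'' = a`, `q' = q`.
* `countable_per`: `Per T` is countable.  PROOF.  The balls `ball q (ρ / 2)`, `q ∈ Per T`, are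
  pairwise disjoint, open and nonempty in the separable space `X` (`ProperSpace X`):
  `Set.PairwiseDisjoint.countable_of_isOpen`.
-/

set_option autoImplicit false

open Set Filter Topology
open Pool.Agent.ANO2.EqIdx Pool.Agent.ANO.Dyn

namespace Pool.Agent.ANO2.Dim

variable {X E : Type} [MetricSpace X] [NormedAddCommGroup E] [NormedSpace ℝ E]
  {C : Chart X E} {Z : Type} [Group Z] [MulAction Z X] {T : X ≃ₜ X} {s : ℕ}

private theorem PerA_pow_comm (D : Dynamic C Z T s) (z : Z) (n : ℕ) (x : X) :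
    (T ^ n) (z • x) = z • (T ^ n) x := by
  induction n generalizing x with
  | zero => rfl
  | succ n ih =>
    have h : ∀ y : X, (T ^ (n + 1)) y = (T ^ n) (T y) := fun y => by
      rw [pow_succ]; rfl
    rw [h, h, D.comm, ih]

private theorem PerA_pow_mul {q : X} {n : ℕ} (h : (T ^ n) q = q) (m : ℕ) :
    (T ^ (n * m)) q = q := by
  induction m with
  | zero => rfl
  | succ m ih =>
    have h2 : (T ^ (n * (m + 1))) q = (T ^ (n * m)) ((T ^ n) q) := by
      rw [Nat.mul_succ, pow_add]; rfl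
    rw [h2, h, ih]

theorem smul_mem (D : Dynamic C Z T s) (z : Z) {q : X} (hq : q ∈ Per T) : z • q ∈ Per T := by
  obtain ⟨n, hn, h⟩ := hq
  exact ⟨n, hn, by rw [PerA_pow_comm D, h]⟩

theorem map_mem {q : X} (hq : q ∈ Per T) : T q ∈ Per T := by
  obtain ⟨n, hn, h⟩ := hq
  refine ⟨n, hn, ?_⟩
  have h1 : (T ^ n) (T q) = (T ^ (n + 1)) q := by rw [pow_succ]; rfl
  have h2 : (T ^ (n + 1)) q = T ((T ^ n) q) := by rw [pow_succ']; rfl
  rw [h1, h2, h]

theorem symm_mem {q : X} (hq : q ∈ Per T) : T.symm q ∈ Per T := by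
  obtain ⟨n, hn, h⟩ := hq
  refine ⟨n, hn, ?_⟩
  apply T.injective
  have h1 : T ((T ^ n) (T.symm q)) = (T ^ (n + 1)) (T.symm q) := by rw [pow_succ']; rfl
  have h2 : (T ^ (n + 1)) (T.symm q) = (T ^ n) (T (T.symm q)) := by rw [pow_succ]; rfl
  rw [h1, h2, T.apply_symm_apply, h]

theorem finite_orbits (D : Dynamic C Z T s) :
    ∃ A : Set X, A.Finite ∧ A ⊆ Per T ∧ ∀ q ∈ Per T, ∃ (z : Z) (a : X), a ∈ A ∧ q = z • a := by
  classical
  obtain ⟨B, hB⟩ := D.fin
  set P : Set (Set X) := (fun q => MulAction.orbit Z q) '' Per T with hP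
  have hle : P.encard ≤ B := by
    by_contra hcon
    have hlt : ((B + 1 : ℕ) : ℕ∞) ≤ P.encard := by
      have := not_le.mp hcon
      rw [Nat.cast_add, Nat.cast_one]
      exact Order.add_one_le_of_lt this
    obtain ⟨S, hSP, hS⟩ := Set.exists_subset_encard_eq hlt
    have hSfin : S.Finite := Set.finite_of_encard_eq_coe hS
    have hch : ∀ o : Set X, ∃ n : ℕ, 0 < n ∧ (o ∈ S → ∃ q, (T ^ n) q = q ∧
        MulAction.orbit Z q = o) := by
      intro o
      by_cases ho : o ∈ S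
      · obtain ⟨q, ⟨n, hn, h⟩, hq⟩ := hSP ho
        exact ⟨n, hn, fun _ => ⟨q, h, hq⟩⟩
      · exact ⟨1, Nat.one_pos, fun h => absurd h ho⟩
    choose n hn hq using hch
    have hpos : 0 < ∏ o ∈ hSfin.toFinset, n o := Finset.prod_pos fun o _ => hn o
    have hsub : S ⊆ fixOrb Z ⇑(T ^ (∏ o ∈ hSfin.toFinset, n o)) := by
      intro o ho
      obtain ⟨q, h1, h2⟩ := hq o ho
      obtain ⟨m, hm⟩ := Finset.dvd_prod_of_mem n (hSfin.mem_toFinset.mpr ho)
      refine ⟨q, ?_, h2⟩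
      show (T ^ (∏ o ∈ hSfin.toFinset, n o)) q = q
      rw [hm]
      exact PerA_pow_mul h1 m
    have h3 := (Set.encard_le_encard hsub).trans (hB _ hpos)
    rw [hS] at h3
    have h4 : B + 1 ≤ B := by exact_mod_cast h3
    omega
  have hfin : P.Finite := Set.finite_of_encard_le_coe hle
  have hch : ∀ o : P, ∃ q ∈ Per T, MulAction.orbit Z q = o.1 := by
    rintro ⟨o, q, hq, rfl⟩
    exact ⟨q, hq, rfl⟩
  choose r hr hro using hch
  have : Finite P := hfin
  refine ⟨Set.range r, Set.finite_range r, ?_, ?_⟩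
  · rintro _ ⟨o, rfl⟩
    exact hr o
  · intro q hq
    have ho : MulAction.orbit Z q ∈ P := ⟨q, hq, rfl⟩
    have h1 : q ∈ MulAction.orbit Z (r ⟨MulAction.orbit Z q, ho⟩) := by
      rw [hro ⟨_, ho⟩]
      exact MulAction.mem_orbit_self q
    obtain ⟨z, hz⟩ := h1
    exact ⟨z, r ⟨MulAction.orbit Z q, ho⟩, ⟨_, rfl⟩, hz.symm⟩

theorem separated [ProperSpace X] (D : Dynamic C Z T s) :
    ∃ ρ > 0, ∀ q ∈ Per T, ∀ q' ∈ Per T, dist q q' < ρ → q = q' := by
  classical
  obtain ⟨A, hA, hAP, hrep⟩ := finite_orbits D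
  set K : Set X := Metric.cthickening 1 A with hK
  have hKc : IsCompact K :=
    Metric.isCompact_of_isClosed_isBounded Metric.isClosed_cthickening
      hA.isBounded.cthickening
  have hAK : A ⊆ K := Metric.self_subset_cthickening A
  have hQ : {x : X | ∃ z : Z, ∃ a ∈ A, x = z • a ∧ x ∈ K}.Finite := by
    have h1 := (D.act.proper K hKc)
    refine ((h1.prod hA).image fun p : Z × X => p.1 • p.2).subset ?_
    rintro x ⟨z, a, ha, rfl, hx⟩
    exact ⟨(z, a), ⟨⟨a, hAK ha, hx⟩, ha⟩, rfl⟩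
  set Q : Set X := {x : X | ∃ z : Z, ∃ a ∈ A, x = z • a ∧ x ∈ K} with hQdef
  have hρ : ∃ ρ : ℝ, 0 < ρ ∧ ρ < 1 ∧ ∀ a ∈ A, ∀ x ∈ Q, dist a x < ρ → a = x := by
    have hfin : ((fun p : X × X => dist p.1 p.2) '' (A ×ˢ Q) \ {0}).Finite :=
      ((hA.prod hQ).image _).subset Set.sdiff_subset
    have h2 : ∃ ρ : ℝ, 0 < ρ ∧ ρ < 1 ∧ ∀ d ∈ (fun p : X × X => dist p.1 p.2) '' (A ×ˢ Q) \ {0},
        ρ ≤ d := by
      have hpos : ∀ d ∈ (fun p : X × X => dist p.1 p.2) '' (A ×ˢ Q) \ {0}, 0 < d := by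
        rintro d ⟨⟨p, _, rfl⟩, h0⟩
        exact lt_of_le_of_ne dist_nonneg (fun h => h0 h.symm)
      generalize (fun p : X × X => dist p.1 p.2) '' (A ×ˢ Q) \ {0} = F at hfin hpos
      refine Set.Finite.induction_on_subset F hfin
        ⟨1 / 2, by norm_num, by norm_num, fun d hd => absurd hd (Set.notMem_empty d)⟩ ?_
      rintro a t ha _ _ ⟨ρ, h0, h1, h⟩
      refine ⟨min ρ a, lt_min h0 (hpos a ha), lt_of_le_of_lt (min_le_left _ _) h1, ?_⟩
      rintro d (rfl | hd)
      · exact min_le_right _ _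
      · exact (min_le_left _ _).trans (h d hd)
    obtain ⟨ρ, h0, h1, h⟩ := h2
    refine ⟨ρ, h0, h1, fun a ha x hx hlt => ?_⟩
    by_contra hne
    have hd : dist a x ∈ (fun p : X × X => dist p.1 p.2) '' (A ×ˢ Q) \ {0} :=
      ⟨⟨(a, x), ⟨ha, hx⟩, rfl⟩, fun h => hne (dist_eq_zero.mp h)⟩
    exact absurd hlt (not_lt.mpr (h _ hd))
  obtain ⟨ρ, h0, h1, h⟩ := hρ
  refine ⟨ρ, h0, fun q hq q' hq' hlt => ?_⟩
  obtain ⟨z, a, ha, rfl⟩ := hrep q hq
  have hd : dist a (z⁻¹ • q') < ρ := by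
    rw [← D.act.dist_smul z a (z⁻¹ • q'), smul_inv_smul]
    exact hlt
  have hK' : z⁻¹ • q' ∈ K := by
    refine Metric.mem_cthickening_of_dist_le _ a 1 A ha ?_
    rw [dist_comm]
    exact (hd.trans h1).le
  obtain ⟨w, b, hb, hwb⟩ := hrep _ (smul_mem D z⁻¹ hq')
  have h3 := h a ha (z⁻¹ • q') ⟨w, b, hb, hwb, hK'⟩ hd
  rw [h3, smul_inv_smul]

theorem countable_per [ProperSpace X] (D : Dynamic C Z T s) : (Per T).Countable := by
  obtain ⟨ρ, h0, h⟩ := separated D
  have hdisj : (Per T).PairwiseDisjoint fun q => Metric.ball q (ρ / 2) := by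
    intro q hq q' hq' hne
    refine Metric.ball_disjoint_ball ?_
    by_contra hcon
    refine hne (h q hq q' hq' ?_)
    linarith [not_le.mp hcon]
  exact hdisj.countable_of_isOpen (fun q _ => Metric.isOpen_ball)
    (fun q _ => Metric.nonempty_ball.mpr (by linarith))

end Pool.Agent.ANO2.Dim
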