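import Pool.Agent.ANO2.Dim.Zgrp

/-!
# The twisted torus coordinate and the cocompactness of `Z` (packages DIM-TWIST)

`NF S I₀ T₀`: normal form of a lift `T₀` of a power of the model:
`T₀ (z, t) = (H_i z_i, B t + β z)`,
`B` the linear map of an integer matrix, without fixed vectors, `H_i = id` for `i ∈ I₀`, and
`H_i (w_i) = w_i` for `i ∉ I₀`.  `proj z = (z_i for i ∈ I₀, w_i for i ∉ I₀)`.

`exists_t₀`: there is a continuous `t₀ : ℍ^r → ℝ^k` which depends only on the coordinates in `I₀`,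
such that `T₀` fixes `(proj z, t₀ z)`: `B (t₀ z) + β (proj z) = t₀ z`.  PROOF.  `1 - B` is
injective,
so it is an automorphism of `ℝ^k` (`LinearEquiv.ofInjectiveEndo`); `t₀ z = (1 - B)⁻¹ (β (proj z))`.

`t₀_smul`: for `g ∈ Z`: `(g p).2 - t₀ (g p).1 = p.2 - t₀ p.1`.  PROOF.  `g = (γ, v)`;
`q = (proj p.1, t₀ p.1)` is a fixed point of `T₀`, so `g q` is a fixed point of `T₀`, and
`(g q).1 = proj (g p).1` (for `i ∉ I₀` `g` does not change the coordinate, for `i ∈ I₀` both are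
`γ_i • p.1 i`), `(g q).2 = t₀ p.1 + v`.  So `B (t₀ p.1 + v) + β (proj (g p).1) = t₀ p.1 + v`, and
the
uniqueness of the solution (`hyp`) gives `t₀ (g p).1 = t₀ p.1 + v`; `(g p).2 = p.2 + v`.

`cocpt`: there is a compact `K ⊆ ℍ` such that every `p` has `g ∈ Z` with `(g p).1 i ∈ K` for all
`i ∈ I₀`.  PROOF.  Let `K_i` be compact with `Γ_i K_i = ℍ` (`ClosedSurface.cocompact`).  Let `G` be
the set of all `γ` with `γ_i ∈ Γ_i`, `γ_i = 1` for `i ∉ I₀` (closed under products and inverses).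
By `twist` there is `c γ ∈ ℤ^k` with `β (γ z) = β z + c γ`; it is unique, `c (γ γ') = c γ + c γ'`,
`c (γ⁻¹) = - c γ`.  Let `d = det (1 - A') ≠ 0` (`Matrix.exists_mulVec_eq_zero_iff` over `ℝ` and
`hyp`).  For every `x : (ℤ / d)^k` (a finite type: `ZMod d.natAbs`, `d.natAbs ≠ 0`) which is the
class
of `c γ` for some `γ ∈ G`, choose such a `φ_x ∈ G`.  Let `K` be the union of the compact sets
`(φ_x i)⁻¹ • K_i`.  For `p` choose `γ ∈ G` with `γ_i p_i ∈ K_i`, `i ∈ I₀`; let `x` be the class of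
`c γ`, `γ' = φ_x⁻¹ γ ∈ G`: all the entries of `c γ' = c γ - c φ_x` are divisible by `d`,
`c γ' = d u`.  `v = adjugate (1 - A') u` satisfies `(1 - A') v = d u = c γ'`
(`Matrix.mul_adjugate`).  `g = deckIso γ' v` commutes with `T₀`:
`T₀ (g (z, t)) = (γ'_i H_i z_i, B t + A' v + β z + c γ')`,
`g (T₀ (z, t)) = (γ'_i H_i z_i, B t + β z + v)`.

`exists_compact`: for every `R` there is a compact `K ⊆ X r k` such that every `p` with
`dist (p.1 i) (w i) ≤ R` for `i ∉ I₀` and `‖p.2 - t₀ p.1‖ ≤ R` is in `sat Z K`.  PROOF.  `g` as in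
`cocpt`; `(g p).1` is in the compact set of all `z` with `z_i ∈ K` (`i ∈ I₀`),
`dist (z i) (w i) ≤ R`
(`i ∉ I₀`), on which `t₀` is bounded, and `‖(g p).2 - t₀ (g p).1‖ ≤ R` by `t₀_smul`.
-/

set_option autoImplicit false

open Set Filter Topology
open Pool.Agent.ANO
open scoped UpperHalfPlane MatrixGroups

namespace Pool.Agent.ANO2.Dim

open Pool.Agent.ANO2.EqIdx

variable {r k : ℕ}

/-- The normal form of a lift `T₀` of a power of the model; `I₀` is the set of identity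
factors. -/
structure NF (S : Fin r → ClosedSurface) (I₀ : Set (Fin r)) (T₀ : ANO.X r k → ANO.X r k) where
  H : Fin r → ℍ → ℍ
  A' : Matrix (Fin k) (Fin k) ℤ
  B : (Fin k → ℝ) ≃L[ℝ] (Fin k → ℝ)
  B_eq : ∀ v, B v = (A'.map (Int.cast : ℤ → ℝ)).mulVec v
  β : (Fin r → ℍ) → (Fin k → ℝ)
  cont : Continuous β
  form : ∀ p, T₀ p = (fun i => H i (p.1 i), B p.2 + β p.1)
  idH : ∀ i ∈ I₀, ∀ z, H i z = z
  w : Fin r → ℍ
  fixed : ∀ i ∉ I₀, H i (w i) = w i
  hyp : ∀ u, B u = u → u = 0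
  twist : ∀ γ : Fin r → SL(2, ℝ), (∀ i, γ i ∈ (S i).Γ) → (∀ i ∉ I₀, γ i = 1) →
    ∃ v : Fin k → ℤ, ∀ z, β (fun i => γ i • z i) = fun j => β z j + v j

variable {S : Fin r → ClosedSurface} {I₀ : Set (Fin r)} {T₀ : ANO.X r k → ANO.X r k}

open Classical in
/-- The coordinates outside `I₀` are replaced by those of `w`. -/
noncomputable def NF.proj (N : NF S I₀ T₀) (z : Fin r → ℍ) (i : Fin r) : ℍ :=
  if i ∈ I₀ then z i else N.w i

/-- `t₀` is the torus coordinate of the fixed points of `T₀`. -/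
structure NF.IsT₀ (N : NF S I₀ T₀) (t₀ : (Fin r → ℍ) → (Fin k → ℝ)) : Prop where
  cont : Continuous t₀
  dep : ∀ z z', (∀ i ∈ I₀, z i = z' i) → t₀ z = t₀ z'
  eq : ∀ z, N.B (t₀ z) + N.β (N.proj z) = t₀ z

private theorem twist_proj_cont (N : NF S I₀ T₀) : Continuous N.proj := by
  refine continuous_pi fun i => ?_
  by_cases h : i ∈ I₀
  · have h1 : (fun z : Fin r → ℍ => N.proj z i) = fun z => z i := by
      funext z
      simp [NF.proj, h]
    rw [h1]
    exact continuous_apply i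
  · have h1 : (fun z : Fin r → ℍ => N.proj z i) = fun _ => N.w i := by
      funext z
      simp [NF.proj, h]
    rw [h1]
    exact continuous_const

theorem NF.exists_t₀ (N : NF S I₀ T₀) : ∃ t₀, N.IsT₀ t₀ := by
  obtain ⟨f, hf⟩ : ∃ f : (Fin k → ℝ) →ₗ[ℝ] (Fin k → ℝ), ∀ u, f u = u - N.B u :=
    ⟨LinearMap.id - N.B.toLinearEquiv.toLinearMap, fun u => rfl⟩
  have hinj : Function.Injective f := by
    rw [injective_iff_map_eq_zero]
    intro u hu
    rw [hf, sub_eq_zero] at hu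
    exact N.hyp u hu.symm
  obtain ⟨e, he⟩ : ∃ e : (Fin k → ℝ) ≃ₗ[ℝ] (Fin k → ℝ), ∀ u, e u = u - N.B u :=
    ⟨LinearEquiv.ofInjectiveEndo f hinj, fun u => by
      rw [← hf]
      rfl⟩
  refine ⟨fun z => e.symm (N.β (N.proj z)), ?_, ?_, ?_⟩
  · have h1 : Continuous e.symm.toLinearMap := LinearMap.continuous_of_finiteDimensional _
    exact h1.comp (N.cont.comp (twist_proj_cont N))
  · intro z z' h
    have h1 : N.proj z = N.proj z' := by
      funext i
      by_cases hi : i ∈ I₀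
      · simp [NF.proj, hi, h i hi]
      · simp [NF.proj, hi]
    simp only [h1]
  · intro z
    have h1 := he (e.symm (N.β (N.proj z)))
    rw [e.apply_symm_apply] at h1
    nth_rewrite 2 [h1]
    abel

theorem NF.t₀_smul (N : NF S I₀ T₀) {t₀ : (Fin r → ℍ) → (Fin k → ℝ)} (h : N.IsT₀ t₀)
    (g : Zgrp S I₀ T₀) (p : ANO.X r k) : (g • p).2 - t₀ (g • p).1 = p.2 - t₀ p.1 := by
  obtain ⟨γ, v, hγ, hg⟩ := g.2.1
  obtain ⟨q, hq⟩ : ∃ q : ANO.X r k, q = (N.proj p.1, t₀ p.1) := ⟨_, rfl⟩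
  have hT : T₀ q = q := by
    rw [N.form, hq]
    refine Prod.ext (funext fun i => ?_) (h.eq p.1)
    by_cases hi : i ∈ I₀
    · exact N.idH i hi _
    · have h1 : N.proj p.1 i = N.w i := by simp [NF.proj, hi]
      simp only [h1]
      exact N.fixed i hi
  have hTg : T₀ (g.1 q) = g.1 q := by rw [g.2.2.2, hT]
  have h1 : (g.1 q).1 = N.proj (g.1 p).1 := by
    funext i
    by_cases hi : i ∈ I₀
    · have h2 : N.proj (g.1 p).1 i = (g.1 p).1 i := by simp [NF.proj, hi]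
      have h3 : N.proj p.1 i = p.1 i := by simp [NF.proj, hi]
      rw [h2, hg, hg, hq]
      simp only [h3]
    · have h2 : N.proj (g.1 p).1 i = N.w i := by simp [NF.proj, hi]
      have h3 : N.proj p.1 i = N.w i := by simp [NF.proj, hi]
      rw [h2, g.2.2.1 q i hi, hq]
      exact h3
  have h2 : (g.1 q).2 = fun j => t₀ p.1 j + v j := by
    rw [hg, hq]
  have h3 : N.B (g.1 q).2 + N.β (g.1 q).1 = (g.1 q).2 := by
    have h4 := congrArg Prod.snd hTg
    rw [N.form] at h4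
    exact h4
  have h4 := h.eq (g.1 p).1
  rw [h1] at h3
  have h5 : (g.1 q).2 - t₀ (g.1 p).1 = 0 := by
    apply N.hyp
    rw [map_sub]
    nth_rewrite 2 [← h3]
    nth_rewrite 2 [← h4]
    abel
  have h6 : t₀ (g.1 p).1 = fun j => t₀ p.1 j + v j := by
    rw [← h2]
    exact (sub_eq_zero.1 h5).symm
  have h7 : (g.1 p).2 = fun j => p.2 j + v j := by rw [hg]
  change (g.1 p).2 - t₀ (g.1 p).1 = p.2 - t₀ p.1
  rw [h6, h7]
  funext j
  simp only [Pi.sub_apply]
  ring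

end Pool.Agent.ANO2.Dim
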