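import Pool.Agent.ANO2.Dim.Cfg2
import Pool.Agent.ANO2.Dim.Cocpt
import Pool.Agent.ANO2.Dim.Lift
import Pool.Agent.ANO2.EqApp.Final

/-!
# The two lifts `T` and `T₀` (package DIM-TWO)

`Two S I₀ κ κ'`: `T = g ∘ F ^ M` and `T₀ = g ∘ G₀`, with `G₀` homotopic to `F ^ M`, `T₀` in normal
form, pseudo-Anosov in the factors `i ∉ I₀`.  `Z = Zgrp S I₀ T₀`.

* `lift`: `LiftOf S F M T`.  `pair`: by definition.
* `homotopic`: `Homotopic S T₀ T`: for a deck transformation `h`, `G₀ ∘ h = h' ∘ G₀`,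
  `F ^ M ∘ h = h' ∘ F ^ M`; `h'' = g ∘ h' ∘ g⁻¹` (`Dyn.IsDeck.inv`, `IsDeck.comp`).
* `near`: `Homotopic.bounded` (`Prod/Setup.lean`) for `T₀`, `T`, the normal form and
  `dist_le_pi_dist`.
* `grp`: `GrpData S I₀ T₀ Z`: by definition of `Zgrp`, and `NF.cocpt`.
* `mod`: `ModData I₀ T₀`: `Φ` from the normal form, `bdd`, `uniq` from `PALoc.bdd`, `PALoc.uniq`.
-/

set_option autoImplicit false

open Set Filter Topology
open Pool.Agent.ANO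
open scoped UpperHalfPlane MatrixGroups

namespace Pool.Agent.ANO2.Dim

open Pool.Agent.ANO2.EqIdx

variable {r k : ℕ}

/-- The two lifts. -/
structure Two (S : Fin r → ClosedSurface) (I₀ : Set (Fin r)) (k κ κ' : ℕ) where
  F : ANO.X r k ≃ₜ ANO.X r k
  M : ℕ
  G₀ : ANO.X r k → ANO.X r k
  g : ANO.X r k → ANO.X r k
  T : ANO.X r k ≃ₜ ANO.X r k
  T₀ : ANO.X r k ≃ₜ ANO.X r k
  hF : IsAnosovLift S F
  hM : 0 < M
  cont : Continuous G₀
  hom : Homotopic S G₀ (F ^ M : ANO.X r k ≃ₜ ANO.X r k)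
  deck : IsDeck S k g
  T₀_eq : ∀ p, T₀ p = g (G₀ p)
  T_eq : ∀ p, T p = g ((F ^ M) p)
  nf : NF S I₀ T₀
  split : LinSplit nf.B κ κ'
  H : Fin r → ℍ ≃ₜ ℍ
  H_eq : ∀ i z, nf.H i z = H i z
  pa : ∀ i : {i : Fin r // i ∉ I₀}, PALoc (H i) (nf.w i)
  hyp : ∀ j : ℕ, 0 < j → ∀ u, (nf.B)^[j] u = u → u = 0

namespace Two

variable {S : Fin r → ClosedSurface} {I₀ : Set (Fin r)} {κ κ' : ℕ} (D : Two S I₀ k κ κ')

theorem lift : LiftOf S D.F D.M D.T := ⟨D.g, D.deck, D.T_eq⟩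

theorem pair : EqApp.Pair S D.T₀ D.T :=
  ⟨D.F, D.M, D.G₀, D.g, D.hF, D.hM, D.cont, D.hom, D.deck, D.T₀_eq, D.T_eq⟩

theorem homotopic : Homotopic S D.T₀ D.T := by
  intro h hh
  obtain ⟨g', hg', e1, -⟩ := Dyn.IsDeck.inv D.deck
  obtain ⟨h', hh', h0, h1⟩ := D.hom h hh
  refine ⟨fun p => D.g (h' (g' p)), Dyn.IsDeck.comp D.deck (Dyn.IsDeck.comp hh' hg'), ?_, ?_⟩
  · funext p
    have h2 : D.G₀ (h p) = h' (D.G₀ p) := congrFun h0 p
    show D.T₀ (h p) = D.g (h' (g' (D.T₀ p)))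
    rw [D.T₀_eq, D.T₀_eq, h2, e1]
  · funext p
    have h2 : (D.F ^ D.M) (h p) = h' ((D.F ^ D.M) p) := congrFun h1 p
    show D.T (h p) = D.g (h' (g' (D.T p)))
    rw [D.T_eq, D.T_eq, h2, e1]

theorem near : ∃ C : ℝ, ∀ p, ∀ i ∉ I₀, dist ((D.T p).1 i) (D.H i (p.1 i)) ≤ C := by
  obtain ⟨C, hC⟩ := D.homotopic.bounded D.T₀.continuous D.T.continuous
  refine ⟨C, fun p i _ => ?_⟩
  have h1 : (D.T₀ p).1 i = D.H i (p.1 i) := by
    rw [D.nf.form, ← D.H_eq]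
  rw [← h1]
  have h2 : dist (D.T p).1 (D.T₀ p).1 ≤ dist (D.T p) (D.T₀ p) := by
    rw [Prod.dist_eq]
    exact le_max_left _ _
  exact (dist_le_pi_dist _ _ i).trans (h2.trans (hC p))

theorem grp : EqApp.GrpData S I₀ D.T₀ (Zgrp S I₀ D.T₀) where
  deck := fun z => z.2.1
  faithful := fun _ hz => Subtype.ext (IsometryEquiv.ext hz)
  triv := fun z p i hi => z.2.2.1 p i hi
  comm := fun z p => z.2.2.2 p
  cocpt := D.nf.cocpt

private theorem coe_Two (i : Fin r) : D.nf.H i = ⇑(D.H i) := funext fun z => D.H_eq i z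

theorem mod : Nonempty (EqApp.ModData I₀ D.T₀) := by
  refine ⟨{
    Φ := {
      H := D.nf.H
      B := (D.nf.B : (Fin k → ℝ) →L[ℝ] (Fin k → ℝ))
      β := D.nf.β
      cont := D.nf.cont
      hyp := D.nf.hyp
      form := fun p => D.nf.form p }
    cont := D.T₀.continuous
    id := fun i hi z => D.nf.idH i hi z
    w := D.nf.w
    reg := fun i hi j hj => ?_
    bdd := fun i hi j hj C => ?_
    uniq := fun i hi j hj z hz => ?_
    hyp := fun j hj u hu => D.hyp j hj u hu }⟩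
  · show RegFixed (D.nf.w i) (D.nf.H i)^[j]
    rw [coe_Two]
    exact (D.pa ⟨i, hi⟩).reg j hj
  · show ∃ R : ℝ, ∀ z, dist z ((D.nf.H i)^[j] z) ≤ C → dist z (D.nf.w i) ≤ R
    rw [coe_Two]
    exact (D.pa ⟨i, hi⟩).bdd hj C
  · change (D.nf.H i)^[j] z = z at hz
    rw [coe_Two] at hz
    exact (D.pa ⟨i, hi⟩).uniq hj hz

end Two

end Pool.Agent.ANO2.Dim
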