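import Pool.Agent.ANO2.Dim.Two

/-!
# The two lifts: the twisted torus coordinate (package DIM-TWOTW)

* `trans`: for `v : ℤ^k` let `p + v = (p.1, p.2 + v)`.  `T (p + v) = T p + A' v`.  PROOF.
  `deckIso 1 v` is a deck transformation; by the normal form `T₀ ∘ deckIso 1 v = deckIso 1 (A' v) ∘
  T₀`; `homotopic` gives `g'` with `T₀ ∘ deckIso 1 v = g' ∘ T₀`, `T ∘ deckIso 1 v = g' ∘ T`, and
  `g' = deckIso 1 (A' v)` since `T₀` is surjective.
* `tw`: let `t₀` be as in `IsT₀`, `Δ p = ((T p).2 - t₀ (T p).1) - B (p.2 - t₀ p.1)`, continuous.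
  `Δ (p + v) = Δ p` (`trans`, `B v = A' v`) and `Δ (z • p) = Δ p` for `z ∈ Z` (`zgrp_comm`,
  `t₀_smul`).  Let `K` be as in `NF.exists_compact` for `max R 1`, `C` a bound for `‖Δ‖` on `K`.
  Let `dist (p.1 i) (w i) ≤ R` for `i ∉ I₀`.  Choose `v ∈ ℤ^k` with `‖p.2 + v - t₀ p.1‖ ≤ 1`
  (`v j = -⌊..⌋`).  Then `p + v ∈ sat Z K`, so `‖Δ p‖ = ‖Δ (p + v)‖ ≤ C`.
* `cfg2`: collect (`NF.exists_t₀`, `NF.exists_compact`).
-/

set_option autoImplicit false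

open Set Filter Topology
open Pool.Agent.ANO
open scoped UpperHalfPlane MatrixGroups

namespace Pool.Agent.ANO2.Dim.Two

open Pool.Agent.ANO2.EqIdx

variable {r k : ℕ} {S : Fin r → ClosedSurface} {I₀ : Set (Fin r)} {κ κ' : ℕ}
  (D : Two S I₀ k κ κ')

private theorem trans_TwoTw (v : Fin k → ℤ) (p : ANO.X r k) :
    D.T (p.1, p.2 + fun j => (v j : ℝ)) =
      ((D.T p).1, (D.T p).2 + D.nf.B fun j => (v j : ℝ)) := by
  have hdeck : IsDeck S k fun p : ANO.X r k => (p.1, p.2 + fun j => (v j : ℝ)) :=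
    ⟨fun _ => 1, v, fun i => (S i).Γ.one_mem, fun p => by
      refine Prod.ext ?_ ?_
      · funext i
        exact (one_smul _ _).symm
      · rfl⟩
  obtain ⟨g', hg', h1, h2⟩ := D.homotopic _ hdeck
  obtain ⟨p₁, hp₁⟩ := D.T₀.surjective (D.T p)
  have h3 : D.T (p.1, p.2 + fun j => (v j : ℝ)) = g' (D.T p) := congrFun h2 p
  have h4 : D.T₀ (p₁.1, p₁.2 + fun j => (v j : ℝ)) = g' (D.T₀ p₁) := congrFun h1 p₁
  rw [h3, ← hp₁, ← h4, D.nf.form, D.nf.form]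
  refine Prod.ext rfl ?_
  change D.nf.B (p₁.2 + fun j => (v j : ℝ)) + D.nf.β p₁.1 =
    D.nf.B p₁.2 + D.nf.β p₁.1 + D.nf.B fun j => (v j : ℝ)
  rw [map_add]
  abel

theorem tw {t₀ : (Fin r → ℍ) → (Fin k → ℝ)} (h : D.nf.IsT₀ t₀) (R : ℝ) :
    ∃ C : ℝ, ∀ p : ANO.X r k, (∀ i ∉ I₀, dist (p.1 i) (D.nf.w i) ≤ R) →
      ‖((D.T p).2 - t₀ (D.T p).1) - D.nf.B (p.2 - t₀ p.1)‖ ≤ C := by
  obtain ⟨K, hK, hcov⟩ := D.nf.exists_compact h (max R 1)
  have hcont : Continuous fun p : ANO.X r k =>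
      ((D.T p).2 - t₀ (D.T p).1) - D.nf.B (p.2 - t₀ p.1) := by
    have h1 := D.T.continuous
    have h2 := h.cont
    exact ((continuous_snd.comp h1).sub (h2.comp (continuous_fst.comp h1))).sub
      (D.nf.B.continuous.comp (continuous_snd.sub (h2.comp continuous_fst)))
  obtain ⟨C, hC⟩ := hK.exists_bound_of_continuousOn hcont.continuousOn
  refine ⟨C, fun p hp => ?_⟩
  -- translate the torus coordinate
  let v : Fin k → ℤ := fun j => -⌊p.2 j - t₀ p.1 j⌋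
  let p' : ANO.X r k := (p.1, p.2 + fun j => (v j : ℝ))
  have hp' : ‖p'.2 - t₀ p'.1‖ ≤ max R 1 := by
    refine le_trans ?_ (le_max_right R 1)
    rw [pi_norm_le_iff_of_nonneg zero_le_one]
    intro j
    change ‖p.2 j + ((-⌊p.2 j - t₀ p.1 j⌋ : ℤ) : ℝ) - t₀ p.1 j‖ ≤ 1
    rw [Real.norm_eq_abs, abs_le, Int.cast_neg]
    constructor
    · linarith [Int.floor_le (p.2 j - t₀ p.1 j)]
    · linarith [Int.lt_floor_add_one (p.2 j - t₀ p.1 j)]
  obtain ⟨z, hz⟩ := hcov p' (fun i hi => (hp i hi).trans (le_max_left R 1)) hp'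
  have h1 := hC _ hz
  rw [zgrp_comm D.T₀.surjective D.homotopic, D.nf.t₀_smul h, D.nf.t₀_smul h] at h1
  have h2 : (D.T p').2 - t₀ (D.T p').1 - D.nf.B (p'.2 - t₀ p'.1) =
      (D.T p).2 - t₀ (D.T p).1 - D.nf.B (p.2 - t₀ p.1) := by
    change (D.T (p.1, p.2 + fun j => (v j : ℝ))).2 -
      t₀ (D.T (p.1, p.2 + fun j => (v j : ℝ))).1 -
        D.nf.B ((p.2 + fun j => (v j : ℝ)) - t₀ p.1) = _
    rw [D.trans_TwoTw v p]
    change (D.T p).2 + (D.nf.B fun j => (v j : ℝ)) - t₀ (D.T p).1 -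
      D.nf.B ((p.2 + fun j => (v j : ℝ)) - t₀ p.1) = _
    rw [add_sub_right_comm p.2, map_add]
    abel
  rw [h2] at h1
  exact h1

theorem cfg2 : Nonempty (Cfg2 (Zgrp S I₀ D.T₀) D.T I₀ κ κ') := by
  obtain ⟨t₀, h⟩ := D.nf.exists_t₀
  exact ⟨{
    H := D.H
    w := D.nf.w
    pa := D.pa
    B := D.nf.B
    split := D.split
    t₀ := t₀
    cont := h.cont
    dep := h.dep
    near := D.near
    tw := D.tw h
    cpt := D.nf.exists_compact h }⟩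

end Pool.Agent.ANO2.Dim.Two
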