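import Pool.Agent.ANO2.EqIdx.Inst
import Pool.Agent.ANO2.Dyn.DeckC
import Pool.Agent.ANO2.Prod.Setup

/-!
# The group `Z` of deck transformations which commute with the model (package DIM-ZGRP)

`Zgrp S I₀ T₀`: the deck transformations which act trivially on the factors `ℍ` with `i ∉ I₀` and
commute with `T₀`, a subgroup of the group of isometries of `X r k`.

* `zgrp_action`: `Action (chartX r k) (Zgrp S I₀ T₀)`.  `dist_smul`: isometries.  `smooth`:
  `Dyn.IsDeck.contDiffOn` and `EqIdx.chartX_loc`, `chartX_dom`.  `free`: `z • x = x` with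
  `z = (γ, v)`: `v = 0` and `γ i • x.1 i = x.1 i`, so `γ i` acts trivially (`ClosedSurface.free`),
  so
  `z` is the identity (`ext`).  `proper`: `Dyn.deck_finite` says that the set of the deck
  transformations `g` (as functions) with `g p ∈ K` for some `p ∈ K` is finite, and
  `z ↦ (z : X → X)`
  is injective (`Set.Finite.preimage`, `Set.Finite.of_injOn`, ...).
* `zgrp_comm`: if `T` is homotopic to `T₀` and `T₀` is surjective then `T` commutes with `Z`: for
  `g ∈ Z`, `Homotopic` gives `g'` with `T₀ ∘ g = g' ∘ T₀` and `T ∘ g = g' ∘ T`; `T₀ ∘ g = g ∘ T₀`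
  and
  the surjectivity of `T₀` give `g' = g`.
-/

set_option autoImplicit false

open Set Filter Topology
open Pool.Agent.ANO
open scoped UpperHalfPlane MatrixGroups

namespace Pool.Agent.ANO2.Dim

open Pool.Agent.ANO2.EqIdx

variable {r k : ℕ}

/-- The group `Z`. -/
def Zgrp (S : Fin r → ClosedSurface) (I₀ : Set (Fin r)) (T₀ : ANO.X r k → ANO.X r k) :
    Subgroup (ANO.X r k ≃ᵢ ANO.X r k) where
  carrier := {g | IsDeck S k g ∧ (∀ p, ∀ i ∉ I₀, (g p).1 i = p.1 i) ∧ ∀ p, T₀ (g p) = g (T₀ p)}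
  one_mem' := ⟨IsDeck.id S, fun p i hi => rfl, fun p => rfl⟩
  mul_mem' := by
    rintro a b ⟨ha, ha1, ha2⟩ ⟨hb, hb1, hb2⟩
    refine ⟨IsDeck.comp (g := a) (h := b) ha hb, fun p i hi => ?_, fun p => ?_⟩
    · show (a (b p)).1 i = p.1 i
      rw [ha1 _ i hi, hb1 p i hi]
    · show T₀ (a (b p)) = a (b (T₀ p))
      rw [ha2, hb2]
  inv_mem' := by
    rintro a ⟨ha, ha1, ha2⟩
    have h1 : ∀ p, a (a⁻¹ p) = p := fun p => a.apply_symm_apply p
    refine ⟨(deckGroup S k).inv_mem ha, fun p i hi => ?_, fun p => ?_⟩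
    · have h2 := ha1 (a⁻¹ p) i hi
      rw [h1] at h2
      exact h2.symm
    · apply a.injective
      rw [← ha2, h1, h1]

noncomputable instance (S : Fin r → ClosedSurface) (I₀ : Set (Fin r))
    (T₀ : ANO.X r k → ANO.X r k) : MulAction (Zgrp S I₀ T₀) (ANO.X r k) where
  smul z p := z.1 p
  one_smul _ := rfl
  mul_smul _ _ _ := rfl

variable {S : Fin r → ClosedSurface} {I₀ : Set (Fin r)} {T₀ : ANO.X r k → ANO.X r k}

theorem zgrp_smul (z : Zgrp S I₀ T₀) (p : ANO.X r k) : z • p = z.1 p := rfl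

theorem zgrp_action (S : Fin r → ClosedSurface) (I₀ : Set (Fin r))
    (T₀ : ANO.X r k → ANO.X r k) : Action (chartX r k) (Zgrp S I₀ T₀) := by
  refine ⟨fun z x y => z.1.isometry.dist_eq x y, fun z => ?_, fun z x hz => ?_, fun K hK => ?_⟩
  · rw [chartX_dom]
    exact Dyn.IsDeck.contDiffOn z.2.1
  · obtain ⟨γ, v, hγ, h⟩ := z.2.1
    have h1 : z.1 x = x := hz
    rw [h] at h1
    have h2 : ∀ i, γ i • x.1 i = x.1 i := fun i => congrFun (congrArg Prod.fst h1) i
    have h3 : ∀ j, x.2 j + v j = x.2 j := fun j => congrFun (congrArg Prod.snd h1) j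
    refine Subtype.ext (IsometryEquiv.ext fun p => ?_)
    change z.1 p = p
    rw [h]
    refine Prod.ext (funext fun i => (S i).free _ (hγ i) _ (h2 i) _) (funext fun j => ?_)
    have h4 := h3 j
    change p.2 j + v j = p.2 j
    linarith
  · refine Set.Finite.of_finite_image (f := fun z : Zgrp S I₀ T₀ => (z.1 : ANO.X r k → ANO.X r k))
      ((Dyn.deck_finite (S := S) hK).subset ?_) ?_
    · rintro _ ⟨z, ⟨x, hx, hzx⟩, rfl⟩
      exact ⟨z.2.1, x, hx, hzx⟩
    · intro z _ z' _ h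
      exact Subtype.ext (IsometryEquiv.ext fun p => congrFun h p)

theorem zgrp_comm {T : ANO.X r k → ANO.X r k} (hs : Function.Surjective T₀)
    (h : Homotopic S T₀ T) (z : Zgrp S I₀ T₀) (p : ANO.X r k) : T (z • p) = z • T p := by
  obtain ⟨g', -, h1, h2⟩ := h z.1 z.2.1
  have h3 : ∀ y, g' y = z.1 y := by
    intro y
    obtain ⟨x, rfl⟩ := hs y
    have h4 : T₀ (z.1 x) = g' (T₀ x) := congrFun h1 x
    rw [← h4, z.2.2.2]
  have h5 : T (z.1 p) = g' (T p) := congrFun h2 p
  rw [h3] at h5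
  exact h5

end Pool.Agent.ANO2.Dim
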